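import Pool.Agent.SA36.Out2

set_option autoImplicit false

/-! The choice of the edge for trees with at least 13 vertices. -/

namespace Pool.Agent.SA36

open SimpleGraph Pool.Agent.SA33

variable {τ : Type*} {T : SimpleGraph τ}

/-- The half of `T` at `ab` containing `a`, rooted at `a`, is not good for the block approach:
a big block can occur. -/
def BadEdge (T : SimpleGraph τ) (col : τ → Bool) (a b : τ) : Prop :=
  ∃ (P R Rt : Set τ) (ψ : τ → τ), Blk T P R Rt ∧
    (∀ x y, (x ∈ P ∨ x ∈ R ∨ x ∈ Rt) → (y ∈ P ∨ y ∈ R ∨ y ∈ Rt) → ψ x = ψ y → x = y) ∧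
    (∀ x, (x ∈ P ∨ x ∈ R ∨ x ∈ Rt) → ψ x ∈ hf T a b) ∧
    (∀ x y, (x ∈ P ∨ x ∈ R ∨ x ∈ Rt) → (y ∈ P ∨ y ∈ R ∨ y ∈ Rt) →
      (T.Adj (ψ x) (ψ y) ↔ T.Adj x y)) ∧
    (∀ x ∈ Rt, ψ x = a) ∧ (∀ x ∈ P, ψ x ≠ a) ∧ (∀ x ∈ R, ψ x ≠ a) ∧
    ((∀ x ∈ P, col (ψ x) ≠ col a) ∨ (∀ x ∈ R, col (ψ x) ≠ col a))

section
variable [Finite τ]

theorem hf_ncard_add (hT : T.IsTree) {a b : τ} (hab : T.Adj a b) :
    (hf T a b).ncard + (hf T b a).ncard = Nat.card τ := by
  rw [← Set.ncard_union_eq _ (Set.toFinite _) (Set.toFinite _), ← Set.ncard_univ]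
  · congr 1
    ext v
    simp only [Set.mem_union, Set.mem_univ, iff_true]
    exact hf_cover hT hab v
  · rw [Set.disjoint_left]
    intro v h1 h2
    exact hf_disjoint hT.2 hab h1 h2

/-- Counting outside vertices. -/
theorem outside_ge (hT : T.IsTree) {a b : τ} (hab : T.Adj a b) {P R Rt : Set τ} {ψ : τ → τ}
    (hinj : ∀ x y, (x ∈ P ∨ x ∈ R ∨ x ∈ Rt) → (y ∈ P ∨ y ∈ R ∨ y ∈ Rt) → ψ x = ψ y → x = y)
    (hmap : ∀ x, (x ∈ P ∨ x ∈ R ∨ x ∈ Rt) → ψ x ∈ hf T a b) :
    (hf T b a).ncard ≤ {z | z ∉ P ∧ z ∉ R ∧ z ∉ Rt}.ncard := by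
  have h1 : {x | x ∈ P ∨ x ∈ R ∨ x ∈ Rt}.ncard ≤ (hf T a b).ncard :=
    Set.ncard_le_ncard_of_injOn ψ (fun x hx => hmap x hx) (fun x hx y hy h => hinj x y hx hy h)
      (Set.toFinite _)
  have h2 : {z | z ∉ P ∧ z ∉ R ∧ z ∉ Rt} = {x | x ∈ P ∨ x ∈ R ∨ x ∈ Rt}ᶜ := by
    ext z
    simp only [Set.mem_ofPred_eq, Set.mem_compl_iff, not_or]
  have h3 := Set.ncard_add_ncard_compl {x | x ∈ P ∨ x ∈ R ∨ x ∈ Rt}
  rw [h2]
  have := hf_ncard_add hT hab
  omega

theorem outside_gt (hT : T.IsTree) {a b : τ} (hab : T.Adj a b) {P R Rt : Set τ} {ψ : τ → τ}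
    (hinj : ∀ x y, (x ∈ P ∨ x ∈ R ∨ x ∈ Rt) → (y ∈ P ∨ y ∈ R ∨ y ∈ Rt) → ψ x = ψ y → x = y)
    (hmap : ∀ x, (x ∈ P ∨ x ∈ R ∨ x ∈ Rt) → ψ x ∈ hf T a b)
    (hP : ∀ x ∈ P, ψ x ≠ a) (hR : ∀ x ∈ R, ψ x ≠ a) (hRt : Rt = ∅) :
    (hf T b a).ncard < {z | z ∉ P ∧ z ∉ R ∧ z ∉ Rt}.ncard := by
  have h1 : {x | x ∈ P ∨ x ∈ R ∨ x ∈ Rt}.ncard ≤ (hf T a b \ {a}).ncard := by
    refine Set.ncard_le_ncard_of_injOn ψ (fun x hx => ⟨hmap x hx, ?_⟩)
      (fun x hx y hy h => hinj x y hx hy h) (Set.toFinite _)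
    rcases hx with h | h | h
    · exact hP x h
    · exact hR x h
    · rw [hRt] at h; exact h.elim
  have h0 := Set.ncard_sdiff_singleton_add_one (self_mem_hf (T := T) a b) (Set.toFinite _)
  have h2 : {z | z ∉ P ∧ z ∉ R ∧ z ∉ Rt} = {x | x ∈ P ∨ x ∈ R ∨ x ∈ Rt}ᶜ := by
    ext z
    simp only [Set.mem_ofPred_eq, Set.mem_compl_iff, not_or]
  have h3 := Set.ncard_add_ncard_compl {x | x ∈ P ∨ x ∈ R ∨ x ∈ Rt}
  rw [h2]
  have := hf_ncard_add hT hab
  omega

/-- The maximal branch has at least two vertices. -/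
theorem two_le_max (hT : T.IsTree) (htw : TwinFree T) (hn : 3 ≤ Nat.card τ) {r b1 : τ}
    (hmax : ∀ b, T.Adj b r → (hf T b r).ncard ≤ (hf T b1 r).ncard) :
    2 ≤ (hf T b1 r).ncard := by
  by_contra hcon
  have h1 : ∀ b, T.Adj b r → ∀ v ∈ hf T b r, v = b := by
    intro b hb v hv
    have := hmax b hb
    have h2 : (hf T b r).ncard ≤ 1 := by omega
    rw [Set.ncard_le_one_iff] at h2
    exact h2 hv (self_mem_hf _ _)
  have h2 : 2 < (Set.univ : Set τ).ncard := by
    rw [Set.ncard_univ]; omega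
  obtain ⟨x, y, z, -, -, -, h3, h4, h5⟩ := (Set.two_lt_ncard_iff (Set.toFinite _)).1 h2
  have key : ∀ u v, u ≠ r → v ≠ r → u = v := by
    intro u v hu hv
    obtain ⟨b, hb, hub⟩ := branch_cover hT r u hu
    obtain ⟨c, hc, hvc⟩ := branch_cover hT r v hv
    obtain rfl := h1 b hb u hub
    obtain rfl := h1 c hc v hvc
    have leaf : ∀ b, T.Adj b r → ∀ w, T.Adj b w → w = r := by
      intro b hb w hw
      rcases hf_closed hT.2 hb (self_mem_hf _ _) hw with h | ⟨_, h⟩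
      · have := h1 b hb w h
        subst this
        exact absurd hw (T.loopless.irrefl _)
      · exact h
    exact Blk.leaf_eq htw hb.symm hc.symm (leaf u hb) (leaf v hc)
  by_cases hx : x = r
  · exact h5 (key y z (fun h => h3 (hx.trans h.symm)) (fun h => h4 (hx.trans h.symm)))
  · by_cases hy : y = r
    · exact h4 (key x z hx (fun h => h5 (hy.trans h.symm)))
    · exact h3 (key x y hx hy)

variable {P R Rt : Set τ}

/-- A hub different from the centre. -/
theorem hub_ne_center (hb : Blk T P R Rt) (hT : T.IsTree) (htw : TwinFree T) {r : τ}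
    (hr : ∀ b, T.Adj b r → (hf T b r).ncard ≤ 4) {h : τ}
    (hh : Hub T P R Rt h) (hhr : h ≠ r) :
    (∀ z, Blk.Iso T P R Rt z → ¬ T.Adj z h) ∧ ∃ b, T.Adj b r ∧ 4 ≤ (hf T b r).ncard := by
  obtain ⟨b, hbr, hhb⟩ := branch_cover hT r h hhr
  obtain ⟨x1, x2, x3, m1, m2, m3, a1, a2, a3, d12, d13, d23⟩ := hb.exists_three hh
  have mem : ∀ x, T.Adj h x → x ∈ hf T b r ∨ (h = b ∧ x = r) :=
    fun x hx => hf_closed hT.2 hbr hhb hx
  -- at most one of the three is bad
  have bad : ∀ x x', T.Adj h x → T.Adj h x' → (x ∉ hf T b r ∨ x = b) → (x' ∉ hf T b r ∨ x' = b) →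
      x = x' := by
    intro x x' hx hx' h1 h2
    rcases h1 with h1 | h1 <;> rcases h2 with h2 | h2
    · rcases mem x hx with h' | h'
      · exact absurd h' h1
      rcases mem x' hx' with h'' | h''
      · exact absurd h'' h2
      exact h'.2.trans h''.2.symm
    · rcases mem x hx with h' | h'
      · exact absurd h' h1
      exfalso
      rw [h2, ← h'.1] at hx'
      exact T.loopless.irrefl _ hx'
    · rcases mem x' hx' with h' | h'
      · exact absurd h' h2
      exfalso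
      rw [h1, ← h'.1] at hx
      exact T.loopless.irrefl _ hx
    · exact h1.trans h2.symm
  -- the main claim, given two good neighbours
  have main : ∀ u v x, u ∈ P → v ∈ P → x ∈ P → T.Adj h u → T.Adj h v → T.Adj h x → u ≠ v → u ≠ x →
      v ≠ x → u ∈ hf T b r → v ∈ hf T b r → u ≠ b → v ≠ b → (∃ c, T.Adj u c ∧ ¬ T.Adj v c) →
      (∀ z, Blk.Iso T P R Rt z → ¬ T.Adj z h) ∧ ∃ b, T.Adj b r ∧ 4 ≤ (hf T b r).ncard := by
    rintro u v x mu mv mx hu hv hx duv dux dvx hub hvb hu1 hv1 ⟨c, huc, hvc⟩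
    have hcb : c ∈ hf T b r := by
      rcases hf_closed hT.2 hbr hub huc with h' | ⟨h', _⟩
      · exact h'
      · exact absurd h' hu1
    have hcP : c ∉ P := fun h' => hb.indP u mu c h' huc
    have hch : c ≠ h := by
      rintro rfl
      exact hvc hv.symm
    have hnd : [h, u, v, c].Nodup := by
      simp only [List.nodup_cons, List.mem_cons, List.not_mem_nil, or_false, not_or,
        not_false_eq_true, List.nodup_nil, and_true]
      refine ⟨⟨?_, ?_, hch.symm⟩, ⟨duv, ?_⟩, ?_⟩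
      · rintro rfl; exact hh.1.1 mu
      · rintro rfl; exact hh.1.1 mv
      · rintro rfl; exact hcP mu
      · rintro rfl; exact hcP mv
    have hsub : ∀ w ∈ [h, u, v, c], w ∈ hf T b r := by
      intro w hw
      simp only [List.mem_cons, List.not_mem_nil, or_false] at hw
      rcases hw with rfl | rfl | rfl | rfl
      · exact hhb
      · exact hub
      · exact hvb
      · exact hcb
    have h4 := Blk.length_le_ncard _ hnd hsub
    have hall : ∀ w ∈ hf T b r, w = h ∨ w = u ∨ w = v ∨ w = c := by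
      intro w hw
      by_contra hcon
      push Not at hcon
      have h5 := Blk.length_le_ncard (w :: [h, u, v, c]) (by
        rw [List.nodup_cons]
        refine ⟨?_, hnd⟩
        simp only [List.mem_cons, List.not_mem_nil, or_false, not_or]
        exact hcon) (s := hf T b r) (by
        intro w' hw'
        rw [List.mem_cons] at hw'
        rcases hw' with rfl | hw'
        · exact hw
        · exact hsub _ hw')
      have h6 := hr b hbr
      simp only [List.length_cons, List.length_nil] at h5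
      omega
    refine ⟨?_, b, hbr, by simpa using h4⟩
    intro z hz hzh
    rcases mem z hzh.symm with h' | ⟨h', h''⟩
    · rcases hall z h' with rfl | rfl | rfl | rfl
      · exact T.loopless.irrefl _ hzh
      · exact hz.1.1 mu
      · exact hz.1.1 mv
      · exact no_C3 hT.2 hu huc hzh.symm
    · subst h''
      rcases mem x hx with e | ⟨_, e⟩
      · rcases hall x e with rfl | rfl | rfl | rfl
        · exact T.loopless.irrefl _ hx
        · exact dux rfl
        · exact dvx rfl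
        · exact hcP mx
      · subst e
        exact hz.1.1 mx
  have main2 : ∀ u v x, u ∈ P → v ∈ P → x ∈ P → T.Adj h u → T.Adj h v → T.Adj h x → u ≠ v → u ≠ x →
      v ≠ x → ¬ (u ∉ hf T b r ∨ u = b) → ¬ (v ∉ hf T b r ∨ v = b) →
      (∀ z, Blk.Iso T P R Rt z → ¬ T.Adj z h) ∧ ∃ b, T.Adj b r ∧ 4 ≤ (hf T b r).ncard := by
    intro u v x mu mv mx hu hv hx duv dux dvx hu1 hv1
    rw [not_or, not_not] at hu1 hv1
    by_cases e1 : ∃ c, T.Adj u c ∧ ¬ T.Adj v c
    · exact main u v x mu mv mx hu hv hx duv dux dvx hu1.1 hv1.1 hu1.2 hv1.2 e1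
    by_cases e2 : ∃ c, T.Adj v c ∧ ¬ T.Adj u c
    · exact main v u x mv mu mx hv hu hx duv.symm dvx dux hv1.1 hu1.1 hv1.2 hu1.2 e2
    exfalso
    push Not at e1 e2
    exact duv (htw u v (fun z => ⟨e1 z, e2 z⟩))
  by_cases g1 : x1 ∉ hf T b r ∨ x1 = b
  · refine main2 x2 x3 x1 m2 m3 m1 a2 a3 a1 d23 d12.symm d13.symm ?_ ?_
    · intro g2; exact d12 (bad _ _ a1 a2 g1 g2)
    · intro g2; exact d13 (bad _ _ a1 a3 g1 g2)
  · by_cases g2 : x2 ∉ hf T b r ∨ x2 = b
    · refine main2 x1 x3 x2 m1 m3 m2 a1 a3 a2 d13 d12 d23.symm g1 ?_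
      intro g3; exact d23 (bad _ _ a2 a3 g2 g3)
    · exact main2 x1 x2 x3 m1 m2 m3 a1 a2 a3 d12 d13 d23 g1 g2

/-- A deep odd vertex. -/
def Deep (T : SimpleGraph τ) (col : τ → Bool) (r v : τ) : Prop := col v ≠ col r ∧ ¬ T.Adj v r

theorem deep_nbr (hT : T.IsTree) {col : τ → Bool} (hcol : ∀ x y, T.Adj x y → col x ≠ col y)
    {r b v : τ} (hb : T.Adj b r) (hv : v ∈ hf T b r) (hd : Deep T col r v) :
    ∃ c ∈ hf T b r, T.Adj v c ∧ c ≠ b ∧ c ≠ v ∧ v ≠ b := by
  have hvb : v ≠ b := by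
    rintro rfl; exact hd.2 hb
  obtain ⟨c, hc, -⟩ := branch_cover hT v b hvb.symm
  have hcb : c ∈ hf T b r := by
    rcases hf_closed hT.2 hb hv hc.symm with h | ⟨h, _⟩
    · exact h
    · exact absurd h hvb
  refine ⟨c, hcb, hc.symm, ?_, hc.ne, hvb⟩
  rintro rfl
  have h1 := hcol _ _ hb
  have h2 := hcol _ _ hc
  have h3 := hd.1
  revert h1 h2 h3
  generalize col c = p1
  generalize col r = p2
  generalize col v = p3
  revert p1 p2 p3
  decide

theorem deep_three (hT : T.IsTree) {col : τ → Bool} (hcol : ∀ x y, T.Adj x y → col x ≠ col y)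
    {r b v : τ} (hb : T.Adj b r) (hv : v ∈ hf T b r) (hd : Deep T col r v) :
    3 ≤ (hf T b r).ncard := by
  obtain ⟨c, hc, h1, h2, h3, h4⟩ := deep_nbr hT hcol hb hv hd
  refine Blk.length_le_ncard [b, c, v] ?_ ?_
  · simp only [List.nodup_cons, List.mem_cons, List.not_mem_nil, or_false, not_or,
      not_false_eq_true, List.nodup_nil, and_true]
    exact ⟨⟨h2.symm, h4.symm⟩, h3⟩
  · intro w hw
    simp only [List.mem_cons, List.not_mem_nil, or_false] at hw
    rcases hw with rfl | rfl | rfl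
    · exact self_mem_hf _ _
    · exact hc
    · exact hv

theorem deep_unique (hT : T.IsTree) (htw : TwinFree T) {col : τ → Bool}
    (hcol : ∀ x y, T.Adj x y → col x ≠ col y) {r b v v' : τ} (hb : T.Adj b r)
    (h4 : (hf T b r).ncard ≤ 4) (hv : v ∈ hf T b r) (hd : Deep T col r v)
    (hv' : v' ∈ hf T b r) (hd' : Deep T col r v') : v = v' := by
  by_contra hne
  obtain ⟨c, hc, h1, h2, h3, h5⟩ := deep_nbr hT hcol hb hv hd
  obtain ⟨c', hc', h1', h2', h3', h5'⟩ := deep_nbr hT hcol hb hv' hd'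
  have hcv' : c ≠ v' := by
    rintro rfl
    have e1 := hcol _ _ h1
    have e2 := hd.1
    have e3 := hd'.1
    revert e1 e2 e3
    generalize col c = p1
    generalize col r = p2
    generalize col v = p3
    revert p1 p2 p3
    decide
  have hnd : [b, c, v, v'].Nodup := by
    simp only [List.nodup_cons, List.mem_cons, List.not_mem_nil, or_false, not_or,
      not_false_eq_true, List.nodup_nil, and_true]
    exact ⟨⟨h2.symm, h5.symm, h5'.symm⟩, ⟨h3, hcv'⟩, hne⟩
  have hsub : ∀ w ∈ [b, c, v, v'], w ∈ hf T b r := by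
    intro w hw
    simp only [List.mem_cons, List.not_mem_nil, or_false] at hw
    rcases hw with rfl | rfl | rfl | rfl
    · exact self_mem_hf _ _
    · exact hc
    · exact hv
    · exact hv'
  have hall : ∀ w ∈ hf T b r, w = b ∨ w = c ∨ w = v ∨ w = v' := by
    intro w hw
    by_contra hcon
    push Not at hcon
    have h5 := Blk.length_le_ncard (w :: [b, c, v, v']) (by
      rw [List.nodup_cons]
      refine ⟨?_, hnd⟩
      simp only [List.mem_cons, List.not_mem_nil, or_false, not_or]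
      exact hcon) (s := hf T b r) (by
      intro w' hw'
      rw [List.mem_cons] at hw'
      rcases hw' with rfl | hw'
      · exact hw
      · exact hsub _ hw')
    simp only [List.length_cons, List.length_nil] at h5
    omega
  have hone : ∀ u, u ∈ hf T b r → Deep T col r u → ∀ w, T.Adj u w → w = c := by
    intro u hu hdu w hw
    have hub : u ≠ b := by
      rintro rfl; exact hdu.2 hb
    have hwb : w ∈ hf T b r := by
      rcases hf_closed hT.2 hb hu hw with h | ⟨h, _⟩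
      · exact h
      · exact absurd h hub
    have e1 := hcol _ _ hw
    have e2 := hdu.1
    rcases hall w hwb with rfl | rfl | rfl | rfl
    · exfalso
      have e3 := hcol _ _ hb
      revert e1 e2 e3
      generalize col w = p1
      generalize col r = p2
      generalize col u = p3
      revert p1 p2 p3
      decide
    · rfl
    · exfalso
      have e3 := hd.1
      revert e1 e2 e3
      generalize col w = p1
      generalize col r = p2
      generalize col u = p3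
      revert p1 p2 p3
      decide
    · exfalso
      have e3 := hd'.1
      revert e1 e2 e3
      generalize col w = p1
      generalize col r = p2
      generalize col u = p3
      revert p1 p2 p3
      decide
  have hc'c := hone v' hv' hd' c' h1'
  subst hc'c
  exact hne (Blk.leaf_eq htw h1.symm h1'.symm (hone v hv hd) (hone v' hv' hd'))

/-- The hub is the centre. -/
theorem hub_center (hb : Blk T P R Rt) (hT : T.IsTree) (htw : TwinFree T) {r : τ}
    (hn : 11 ≤ Nat.card τ)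
    (hr : ∀ b, T.Adj b r → (hf T b r).ncard ≤ 4) {b1 : τ} (hb1 : T.Adj b1 r)
    (hmax : ∀ b, T.Adj b r → (hf T b r).ncard ≤ (hf T b1 r).ncard)
    {col : τ → Bool} (hcol : ∀ x y, T.Adj x y → col x ≠ col y)
    (hh : Hub T P R Rt r) (hno : ∀ g, ¬ Hub T R P Rt g) {ψ : τ → τ}
    (hinj : ∀ x y, (x ∈ P ∨ x ∈ R ∨ x ∈ Rt) → (y ∈ P ∨ y ∈ R ∨ y ∈ Rt) → ψ x = ψ y → x = y)
    (hmap : ∀ x, (x ∈ P ∨ x ∈ R ∨ x ∈ Rt) → ψ x ∈ hf T r b1)
    (hadj : ∀ x y, (x ∈ P ∨ x ∈ R ∨ x ∈ Rt) → (y ∈ P ∨ y ∈ R ∨ y ∈ Rt) →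
      (T.Adj (ψ x) (ψ y) ↔ T.Adj x y))
    {ρ : τ} (hρ : ρ ∈ Rt) (hψρ : ψ ρ = r)
    (htyp : (∀ x ∈ P, col (ψ x) ≠ col r) ∨ (∀ x ∈ R, col (ψ x) ≠ col r)) : False := by
  have hρr : ρ ≠ r := by
    rintro rfl; exact hh.1.2.2 hρ
  obtain ⟨bρ, hbρ, hρb⟩ := branch_cover hT r ρ hρr
  have hρn : ∀ b, T.Adj b r → b ≠ bρ → ρ ∉ hf T b r :=
    fun b hb' hne h => hne (branch_disjoint hT.2 hb' hbρ h hρb)
  have hrn : ∀ b, T.Adj b r → r ∉ hf T b r := fun b hb' => not_mem_hf hT.2 hb'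
  have nadjρ : ∀ b, T.Adj b r → b ≠ bρ → ∀ v ∈ hf T b r, ¬ T.Adj v ρ := by
    intro b hb' hne v hv h
    rcases hf_closed hT.2 hb' hv h with h' | ⟨_, h'⟩
    · exact hρn b hb' hne h'
    · exact hρr h'
  -- (5a)
  have c5a : ∀ b, T.Adj b r → b ≠ bρ → (∃ v ∈ hf T b r, v ∉ P ∧ v ∉ R) →
      ∀ w ∈ hf T b r, w = b := by
    rintro b hb' hne ⟨v, hv, hvP, hvR⟩
    have hvRt : v ∉ Rt := by
      intro h
      rw [hb.one _ h _ hρ] at hv
      exact hρn b hb' hne hv
    have hvr : v ≠ r := by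
      rintro rfl; exact hrn b hb' hv
    have hiso : Blk.Iso T P R Rt v := by
      refine ⟨⟨hvP, hvR, hvRt⟩, ?_, ?_⟩
      · intro x hx hvx
        exact hvr (hb.hub_unique hT.2 ⟨⟨hvP, hvR, hvRt⟩, x, hx, hvx⟩ hh)
      · intro x hx hvx
        exact hno v ⟨⟨hvR, hvP, hvRt⟩, x, hx, hvx⟩
    have hnb : ∀ w, T.Adj v w → w = r := by
      intro w hw
      rcases hb.nbr_iso hiso hw with h | h | h
      · rw [hb.one _ h _ hρ] at hw
        exact absurd hw (nadjρ b hb' hne v hv)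
      · exact hb.hub_unique hT.2 h hh
      · exact absurd h (hno w)
    have hvb : v = b := by
      by_contra hvb
      obtain ⟨c, hc, -⟩ := branch_cover hT v b (Ne.symm hvb)
      obtain rfl := hnb c hc.symm
      exact hvb (adj_far_end hT.2 hb' hv hc.symm)
    subst hvb
    intro w hw
    refine hf_induction (p := fun w => w = v) rfl ?_ hw
    rintro u w' _ rfl huw hw'
    rw [hnb w' huw] at hw'
    exact absurd hw' (hrn _ hb')
  -- (5b)
  have c5b : ∀ b, T.Adj b r → b ≠ bρ → (∃ v ∈ hf T b r, v ≠ b) →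
      (∀ v ∈ hf T b r, v ∈ P ∨ v ∈ R) ∧ b ∈ P ∧ ∃ c ∈ hf T b r, T.Adj b c ∧ c ∈ R := by
    rintro b hb' hne ⟨v, hv, hvb⟩
    have hPR : ∀ v ∈ hf T b r, v ∈ P ∨ v ∈ R := by
      intro w hw
      by_contra hcon
      rw [not_or] at hcon
      exact hvb (c5a b hb' hne ⟨w, hw, hcon⟩ v hv)
    have hbP : b ∈ P := by
      rcases hPR b (self_mem_hf _ _) with h | h
      · exact h
      · exact absurd ⟨⟨hh.1.2.1, hh.1.1, hh.1.2.2⟩, b, h, hb'.symm⟩ (hno r)
    refine ⟨hPR, hbP, ?_⟩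
    by_contra hcon
    push Not at hcon
    apply hvb
    refine hf_induction (p := fun w => w = b) rfl ?_ hv
    rintro u w' _ rfl huw hw'
    exfalso
    rcases hPR w' hw' with h | h
    · exact hb.indP _ hbP _ h huw
    · exact hcon w' hw' huw h
  -- leaf branches
  have c5c : ∀ b b', T.Adj b r → T.Adj b' r → (∀ w ∈ hf T b r, w = b) →
      (∀ w ∈ hf T b' r, w = b') → b = b' := by
    have leaf : ∀ b, T.Adj b r → (∀ w ∈ hf T b r, w = b) → ∀ w, T.Adj b w → w = r := by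
      intro b hb' h w hw
      rcases hf_closed hT.2 hb' (self_mem_hf _ _) hw with h' | ⟨_, h'⟩
      · rw [h w h'] at hw
        exact absurd hw (T.loopless.irrefl _)
      · exact h'
    intro b b' h1 h2 h3 h4
    exact Blk.leaf_eq htw h1.symm h2.symm (leaf b h1 h3) (leaf b' h2 h4)
  -- (5d)
  have c5d : ∀ b, T.Adj b r → b ≠ bρ → (∃ v ∈ hf T b r, v ≠ b) →
      ∃ w ∈ hf T b r, (w ∈ P ∨ w ∈ R) ∧ Deep T col r (ψ w) := by
    intro b hb' hne hbig
    obtain ⟨hPR, hbP, c, hc, hbc, hcR⟩ := c5b b hb' hne hbig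
    have hna : ∀ w ∈ hf T b r, (w ∈ P ∨ w ∈ R) → ¬ T.Adj (ψ w) r := by
      intro w hw hwPR h
      rw [← hψρ, hadj w ρ (by tauto) (by tauto)] at h
      exact nadjρ b hb' hne w hw h
    rcases htyp with h | h
    · exact ⟨b, self_mem_hf _ _, Or.inl hbP, h b hbP, hna b (self_mem_hf _ _) (Or.inl hbP)⟩
    · exact ⟨c, hc, Or.inr hcR, h c hcR, hna c hc (Or.inr hcR)⟩
  -- (5f)
  have c5f : ∀ b, T.Adj b r → b ≠ bρ → 3 ≤ (hf T b r).ncard →
      ∃ x ∈ hf T b r, x ∈ P ∧ ¬ T.Adj r x := by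
    intro b hb' hne h3
    obtain ⟨u1, u2, u3, hu1, hu2, hu3, d12, d13, d23⟩ :=
      (Set.two_lt_ncard_iff (Set.toFinite _)).1 h3
    have hbig : ∃ v ∈ hf T b r, v ≠ b := by
      by_cases h : u1 = b
      · exact ⟨u2, hu2, fun h' => d12 (h.trans h'.symm)⟩
      · exact ⟨u1, hu1, h⟩
    obtain ⟨hPR, hbP, c, hc, hbc, hcR⟩ := c5b b hb' hne hbig
    have far : ∀ x ∈ hf T b r, x ∈ P → x ≠ b → ∃ x ∈ hf T b r, x ∈ P ∧ ¬ T.Adj r x :=
      fun x hx hxP hxb => ⟨x, hx, hxP, fun h => hxb (adj_far_end hT.2 hb' hx h.symm)⟩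
    -- two different elements of `R` in the branch
    have two : ∀ d ∈ hf T b r, d ≠ b → d ≠ c → ∃ x ∈ hf T b r, x ∈ P ∧ ¬ T.Adj r x := by
      intro d hd hdb hdc
      rcases hPR d hd with hdP | hdR
      · exact far d hd hdP hdb
      by_contra hcon
      have hcb : c ≠ b := hbc.ne'
      have leaf : ∀ e ∈ hf T b r, e ≠ b → e ∈ R → ∀ w, T.Adj e w → w = b := by
        intro e he heb heR w hw
        by_contra hwb
        have hwm : w ∈ hf T b r := by
          rcases hf_closed hT.2 hb' he hw with h | ⟨h, _⟩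
          · exact h
          · exact absurd h heb
        rcases hPR w hwm with h | h
        · exact hcon (far w hwm h hwb)
        · exact hb.indR _ heR _ h hw
      have hdadj : T.Adj b d := by
        obtain ⟨w, hw, -⟩ := branch_cover hT d b hdb.symm
        rw [leaf d hd hdb hdR w hw.symm] at hw
        exact hw
      exact hdc (Blk.leaf_eq htw hdadj hbc (leaf d hd hdb hdR) (leaf c hc hcb hcR))
    by_cases e1 : u1 = b
    · by_cases e2 : u2 = c
      · refine two u3 hu3 ?_ ?_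
        · rintro rfl; exact d13 e1
        · rintro rfl; exact d23 e2
      · refine two u2 hu2 ?_ e2
        rintro rfl; exact d12 e1
    · by_cases e1' : u1 = c
      · by_cases e2 : u2 = b
        · refine two u3 hu3 ?_ ?_
          · rintro rfl; exact d23 e2
          · rintro rfl; exact d13 e1'
        · refine two u2 hu2 e2 ?_
          rintro rfl; exact d12 e1'
      · exact two u1 hu1 e1 e1'
  have c5f' : ∀ b b', T.Adj b r → T.Adj b' r → b ≠ bρ → b' ≠ bρ → 3 ≤ (hf T b r).ncard →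
      3 ≤ (hf T b' r).ncard → b = b' := by
    intro b b' h1 h2 h3 h4 h5 h6
    obtain ⟨x, hx, hxP, hrx⟩ := c5f b h1 h3 h5
    obtain ⟨x', hx', hxP', hrx'⟩ := c5f b' h2 h4 h6
    have e := hb.nP r hh.1.1 hh.1.2.1 hh.1.2.2 hh.2 x hxP x' hxP' hrx hrx'
    subst e
    exact branch_disjoint hT.2 h1 h2 hx hx'
  -- (5g)
  have c5g : ∀ b b', T.Adj b r → T.Adj b' r → b ≠ bρ → b' ≠ bρ → (∃ v ∈ hf T b r, v ≠ b) →
      (∃ v ∈ hf T b' r, v ≠ b') → b = b' := by
    intro b b' h1 h2 h3 h4 h5 h6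
    by_contra hne
    obtain ⟨w, hw, hwPR, hdw⟩ := c5d b h1 h3 h5
    obtain ⟨w', hw', hwPR', hdw'⟩ := c5d b' h2 h4 h6
    have hww : ψ w ≠ ψ w' := by
      intro h
      have := hinj w w' (by tauto) (by tauto) h
      subst this
      exact hne (branch_disjoint hT.2 h1 h2 hw hw')
    have hm := hmap w (by tauto)
    have hm' := hmap w' (by tauto)
    have hne1 : ψ w ≠ r := fun h => hdw.1 (by rw [h])
    have hne1' : ψ w' ≠ r := fun h => hdw'.1 (by rw [h])
    obtain ⟨c, hc, hcw⟩ := branch_cover hT r _ hne1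
    obtain ⟨c', hc', hcw'⟩ := branch_cover hT r _ hne1'
    have hcb1 : c ≠ b1 := by
      rintro rfl; exact hf_disjoint hT.2 hc hcw hm
    have hcb1' : c' ≠ b1 := by
      rintro rfl; exact hf_disjoint hT.2 hc' hcw' hm'
    have s1 := deep_three hT hcol hc hcw hdw
    have s2 := deep_three hT hcol hc' hcw' hdw'
    have s3 : 3 ≤ (hf T b1 r).ncard := s1.trans (hmax c hc)
    have hcc : c ≠ c' := by
      rintro rfl
      exact hww (deep_unique hT htw hcol hc (hr c hc) hcw hdw hcw' hdw')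
    by_cases e1 : c = bρ
    · exact hcb1' (c5f' c' b1 hc' hb1 (fun h => hcc (e1.trans h.symm))
        (fun h => hcb1 (e1.trans h.symm)) s2 s3)
    · by_cases e2 : b1 = bρ
      · exact hcc (c5f' c c' hc hc' e1 (fun h => hcb1' (h.trans e2.symm)) s1 s2)
      · exact hcb1 (c5f' c b1 hc hb1 e1 e2 s1 s3)
  -- count
  let U1 : Set τ := {v | ∃ b, T.Adj b r ∧ b ≠ bρ ∧ v ∈ hf T b r ∧ ∀ w ∈ hf T b r, w = b}
  let U2 : Set τ := {v | ∃ b, T.Adj b r ∧ b ≠ bρ ∧ v ∈ hf T b r ∧ ∃ w ∈ hf T b r, w ≠ b}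
  have k1 : U1.ncard ≤ 1 := by
    rw [Set.ncard_le_one_iff]
    rintro v v' ⟨b, hb', -, hv, hl⟩ ⟨b', hb'', -, hv', hl'⟩
    rw [hl v hv, hl' v' hv']
    exact c5c b b' hb' hb'' hl hl'
  have k2 : U2.ncard ≤ 4 := by
    by_cases he : U2.Nonempty
    · obtain ⟨v, b, hb', hne, hv, hbig⟩ := he
      refine le_trans (Set.ncard_le_ncard ?_ (Set.toFinite _)) (hr b hb')
      rintro v' ⟨b', hb'', hne', hv', hbig'⟩
      rw [c5g b b' hb' hb'' hne hne' hbig hbig']
      exact hv'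
    · rw [Set.not_nonempty_iff_eq_empty] at he
      rw [he, Set.ncard_empty]
      omega
  have k3 : (Set.univ : Set τ) ⊆ (({r} ∪ hf T bρ r) ∪ U1) ∪ U2 := by
    intro v _
    by_cases hv : v = r
    · exact Or.inl (Or.inl (Or.inl hv))
    obtain ⟨b, hb', hvb⟩ := branch_cover hT r v hv
    by_cases hne : b = bρ
    · subst hne
      exact Or.inl (Or.inl (Or.inr hvb))
    by_cases hbig : ∃ w ∈ hf T b r, w ≠ b
    · exact Or.inr ⟨b, hb', hne, hvb, hbig⟩
    · push Not at hbig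
      exact Or.inl (Or.inr ⟨b, hb', hne, hvb, hbig⟩)
  have k4 := Set.ncard_le_ncard k3 (Set.toFinite _)
  have k5 := Set.ncard_union_le (({r} ∪ hf T bρ r) ∪ U1) U2
  have k6 := Set.ncard_union_le ({r} ∪ hf T bρ r) U1
  have k7 := Set.ncard_union_le {r} (hf T bρ r)
  rw [Set.ncard_univ] at k4
  rw [Set.ncard_singleton] at k7
  have k8 := hr bρ hbρ
  omega

/-- The half complementary to a maximal branch is fine. -/
theorem case2 (hT : T.IsTree) (htw : TwinFree T) {r : τ} (hn : 11 ≤ Nat.card τ)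
    (hr : ∀ b, T.Adj b r → (hf T b r).ncard ≤ 4) {b1 : τ} (hb1 : T.Adj b1 r)
    (hmax : ∀ b, T.Adj b r → (hf T b r).ncard ≤ (hf T b1 r).ncard)
    (hno : ∀ a b, T.Adj a b → (hf T a b).ncard ≤ 4 ∨ (hf T b a).ncard ≤ 4)
    {col : τ → Bool} (hcol : ∀ x y, T.Adj x y → col x ≠ col y)
    (hbad : BadEdge T col r b1) : False := by
  obtain ⟨P, R, Rt, ψ, hb, hinj, hmap, hadj, hψ, hψP, hψR, htyp⟩ := hbad
  have hout := outside_ge hT hb1.symm hinj hmap
  have hm2 := two_le_max hT htw (by omega) hmax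
  have main : ∀ P R : Set τ, Blk T P R Rt →
      (∀ x y, (x ∈ P ∨ x ∈ R ∨ x ∈ Rt) → (y ∈ P ∨ y ∈ R ∨ y ∈ Rt) → ψ x = ψ y → x = y) →
      (∀ x, (x ∈ P ∨ x ∈ R ∨ x ∈ Rt) → ψ x ∈ hf T r b1) →
      (∀ x y, (x ∈ P ∨ x ∈ R ∨ x ∈ Rt) → (y ∈ P ∨ y ∈ R ∨ y ∈ Rt) →
        (T.Adj (ψ x) (ψ y) ↔ T.Adj x y)) → (∀ x ∈ P, ψ x ≠ r) → (∀ x ∈ R, ψ x ≠ r) →
      ((∀ x ∈ P, col (ψ x) ≠ col r) ∨ (∀ x ∈ R, col (ψ x) ≠ col r)) →
      (∀ g, ¬ Hub T R P Rt g) → False := by
    intro P R hb hinj hmap hadj hψP hψR htyp hg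
    have hout := outside_ge hT hb1.symm hinj hmap
    by_cases hh : ∃ h, Hub T P R Rt h
    · obtain ⟨h, hh⟩ := hh
      by_cases hRt : Rt = ∅
      · have h1 := outside_gt hT hb1.symm hinj hmap hψP hψR hRt
        have h2 := hb.one_hub_empty hT htw hg hRt
        omega
      by_cases hhr : h = r
      · subst hhr
        obtain ⟨ρ, hρ⟩ := Set.nonempty_iff_ne_empty.2 hRt
        exact hub_center hb hT htw hn hr hb1 hmax hcol hh hg hinj hmap hadj hρ (hψ ρ hρ) htyp
      · obtain ⟨h1, b, hb', h4⟩ := hub_ne_center hb hT htw hr hh hhr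
        have h2 := hb.one_hub_far hT htw hg hh h1
        have h3 := hmax b hb'
        omega
    · push Not at hh
      have := hb.no_hub hT htw hh hg
      omega
  by_cases h1 : ∃ h, Hub T P R Rt h
  · by_cases h2 : ∃ g, Hub T R P Rt g
    · obtain ⟨h, hh⟩ := h1
      obtain ⟨g, hg⟩ := h2
      obtain ⟨a, b, hab, h3, h4⟩ := hb.two_hub_edge hT htw hh hg
      rcases hno a b hab with h5 | h5 <;> omega
    · push Not at h2
      exact main P R hb hinj hmap hadj hψP hψR htyp h2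
  · push Not at h1
    refine main R P hb.swap ?_ ?_ ?_ hψR hψP htyp.symm h1
    · intro x y hx hy h
      exact hinj x y (by tauto) (by tauto) h
    · intro x hx
      exact hmap x (by tauto)
    · intro x y hx hy
      exact hadj x y (by tauto) (by tauto)

/-- Every twin-free tree with at least 11 vertices has an edge both of whose halves are fine. -/
theorem exists_good_edge (hT : T.IsTree) (htw : TwinFree T) (hn : 11 ≤ Nat.card τ)
    {col : τ → Bool} (hcol : ∀ x y, T.Adj x y → col x ≠ col y) :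
    ∃ a b, T.Adj a b ∧ ¬ BadEdge T col a b ∧ ¬ BadEdge T col b a := by
  by_cases hex : ∃ a b, T.Adj a b ∧ 5 ≤ (hf T a b).ncard ∧ 5 ≤ (hf T b a).ncard
  · obtain ⟨a, b, hab, h1, h2⟩ := hex
    have key : ∀ a b, T.Adj a b → 5 ≤ (hf T b a).ncard → ¬ BadEdge T col a b := by
      rintro a b hab h ⟨P, R, Rt, ψ, hb, hinj, hmap, -⟩
      have h1 := outside_ge hT hab hinj hmap
      have h2 := hb.outside_le hT htw
      omega
    exact ⟨a, b, hab, key a b hab h2, key b a hab.symm h1⟩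
  · have hno : ∀ a b, T.Adj a b → (hf T a b).ncard ≤ 4 ∨ (hf T b a).ncard ≤ 4 := by
      intro a b hab
      by_contra hcon
      rw [not_or] at hcon
      exact hex ⟨a, b, hab, by omega, by omega⟩
    obtain ⟨r, hr⟩ := exists_center hT (by omega) hno
    have hne : {b | T.Adj b r}.Nonempty := by
      have h1 : 1 < (Set.univ : Set τ).ncard := by
        rw [Set.ncard_univ]; omega
      obtain ⟨x, y, -, -, hxy⟩ := (Set.one_lt_ncard_iff (Set.toFinite _)).1 h1
      by_cases hx : x = r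
      · obtain ⟨b, hb, -⟩ := branch_cover hT r y (fun h => hxy (hx.trans h.symm))
        exact ⟨b, hb⟩
      · obtain ⟨b, hb, -⟩ := branch_cover hT r x hx
        exact ⟨b, hb⟩
    obtain ⟨b1, hb1, hmax⟩ := Set.exists_max_image {b | T.Adj b r} (fun b => (hf T b r).ncard)
      (Set.toFinite _) hne
    refine ⟨r, b1, (hb1 : T.Adj b1 r).symm, ?_, ?_⟩
    · exact case2 hT htw (by omega) hr hb1 (fun b hb => hmax b hb) hno hcol
    · rintro ⟨P, R, Rt, ψ, hb, hinj, hmap, -⟩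
      have h1 := outside_ge hT hb1 hinj hmap
      have h2 : {z | z ∉ P ∧ z ∉ R ∧ z ∉ Rt} = {x | x ∈ P ∨ x ∈ R ∨ x ∈ Rt}ᶜ := by
        ext z
        simp only [Set.mem_ofPred_eq, Set.mem_compl_iff, not_or]
      have h3 := Set.ncard_add_ncard_compl {x | x ∈ P ∨ x ∈ R ∨ x ∈ Rt}
      have h4 : P.ncard ≤ {x | x ∈ P ∨ x ∈ R ∨ x ∈ Rt}.ncard :=
        Set.ncard_le_ncard (fun x hx => Or.inl hx) (Set.toFinite _)
      have h5 : (P ∪ R).ncard ≤ {x | x ∈ P ∨ x ∈ R ∨ x ∈ Rt}.ncard := by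
        apply Set.ncard_le_ncard _ (Set.toFinite _)
        rintro x (hx | hx)
        · exact Or.inl hx
        · exact Or.inr (Or.inl hx)
      have h6 : (P ∪ R).ncard = P.ncard + R.ncard := by
        apply Set.ncard_union_eq _ (Set.toFinite _) (Set.toFinite _)
        rw [Set.disjoint_left]
        exact hb.dPR
      have h7 := hr b1 hb1
      have h8 := hf_ncard_add hT (hb1 : T.Adj b1 r)
      have h9 := hb.cP
      have h10 := hb.cR
      rw [h2] at h1
      omega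

end

end Pool.Agent.SA36
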