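import Mathlib
import Pool.Agent.SA33.Blow

set_option autoImplicit false

/-! Elementary facts on trees: short cycles, two-colouring, halves of a tree at an edge. -/

namespace Pool.Agent.SA36

open SimpleGraph

variable {τ : Type*} {T : SimpleGraph τ}

/-- No 4-cycle. -/
theorem no_C4 (hT : T.IsAcyclic) {a b c d : τ} (hab : T.Adj a b) (hbc : T.Adj b c)
    (had : T.Adj a d) (hdc : T.Adj d c) (hac : a ≠ c) : b = d := by
  have h1 : (Walk.cons hab (Walk.cons hbc Walk.nil) : T.Walk a c).IsPath := by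
    simp [Walk.cons_isPath_iff, hac, hab.ne, hbc.ne]
  have h2 : (Walk.cons had (Walk.cons hdc Walk.nil) : T.Walk a c).IsPath := by
    simp [Walk.cons_isPath_iff, hac, had.ne, hdc.ne]
  have h3 := (hT.subsingleton_path _ _).elim ⟨_, h1⟩ ⟨_, h2⟩
  have h4 := congrArg (fun p : T.Path a c => p.1.support) h3
  simpa using h4

/-- Uniqueness of paths of length three. -/
theorem path3_unique (hT : T.IsAcyclic) {a x y b x' y' : τ} (h1 : T.Adj a x) (h2 : T.Adj x y)
    (h3 : T.Adj y b) (h1' : T.Adj a x') (h2' : T.Adj x' y') (h3' : T.Adj y' b)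
    (hab : a ≠ b) (hay : a ≠ y) (hxb : x ≠ b) (hay' : a ≠ y') (hxb' : x' ≠ b) :
    x = x' ∧ y = y' := by
  have e1 : (Walk.cons h1 (Walk.cons h2 (Walk.cons h3 Walk.nil)) : T.Walk a b).IsPath := by
    simp [Walk.cons_isPath_iff, hab, hay, hxb, h1.ne, h2.ne, h3.ne]
  have e2 : (Walk.cons h1' (Walk.cons h2' (Walk.cons h3' Walk.nil)) : T.Walk a b).IsPath := by
    simp [Walk.cons_isPath_iff, hab, hay', hxb', h1'.ne, h2'.ne, h3'.ne]
  have h3 := (hT.subsingleton_path _ _).elim ⟨_, e1⟩ ⟨_, e2⟩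
  have h4 := congrArg (fun p : T.Path a b => p.1.support) h3
  simpa using h4

/-- Two-colouring of a tree. -/
theorem exists_col (hT : T.IsAcyclic) : ∃ col : τ → Bool, ∀ x y, T.Adj x y → col x ≠ col y := by
  obtain ⟨C⟩ := hT.colorable_two
  refine ⟨fun x => decide (C x = 0), fun x y hxy h => ?_⟩
  have hne := C.valid hxy
  have h0 : (C x = 0) ↔ (C y = 0) := by simpa using h
  generalize C x = p at *
  generalize C y = q at *
  fin_cases p <;> fin_cases q <;> simp_all

/-- The half of the tree at the edge `ab` containing `a`. -/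
def hf (T : SimpleGraph τ) (a b : τ) : Set τ := {v | (T.deleteEdges {s(a, b)}).Reachable a v}

theorem self_mem_hf (a b : τ) : a ∈ hf T a b := Reachable.refl _

theorem not_mem_hf (hT : T.IsAcyclic) {a b : τ} (hab : T.Adj a b) : b ∉ hf T a b := by
  have := (isAcyclic_iff_forall_adj_isBridge.1 hT) hab
  rw [isBridge_iff] at this
  exact this

theorem hf_closed (hT : T.IsAcyclic) {a b v w : τ} (hab : T.Adj a b) (hv : v ∈ hf T a b)
    (hvw : T.Adj v w) : w ∈ hf T a b ∨ (v = a ∧ w = b) := by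
  by_cases h : s(v, w) = s(a, b)
  · rw [Sym2.eq_iff] at h
    rcases h with ⟨rfl, rfl⟩ | ⟨rfl, rfl⟩
    · exact Or.inr ⟨rfl, rfl⟩
    · exact absurd hv (not_mem_hf hT hab)
  · left
    refine Reachable.trans hv (Adj.reachable ?_)
    rw [deleteEdges_adj]
    exact ⟨hvw, h⟩

theorem walk_induction {G : SimpleGraph τ} {p : τ → Prop} (hstep : ∀ v w, p v → G.Adj v w → p w)
    {u v : τ} (q : G.Walk u v) (hu : p u) : p v := by
  induction q with
  | nil => exact hu
  | cons h _ ih => exact ih (hstep _ _ hu h)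

theorem hf_cover (hT : T.IsTree) {a b : τ} (hab : T.Adj a b) (v : τ) :
    v ∈ hf T a b ∨ v ∈ hf T b a := by
  obtain ⟨q⟩ := hT.1.preconnected a v
  refine walk_induction (p := fun v => v ∈ hf T a b ∨ v ∈ hf T b a) ?_ q (Or.inl (self_mem_hf _ _))
  rintro v w (h | h) hvw
  · rcases hf_closed hT.2 hab h hvw with h' | ⟨_, rfl⟩
    · exact Or.inl h'
    · exact Or.inr (self_mem_hf _ _)
  · rcases hf_closed hT.2 hab.symm h hvw with h' | ⟨_, rfl⟩
    · exact Or.inr h'
    · exact Or.inl (self_mem_hf _ _)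

theorem hf_disjoint (hT : T.IsAcyclic) {a b : τ} (hab : T.Adj a b) {v : τ}
    (h1 : v ∈ hf T a b) (h2 : v ∈ hf T b a) : False := by
  have h2' : (T.deleteEdges {s(a, b)}).Reachable b v := by
    rw [Sym2.eq_swap]; exact h2
  exact not_mem_hf hT hab (Reachable.trans h1 h2'.symm)

/-- Induction principle for halves. -/
theorem hf_induction {a b : τ} {p : τ → Prop} (h0 : p a)
    (hstep : ∀ v w, v ∈ hf T a b → p v → T.Adj v w → w ∈ hf T a b → p w) {v : τ}
    (hv : v ∈ hf T a b) : p v := by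
  obtain ⟨q⟩ := hv
  have := walk_induction (G := T.deleteEdges {s(a, b)}) (p := fun v => v ∈ hf T a b ∧ p v) ?_ q
    ⟨self_mem_hf _ _, h0⟩
  · exact this.2
  · rintro v w ⟨h1, h2⟩ hvw
    have h3 : w ∈ hf T a b := Reachable.trans h1 hvw.reachable
    exact ⟨h3, hstep v w h1 h2 (by rw [deleteEdges_adj] at hvw; exact hvw.1) h3⟩

/-- Nesting of halves. -/
theorem hf_nest (hT : T.IsAcyclic) {a b c : τ} (hab : T.Adj a b) (hcb : T.Adj c b) (hca : c ≠ a) :
    hf T c b ⊆ hf T b a := by
  intro v hv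
  refine hf_induction (p := fun v => v ∈ hf T b a) ?_ ?_ hv
  · rcases hf_closed hT hab.symm (self_mem_hf b a) hcb.symm with h | ⟨_, rfl⟩
    · exact h
    · exact absurd rfl hca
  · intro v w hv1 hv2 hvw hw
    rcases hf_closed hT hab.symm hv2 hvw with h | ⟨rfl, rfl⟩
    · exact h
    · exact absurd hv1 (not_mem_hf hT hcb)

/-- Neighbours of the far end of the edge inside a half. -/
theorem adj_far_end (hT : T.IsAcyclic) {a b v : τ} (hab : T.Adj a b) (hv : v ∈ hf T a b)
    (h : T.Adj v b) : v = a := by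
  rcases hf_closed hT hab hv h with h' | ⟨rfl, _⟩
  · exact absurd h' (not_mem_hf hT hab)
  · rfl

/-- The branches at a vertex cover the other vertices. -/
theorem branch_cover (hT : T.IsTree) (r v : τ) (hv : v ≠ r) : ∃ b, T.Adj b r ∧ v ∈ hf T b r := by
  obtain ⟨q⟩ := hT.1.preconnected r v
  have := walk_induction (G := T) (p := fun v => v = r ∨ ∃ b, T.Adj b r ∧ v ∈ hf T b r) ?_ q
    (Or.inl rfl)
  · rcases this with h | h
    · exact absurd h hv
    · exact h
  · rintro v w (rfl | ⟨b, hb, hvb⟩) hvw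
    · exact Or.inr ⟨w, hvw.symm, self_mem_hf _ _⟩
    · rcases hf_closed hT.2 hb hvb hvw with h | ⟨_, h⟩
      · exact Or.inr ⟨b, hb, h⟩
      · exact Or.inl h

/-- Different branches at a vertex are disjoint. -/
theorem branch_disjoint (hT : T.IsAcyclic) {r b c v : τ} (hb : T.Adj b r) (hc : T.Adj c r)
    (hvb : v ∈ hf T b r) (hvc : v ∈ hf T c r) : b = c := by
  by_contra hne
  exact hf_disjoint hT hb hvb (hf_nest hT hb hc (Ne.symm hne) hvc)

/-- If no edge has both halves of size at least five then some vertex has all branches of size at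
most four. -/
theorem exists_center [Finite τ] (hT : T.IsTree) (hn : 9 ≤ Nat.card τ)
    (h : ∀ a b, T.Adj a b → (hf T a b).ncard ≤ 4 ∨ (hf T b a).ncard ≤ 4) :
    ∃ r, ∀ b, T.Adj b r → (hf T b r).ncard ≤ 4 := by
  classical
  have key : ∀ m : ℕ, ∀ a b, T.Adj a b → (hf T b a).ncard = m → 5 ≤ m →
      ∃ r, ∀ b, T.Adj b r → (hf T b r).ncard ≤ 4 := by
    intro m
    induction m using Nat.strong_induction_on with
    | _ m ih =>
      intro a b hab hm hm5
      by_contra hcon
      push Not at hcon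
      obtain ⟨c, hc, hc5⟩ := hcon b
      have hca : c ≠ a := by
        rintro rfl
        rcases h _ _ hab with h' | h' <;> omega
      have hsub := hf_nest hT.2 hab hc hca
      have hlt : (hf T c b).ncard < m := by
        rw [← hm]
        apply Set.ncard_lt_ncard _ (Set.toFinite _)
        refine ⟨hsub, fun hsub' => not_mem_hf hT.2 hc (hsub' (self_mem_hf b a))⟩
      obtain ⟨r, hr⟩ := ih _ hlt b c hc.symm rfl (by omega)
      obtain ⟨b', hb', h5⟩ := hcon r
      exact absurd (hr b' hb') (by omega)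
  have : Nontrivial τ := by
    have : Nonempty τ := hT.1.nonempty
    exact (Finite.one_lt_card_iff_nontrivial).1 (by omega)
  obtain ⟨a, v, hav⟩ := exists_pair_ne τ
  obtain ⟨b, hb, -⟩ := branch_cover hT a v hav.symm
  have hun : hf T a b ∪ hf T b a = Set.univ := by
    ext v
    simp only [Set.mem_union, Set.mem_univ, iff_true]
    exact hf_cover hT hb.symm v
  have h1 := Set.ncard_union_le (hf T a b) (hf T b a)
  rw [hun, Set.ncard_univ] at h1
  rcases h _ _ hb with h' | h'
  · exact key _ _ _ hb rfl (by omega)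
  · exact key _ _ _ hb.symm rfl (by omega)

end Pool.Agent.SA36
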