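import Pool.Agent.SA36.PairChk
import Pool.Agent.SA33.GoodHost
import Pool.Agent.SA27.Bases

set_option autoImplicit false
set_option maxRecDepth 100000

/-! The two pairs A and B. -/

namespace Pool.Agent.SA36

open SimpleGraph Pool.Agent.SA33 Pool.Agent.SA97 Pool.Agent.SA97.Eng Pool.Agent.SA27

/-- From a run to goodness. -/
theorem good_of_run {n sn : ℕ} {p sq dl : List ℕ} (hs0 : 0 < sn)
    (hd0 : ∀ x : Fin sn, dl.getD x.1 0 = 0 ↔ x = ⟨0, hs0⟩)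
    (hd : ∀ x y : Fin sn, (tree sn sq).Adj x y → dl.getD x.1 0 = dl.getD y.1 0 + 1 ∨
      dl.getD y.1 0 = dl.getD x.1 0 + 1)
    (hn : 0 < n) (hn20 : n ≤ 20) (hlen : p.length = n)
    (hp : ∀ v, 1 ≤ v → v < n → p.getD v 0 < v)
    {S0 S1 S2 TT : List (ℕ × ℕ)} (e0 : st sn sq dl isR0 = S0)
    (e1 : st sn sq dl isR1 = S1) (e2 : st sn sq dl isR2 = S2) (eT : tt n p = TT)
    (h : run (bstep (chkS (fun m0 m1 m2 => embT S0 S1 S2 m0 m1 m2 TT 0 []))) p.tail [] = true)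
    {τ : Type} (T : SimpleGraph τ) (k : ℕ) (hk : 3 ≤ k) (f : tree n p ↪g T) :
    Good T k (tree sn sq) ⟨0, hs0⟩ := by
  refine good_of_host hk (tree sn sq) ⟨0, hs0⟩ (fun x : Fin sn => dl.getD x.1 0) hd0 hd 20 ?_
  intro V G H
  refine ⟨fun φ => ?_⟩
  exact (free_of_run hk le_rfl hn hn20 hlen hp e0 e1 e2 eT h H).false (f.trans φ)

theorem tA0 : st 6 [0, 0, 1, 2, 1, 0] [0, 1, 2, 3, 2, 1] isR0 = [(1, 34)] := by decide +kernel
theorem tA1 : st 6 [0, 0, 1, 2, 1, 0] [0, 1, 2, 3, 2, 1] isR1 = [(2, 21), (8, 4), (32, 1)] := by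
  decide +kernel
theorem tA2 : st 6 [0, 0, 1, 2, 1, 0] [0, 1, 2, 3, 2, 1] isR2 = [(4, 10), (16, 2)] := by
  decide +kernel

theorem tAT : tt 10 [0, 0, 1, 2, 3, 2, 1, 0, 7, 8] = [(1, 130), (2, 69), (4, 42), (8, 20),
    (16, 8), (32, 4), (64, 2), (128, 257), (256, 640), (512, 256)] := by decide +kernel

theorem rA : run (bstep (chkS (fun m0 m1 m2 => embT [(1, 34)] [(2, 21), (8, 4), (32, 1)]
    [(4, 10), (16, 2)] m0 m1 m2 [(1, 130), (2, 69), (4, 42), (8, 20),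
    (16, 8), (32, 4), (64, 2), (128, 257), (256, 640), (512, 256)] 0 [])))
    [0, 1, 2, 3, 2, 1, 0, 7, 8] [] = true := by decide +kernel

theorem baseOK_pairA : BaseOK pairA := by
  rintro h0 τ T k hk ⟨p, hp, ⟨f⟩⟩
  unfold pairA at hp
  rw [List.mem_singleton] at hp
  subst hp
  exact good_of_run (n := 10) (sn := 6) (dl := [0, 1, 2, 3, 2, 1]) (by decide) (by decide)
    (by decide +kernel) (by decide) (by decide) rfl
    (hpar_list (q := [0, 0, 1, 2, 3, 2, 1, 0, 7, 8]) (by decide)) tA0 tA1 tA2 tAT rA T k hk f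

theorem tB0 : st 7 [0, 0, 1, 2, 3, 1, 0] [0, 1, 2, 3, 4, 2, 1] isR0 = [(1, 66)] := by
  decide +kernel
theorem tB1 : st 7 [0, 0, 1, 2, 3, 1, 0] [0, 1, 2, 3, 4, 2, 1] isR1 =
    [(2, 37), (8, 20), (64, 1)] := by decide +kernel
theorem tB2 : st 7 [0, 0, 1, 2, 3, 1, 0] [0, 1, 2, 3, 4, 2, 1] isR2 =
    [(4, 10), (16, 8), (32, 2)] := by decide +kernel
theorem tBT : tt 10 [0, 0, 1, 2, 1, 0, 5, 6, 5, 0] = [(1, 546), (2, 21), (4, 10), (8, 4), (16, 2),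
    (32, 321), (64, 160), (128, 64), (256, 32), (512, 1)] := by decide +kernel

theorem rB : run (bstep (chkS (fun m0 m1 m2 => embT [(1, 66)] [(2, 37), (8, 20), (64, 1)]
    [(4, 10), (16, 8), (32, 2)] m0 m1 m2 [(1, 546), (2, 21), (4, 10), (8, 4), (16, 2),
    (32, 321), (64, 160), (128, 64), (256, 32), (512, 1)] 0 [])))
    [0, 1, 2, 1, 0, 5, 6, 5, 0] [] = true := by decide +kernel

theorem baseOK_pairB : BaseOK pairB := by
  rintro h0 τ T k hk ⟨p, hp, ⟨f⟩⟩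
  unfold pairB at hp
  rw [List.mem_singleton] at hp
  subst hp
  exact good_of_run (n := 10) (sn := 7) (dl := [0, 1, 2, 3, 4, 2, 1]) (by decide) (by decide)
    (by decide +kernel) (by decide) (by decide) rfl
    (hpar_list (q := [0, 0, 1, 2, 1, 0, 5, 6, 5, 0]) (by decide)) tB0 tB1 tB2 tBT rB T k hk f

end Pool.Agent.SA36
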