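import Pool.Agent.SA36.Case2
import Pool.Agent.SA33.Host
import Pool.Agent.SA97.Eng

set_option autoImplicit false

/-! From a big block in the host `Γ_S` to the combinatorial data `BadEdge`. -/

namespace Pool.Agent.SA36

open SimpleGraph Pool.Agent.SA33 Pool.Agent.SA97 Pool.Agent.SA97.Eng

theorem not_far_iff {n : ℕ} (x y : ZMod n) : ¬ Far x y ↔ cnear n x y := by
  unfold Far cnear
  tauto

theorem tcl_cases {n : ℕ} (i j : ZMod n) (t : ℕ) :
    (t = 0 ∧ tcl i j t = i) ∨ (t % 2 = 1 ∧ tcl i j t = j) ∨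
      (t ≠ 0 ∧ t % 2 = 0 ∧ tcl i j t = i + 1) := by
  unfold tcl
  by_cases h0 : t = 0
  · left; simp [h0]
  · by_cases h1 : t % 2 = 1
    · right; left; simp [h0, h1]
    · right; right; simp [h0, h1]; omega

section
variable {τ : Type} [Finite τ] {T : SimpleGraph τ}

theorem bad_of_block {a b : τ} {col : τ → Bool}
    {k L : ℕ} (hk : 3 ≤ k) (hL : 3 ≤ L) {d : hf T a b → ℕ}
    (hd0 : ∀ x, d x = 0 ↔ x = ⟨a, self_mem_hf a b⟩)
    (hd1 : ∀ x : hf T a b, d x % 2 = 1 → col x.1 ≠ col a)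
    {V : Type} {G : SimpleGraph V} (H : Host k L (T.induce (hf T a b)) d G) (φ : T ↪g G)
    (e : H.E) {J K : ZMod (2 * k - 1)} (hJK : Far J K)
    (hJ : 4 ≤ {x | φ x ∈ Set.range (H.vtx e) ∧ H.cls (φ x) = J}.ncard)
    (hK : 4 ≤ {x | φ x ∈ Set.range (H.vtx e) ∧ H.cls (φ x) = K}.ncard) :
    BadEdge T col a b := by
  classical
  have hN : Near (cnear (2 * k - 1)) := near_cnear (by omega)
  -- at most one vertex of the class of the root
  have root1 : ∀ x y, φ x ∈ Set.range (H.vtx e) → φ y ∈ Set.range (H.vtx e) →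
      H.cls (φ x) = H.ti e → H.cls (φ y) = H.ti e → x = y := by
    have aux : ∀ q, H.cls (H.vtx e q) = H.ti e → q = ⟨a, self_mem_hf a b⟩ := by
      intro q hq
      rw [H.cls_vtx] at hq
      rcases tcl_cases (H.ti e) (H.tj e) (d q) with ⟨h, _⟩ | ⟨h1, h2⟩ | ⟨h1, h2, h3⟩
      · exact (hd0 q).1 h
      · rw [h2] at hq
        exact absurd hq.symm (H.far_ij e).1
      · rw [h3] at hq
        exfalso
        have : (1 : ZMod (2 * k - 1)) = 0 := by
          have := congrArg (fun z => z - H.ti e) hq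
          simpa using this
        exact natCast_ne_zero' (n := 2 * k - 1) (d := 1) (by omega) (by omega) (by simpa using this)
    rintro x y ⟨p, hp⟩ ⟨q, hq⟩ hx hy
    rw [← hp] at hx
    rw [← hq] at hy
    have h1 := aux p hx
    have h2 := aux q hy
    apply φ.injective
    rw [← hp, ← hq, h1, h2]
  have hcls : ∀ x, φ x ∈ Set.range (H.vtx e) → H.cls (φ x) = H.ti e ∨ H.cls (φ x) = H.tj e ∨
      H.cls (φ x) = H.ti e + 1 := by
    rintro x ⟨q, hq⟩
    rw [← hq, H.cls_vtx]
    rcases tcl_cases (H.ti e) (H.tj e) (d q) with ⟨_, h⟩ | ⟨_, h⟩ | ⟨_, _, h⟩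
    · exact Or.inl h
    · exact Or.inr (Or.inl h)
    · exact Or.inr (Or.inr h)
  -- classes with four vertices
  have big : ∀ J, 4 ≤ {x | φ x ∈ Set.range (H.vtx e) ∧ H.cls (φ x) = J}.ncard →
      J = H.tj e ∨ J = H.ti e + 1 := by
    intro J hJ
    have hne : {x | φ x ∈ Set.range (H.vtx e) ∧ H.cls (φ x) = J}.Nonempty := by
      rw [← Set.ncard_pos]; omega
    obtain ⟨x, hx, hxJ⟩ := hne
    rcases hcls x hx with h | h | h
    · exfalso
      have h1 : {x | φ x ∈ Set.range (H.vtx e) ∧ H.cls (φ x) = J}.ncard ≤ 1 := by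
        rw [Set.ncard_le_one_iff]
        rintro u v ⟨hu, hu'⟩ ⟨hv, hv'⟩
        exact root1 u v hu hv (by rw [hu', ← hxJ, h]) (by rw [hv', ← hxJ, h])
      omega
    · exact Or.inl (hxJ.symm.trans h)
    · exact Or.inr (hxJ.symm.trans h)
  have hone : (1 : ZMod (2 * k - 1)) ≠ 0 := by
    have := natCast_ne_zero' (n := 2 * k - 1) (d := 1) (by omega) (by omega)
    simpa using this
  have hti : H.ti e ≠ H.ti e + 1 := by
    intro h
    apply hone
    have := congrArg (fun z => z - H.ti e) h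
    simpa using this.symm
  set P : Set τ := {x | φ x ∈ Set.range (H.vtx e) ∧ H.cls (φ x) = J} with hP
  set R : Set τ := {x | φ x ∈ Set.range (H.vtx e) ∧ H.cls (φ x) = K} with hR
  set Rt : Set τ := {x | φ x ∈ Set.range (H.vtx e) ∧ x ∉ P ∧ x ∉ R} with hRt
  have hJc := big J hJ
  have hKc := big K hK
  have hJKne : J ≠ K := hJK.1
  have rtcls : ∀ x ∈ Rt, H.cls (φ x) = H.ti e := by
    rintro x ⟨hx, hxP, hxR⟩
    rcases hcls x hx with h | h | h
    · exact h
    · exfalso
      rcases hJc with h1 | h1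
      · exact hxP ⟨hx, h.trans h1.symm⟩
      · rcases hKc with h2 | h2
        · exact hxR ⟨hx, h.trans h2.symm⟩
        · exact hJKne (h1.trans h2.symm)
    · exfalso
      rcases hJc with h1 | h1
      · rcases hKc with h2 | h2
        · exact hJKne (h1.trans h2.symm)
        · exact hxR ⟨hx, h.trans h2.symm⟩
      · exact hxP ⟨hx, h.trans h1.symm⟩
  have notE : ∀ z, z ∉ P → z ∉ R → z ∉ Rt → φ z ∉ Set.range (H.vtx e) := by
    intro z h1 h2 h3 h
    exact h3 ⟨h, h1, h2⟩
  have noadj : ∀ x y, H.cls (φ x) = H.cls (φ y) → ¬ T.Adj x y := by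
    intro x y h hxy
    have := H.adj_far _ _ (φ.map_adj_iff.2 hxy)
    exact this.1 h
  have nadjfar : ∀ x y, ¬ Far (H.cls (φ x)) (H.cls (φ y)) → ¬ T.Adj x y := by
    intro x y h hxy
    exact h (H.adj_far _ _ (φ.map_adj_iff.2 hxy))
  -- the key property of outside vertices
  have key : ∀ z, φ z ∉ Set.range (H.vtx e) → ∀ x x', φ x ∈ Set.range (H.vtx e) →
      φ x' ∈ Set.range (H.vtx e) → Far (H.cls (φ z)) (H.cls (φ x)) →
      Far (H.cls (φ z)) (H.cls (φ x')) → ¬ T.Adj z x → ¬ T.Adj z x' → x = x' := by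
    intro z hz x x' hx hx' hfx hfx' hzx hzx'
    by_contra hne
    obtain ⟨e1, p1, q1, h1, h1'⟩ := H.cov _ _ hfx (fun h => hzx (φ.map_adj_iff.1 h))
    obtain ⟨e2, p2, q2, h2, h2'⟩ := H.cov _ _ hfx' (fun h => hzx' (φ.map_adj_iff.1 h))
    have hzx1 : φ z ≠ φ x := by
      intro h; rw [h] at hz; exact hz hx
    have hzx2 : φ z ≠ φ x' := by
      intro h; rw [h] at hz; exact hz hx'
    have h := H.acyc3 hL hzx1 (fun h => hne (φ.injective h)) hzx2 (e := e1) (f := e) (g := e2)
      ⟨p1, h1⟩ ⟨q1, h1'⟩ hx hx' ⟨q2, h2'⟩ ⟨p2, h2⟩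
    apply hz
    rw [← h.1]
    exact ⟨p1, h1⟩
  have hblk : Blk T P R Rt := by
    refine ⟨?_, ?_, hJ, hK, ?_, ?_, ?_, ?_, ?_, ?_, ?_, ?_⟩
    · rintro x ⟨_, hx⟩ y ⟨_, hy⟩
      exact noadj x y (hx.trans hy.symm)
    · rintro x ⟨_, hx⟩ y ⟨_, hy⟩
      exact noadj x y (hx.trans hy.symm)
    · rintro x ⟨_, hx⟩ ⟨_, hy⟩
      exact hJKne (hx.symm.trans hy)
    · rintro x ⟨_, hx, _⟩; exact hx
    · rintro x ⟨_, _, hx⟩; exact hx
    · intro x hx y hy
      exact root1 x y hx.1 hy.1 (rtcls x hx) (rtcls y hy)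
    · rcases hJc with h1 | h1
      · left
        intro x hx y hy
        apply nadjfar
        rw [rtcls x hx, hy.2]
        rcases hKc with h2 | h2
        · exact absurd (h1.trans h2.symm) hJKne
        · rw [h2]; exact not_far_succ _
      · right
        intro x hx y hy
        apply nadjfar
        rw [rtcls x hx, hy.2, h1]
        exact not_far_succ _
    · rintro z h1 h2 h3 ⟨y, hy, hzy⟩ x hx x' hx' hzx hzx'
      have hf : Far (H.cls (φ z)) J := by
        rw [← hy.2]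
        exact H.adj_far _ _ (φ.map_adj_iff.2 hzy)
      exact key z (notE z h1 h2 h3) x x' hx.1 hx'.1 (by rw [hx.2]; exact hf)
        (by rw [hx'.2]; exact hf) hzx hzx'
    · rintro z h1 h2 h3 ⟨y, hy, hzy⟩ x hx x' hx' hzx hzx'
      have hf : Far (H.cls (φ z)) K := by
        rw [← hy.2]
        exact H.adj_far _ _ (φ.map_adj_iff.2 hzy)
      exact key z (notE z h1 h2 h3) x x' hx.1 hx'.1 (by rw [hx.2]; exact hf)
        (by rw [hx'.2]; exact hf) hzx hzx'
    · intro z z' h1 h2 h3 h1' h2' h3' h4 h5 h4' h5'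
      have aux : ∀ z, z ∉ P → z ∉ R → z ∉ Rt → (∀ x ∈ P, ¬ T.Adj z x) → (∀ x ∈ R, ¬ T.Adj z x) →
          cnear (2 * k - 1) (H.cls (φ z)) J ∧ cnear (2 * k - 1) (H.cls (φ z)) K := by
        intro z h1 h2 h3 h4 h5
        constructor
        · rw [← not_far_iff]
          intro hf
          have : 1 < P.ncard := by omega
          obtain ⟨x, x', hx, hx', hxx⟩ := (Set.one_lt_ncard_iff (Set.toFinite _)).1 this
          exact hxx (key z (notE z h1 h2 h3) x x' hx.1 hx'.1 (by rw [hx.2]; exact hf)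
            (by rw [hx'.2]; exact hf) (h4 x hx) (h4 x' hx'))
        · rw [← not_far_iff]
          intro hf
          have : 1 < R.ncard := by omega
          obtain ⟨x, x', hx, hx', hxx⟩ := (Set.one_lt_ncard_iff (Set.toFinite _)).1 this
          exact hxx (key z (notE z h1 h2 h3) x x' hx.1 hx'.1 (by rw [hx.2]; exact hf)
            (by rw [hx'.2]; exact hf) (h5 x hx) (h5 x' hx'))
      obtain ⟨a1, a2⟩ := aux z h1 h2 h3 h4 h5
      obtain ⟨b1, b2⟩ := aux z' h1' h2' h3' h4' h5'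
      apply noadj
      have hJK' : ¬ cnear (2 * k - 1) J K := by
        rw [← not_far_iff, not_not]; exact hJK
      rcases hN.quad (H.cls (φ z)) J (H.cls (φ z')) K a1 (hN.symm _ _ b1) b2 (hN.symm _ _ a2)
        with h | h | h | h | h | h
      · rw [h] at a2; exact absurd a2 hJK'
      · rw [← h] at b2; exact absurd b2 hJK'
      · rw [h] at b1; exact absurd (hN.symm _ _ b1) hJK'
      · rw [← h] at a1; exact absurd (hN.symm _ _ a1) hJK'
      · exact h
      · exact absurd h hJKne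
  -- the map
  have hex : ∀ x, ∃ q : hf T a b, φ x ∈ Set.range (H.vtx e) → H.vtx e q = φ x := by
    intro x
    by_cases h : φ x ∈ Set.range (H.vtx e)
    · obtain ⟨q, hq⟩ := h
      exact ⟨q, fun _ => hq⟩
    · exact ⟨⟨a, self_mem_hf a b⟩, fun h' => absurd h' h⟩
  choose ψ hψ using hex
  have hE : ∀ x, (x ∈ P ∨ x ∈ R ∨ x ∈ Rt) → φ x ∈ Set.range (H.vtx e) := by
    rintro x (h | h | h)
    · exact h.1
    · exact h.1
    · exact h.1
  have hψa : ∀ x, φ x ∈ Set.range (H.vtx e) → ((ψ x).1 = a ↔ H.cls (φ x) = H.ti e) := by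
    intro x hx
    have h1 := hψ x hx
    constructor
    · intro h
      have h2 : ψ x = ⟨a, self_mem_hf a b⟩ := Subtype.ext h
      rw [← h1, H.cls_vtx, (hd0 _).2 h2]
      rfl
    · intro h
      have h2 : d (ψ x) = 0 := by
        rw [← h1, H.cls_vtx] at h
        rcases tcl_cases (H.ti e) (H.tj e) (d (ψ x)) with ⟨h3, _⟩ | ⟨_, h4⟩ | ⟨_, _, h4⟩
        · exact h3
        · rw [h4] at h
          exact absurd h.symm (H.far_ij e).1
        · rw [h4] at h
          exact absurd h.symm hti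
      rw [(hd0 _).1 h2]
  have hψcol : ∀ x, φ x ∈ Set.range (H.vtx e) → H.cls (φ x) = H.tj e → col (ψ x).1 ≠ col a := by
    intro x hx h
    apply hd1
    rw [← hψ x hx, H.cls_vtx] at h
    rcases tcl_cases (H.ti e) (H.tj e) (d (ψ x)) with ⟨_, h4⟩ | ⟨h3, _⟩ | ⟨_, _, h4⟩
    · rw [h4] at h
      exact absurd h (H.far_ij e).1
    · exact h3
    · rw [h4] at h
      exact absurd h (H.far_lj e).1
  refine ⟨P, R, Rt, fun x => (ψ x).1, hblk, ?_, ?_, ?_, ?_, ?_, ?_, ?_⟩
  · intro x y hx hy h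
    apply φ.injective
    rw [← hψ x (hE x hx), ← hψ y (hE y hy), Subtype.ext h]
  · intro x _
    exact (ψ x).2
  · intro x y hx hy
    have h1 := H.adj_vtx e (ψ x) (ψ y)
    rw [hψ x (hE x hx), hψ y (hE y hy), φ.map_adj_iff] at h1
    exact h1.symm
  · intro x hx
    exact (hψa x hx.1).2 (rtcls x hx)
  · intro x hx h
    have h1 := (hψa x hx.1).1 h
    rw [hx.2] at h1
    rcases hJc with h2 | h2
    · exact (H.far_ij e).1 (h1.symm.trans h2)
    · exact hti (h1.symm.trans h2)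
  · intro x hx h
    have h1 := (hψa x hx.1).1 h
    rw [hx.2] at h1
    rcases hKc with h2 | h2
    · exact (H.far_ij e).1 (h1.symm.trans h2)
    · exact hti (h1.symm.trans h2)
  · rcases hJc with h2 | h2
    · left
      intro x hx
      exact hψcol x hx.1 (hx.2.trans h2)
    · rcases hKc with h3 | h3
      · right
        intro x hx
        exact hψcol x hx.1 (hx.2.trans h3)
      · exact absurd (h2.trans h3.symm) hJKne

end

/-- Property `P(4)`: in every host every copy of `T` has a hyperedge containing at least four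
vertices in each of two far classes. -/
def P4 {τ : Type} (T : SimpleGraph τ) : Prop :=
  ∀ (k L : ℕ), 3 ≤ k → 20 ≤ L → ∀ (σ : Type) (S : SimpleGraph σ) (d : σ → ℕ),
    (∀ p q, d p = 0 → d q = 0 → p = q) → ∀ (V : Type) (G : SimpleGraph V) (H : Host k L S d G)
    (φ : T ↪g G), ∃ (e : H.E) (J K : ZMod (2 * k - 1)), Far J K ∧
      4 ≤ {x | φ x ∈ Set.range (H.vtx e) ∧ H.cls (φ x) = J}.ncard ∧
      4 ≤ {x | φ x ∈ Set.range (H.vtx e) ∧ H.cls (φ x) = K}.ncard

theorem P4.mono {τ τ' : Type} [Finite τ'] {T : SimpleGraph τ} {T' : SimpleGraph τ'} (h : P4 T)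
    (f : T ↪g T') : P4 T' := by
  intro k L hk hL σ S d hd V G H φ
  obtain ⟨e, J, K, hJK, h1, h2⟩ := h k L hk hL σ S d hd V G H (f.trans φ)
  refine ⟨e, J, K, hJK, h1.trans ?_, h2.trans ?_⟩
  · refine Set.ncard_le_ncard_of_injOn f ?_ f.injective.injOn (Set.toFinite _)
    intro x hx
    exact hx
  · refine Set.ncard_le_ncard_of_injOn f ?_ f.injective.injOn (Set.toFinite _)
    intro x hx
    exact hx

theorem walk_parity {τ : Type*} {T : SimpleGraph τ} {col : τ → Bool}
    (hcol : ∀ x y, T.Adj x y → col x ≠ col y) {u v : τ} (p : T.Walk u v) :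
    (p.length % 2 = 1 → col v ≠ col u) ∧ (p.length % 2 = 0 → col v = col u) := by
  induction p with
  | nil => simp
  | cons h p ih =>
    rename_i u v w
    have h1 := hcol _ _ h
    rw [Walk.length_cons]
    obtain ⟨i1, i2⟩ := ih
    constructor
    · intro h2
      rw [i2 (by omega)]
      exact h1.symm
    · intro h2
      have h3 := i1 (by omega)
      revert h1 h3
      generalize col w = p1
      generalize col v = p2
      generalize col u = p3
      revert p1 p2 p3
      decide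

/-- Main result for trees with property `P(4)`: some edge has both halves fine. -/
theorem exists_edge_host {τ : Type} [Finite τ] {T : SimpleGraph τ} (hT : T.IsTree)
    (htw : TwinFree T) (hn : 11 ≤ Nat.card τ) (hP : P4 T) :
    ∃ a b, T.Adj a b ∧
      (∀ (k : ℕ), 3 ≤ k → ∀ (V : Type) (G : SimpleGraph V)
        (_ : Host k 20 (T.induce (hf T a b)) (fun x => T.dist a x.1) G), IsEmpty (T ↪g G)) ∧
      (∀ (k : ℕ), 3 ≤ k → ∀ (V : Type) (G : SimpleGraph V)
        (_ : Host k 20 (T.induce (hf T b a)) (fun x => T.dist b x.1) G), IsEmpty (T ↪g G)) := by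
  obtain ⟨col, hcol⟩ := exists_col hT.2
  obtain ⟨a, b, hab, h1, h2⟩ := exists_good_edge hT htw hn hcol
  have key : ∀ a b, ¬ BadEdge T col a b → ∀ (k : ℕ), 3 ≤ k → ∀ (V : Type) (G : SimpleGraph V)
        (_ : Host k 20 (T.induce (hf T a b)) (fun x => T.dist a x.1) G), IsEmpty (T ↪g G) := by
    intro a b hbad k hk V G H
    refine ⟨fun φ => hbad ?_⟩
    have hd0 : ∀ x : hf T a b, T.dist a x.1 = 0 ↔ x = ⟨a, self_mem_hf a b⟩ := by
      intro x
      rw [hT.1.dist_eq_zero_iff, Subtype.ext_iff, eq_comm]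
    obtain ⟨e, J, K, hJK, h3, h4⟩ := hP k 20 hk le_rfl _ _ _ (by
      intro p q hp hq
      rw [(hd0 p).1 hp, (hd0 q).1 hq]) V G H φ
    refine bad_of_block hk (by norm_num) hd0 ?_ H φ e hJK h3 h4
    intro x hx
    obtain ⟨p, hp⟩ := hT.1.exists_walk_length_eq_dist a x.1
    have := (walk_parity hcol p).1
    rw [hp] at this
    exact this hx
  exact ⟨a, b, hab, key a b h1, key b a h2⟩

end Pool.Agent.SA36
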