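import Pool.Agent.SA97.Eng

set_option autoImplicit false

/-! The block step: definitions (kernel friendly). -/

namespace Pool.Agent.SA36

open Pool.Agent.SA97.Eng

/-- A connected component of the block structure: its vertices and its blocks. -/
structure Cm where
  M : ℕ
  bs : List ℕ

/-- clear the lowest bit -/
noncomputable def clr (m : ℕ) : ℕ := Nat.land m (Nat.pred m)

/-- Union of `m` and the blocks meeting `δ`. -/
noncomputable def grow {β : Type} (δ : ℕ) (bs : List ℕ) : ℕ → (ℕ → β) → β :=
  List.rec (motive := fun _ => ℕ → (ℕ → β) → β) (fun m k => k m)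
    (fun B _ ih m k => cond (Nat.beq (Nat.land B δ) 0) (ih m k)
      (force (Nat.lor m B) (fun m' => ih m' k))) bs

/-- The first block containing `t` (a bit) and meeting `δ`. -/
noncomputable def pick {β : Type} (t δ : ℕ) (no : β) (yes : ℕ → β) (bs : List ℕ) : β :=
  List.rec (motive := fun _ => β) no
    (fun B _ ih => cond (Nat.beq (Nat.land B t) 0) ih (cond (Nat.beq (Nat.land B δ) 0) ih (yes B))) bs

/-- Search for a path of blocks from the layer `δ` to `t` (a bit). -/
noncomputable def go {β : Type} (bs : List ℕ) (t : ℕ) (no : β) (fuel : ℕ) :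
    ℕ → ℕ → (ℕ → ℕ → β) → β :=
  Nat.rec (motive := fun _ => ℕ → ℕ → (ℕ → ℕ → β) → β) (fun _ _ _ => no)
    (fun _ ih δ m yes => grow δ bs m (fun m' =>
      cond (Nat.beq (Nat.land m' t) 0)
        (force (Nat.xor m' m) (fun δ' => cond (Nat.beq δ' 0) no
          (ih δ' m' (fun acc z => pick z δ no (fun B => force (Nat.land B δ) (fun q =>
            force (Nat.lor acc B) (fun acc' => force (Nat.xor q (clr q)) (fun z' =>
              yes acc' z')))) bs))))
        (pick t δ no (fun B => force (Nat.land B δ) (fun q =>
          force (Nat.xor q (clr q)) (fun z => yes B z))) bs))) fuel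

/-- Remove the blocks contained in `M`. -/
noncomputable def filt {β : Type} (M : ℕ) (bs : List ℕ) : (List ℕ → β) → β :=
  List.rec (motive := fun _ => (List ℕ → β) → β) (fun k => k [])
    (fun B _ ih k => cond (Nat.beq (Nat.land B M) B) (ih k) (ih (fun rs => k (B :: rs)))) bs

/-- Append, continuation style. -/
noncomputable def app {β : Type} (as : List ℕ) (bs : List ℕ) : (List ℕ → β) → β :=
  List.rec (motive := fun _ => (List ℕ → β) → β) (fun k => k bs)
    (fun B _ ih k => ih (fun rs => k (B :: rs))) as

/-- Process the bits of `Y`, `t` = the bit of the new vertex, `vb` = union of the blocks of `t`. -/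
noncomputable def loop {β : Type} (t : ℕ) (k : List ℕ → β) (fuel : ℕ) :
    ℕ → List ℕ → ℕ → β :=
  Nat.rec (motive := fun _ => ℕ → List ℕ → ℕ → β) (fun _ bs _ => k bs)
    (fun _ ih X bs vb => cond (Nat.beq X 0) (k bs)
      (force (clr X) (fun X' => force (Nat.xor X X') (fun b =>
        cond (Nat.beq (Nat.land b vb) 0)
          (go bs t (force (Nat.lor b t) (fun B => force (Nat.lor vb b) (fun vb' =>
              ih X' (B :: bs) vb'))) 12 b b
            (fun acc _ => force (Nat.lor acc (Nat.lor b t)) (fun B =>
              force (Nat.lor vb B) (fun vb' => filt B bs (fun bs' => ih X' (B :: bs') vb')))))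
          (ih X' bs vb))))) fuel

/-- The profile of the block `B`. -/
noncomputable def prof {β : Type} (B S F t : ℕ) (k : List (ℕ × ℕ) → β) (R : List Cl) :
    List (ℕ × ℕ) → β :=
  List.rec (motive := fun _ => List (ℕ × ℕ) → β) k
    (fun r _ ih P => force (Nat.land B (cond (Nat.beq r.C S) (Nat.lor r.C t) r.C)) (fun m =>
      cond (Nat.beq m 0) (ih P)
        (force (cond (Nat.beq (Nat.land r.C F) 0) (Nat.lor r.K t) r.K) (fun kk =>
          ih ((m, kk) :: P))))) R

/-- Check all blocks of the new vertex. `F` = far mask of the new vertex. -/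
noncomputable def checks (chk : List (ℕ × ℕ) → Bool) (S F t : ℕ) (R : List Cl) (bs : List ℕ) :
    Bool :=
  List.rec (motive := fun _ => Bool) false
    (fun B _ ih => cond (Nat.beq (Nat.land B t) 0) ih
      (cond (Nat.beq (clr (clr B)) 0) ih
        (cond (prof B S F t chk R (cond (Nat.beq S 0)
          [(t, Nat.lor (Nat.xor (Nat.pred t) F) t)] [])) true ih))) bs

/-- All classes meeting `Y` are near or equal to all vertices of `Y`; `true` = contradiction. -/
noncomputable def pre (Y : ℕ) (R : List Cl) : Bool :=
  List.rec (motive := fun _ => Bool) false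
    (fun r _ ih => cond (Nat.beq (Nat.land r.C Y) 0) ih
      (cond (Nat.beq (Nat.land Y r.K) Y) ih true)) R

noncomputable def precheck (X : ℕ) (R : List Cl) (cs : List Cm) : Bool :=
  List.rec (motive := fun _ => Bool) false
    (fun c _ ih => force (Nat.land c.M X) (fun Y => cond (Nat.beq (clr Y) 0) ih
      (cond (pre Y R) true ih))) cs

/-- pair blocks for the vertices in no component -/
noncomputable def pairs {β : Type} (t : ℕ) (k : List ℕ → β) (fuel : ℕ) : ℕ → List ℕ → β :=
  Nat.rec (motive := fun _ => ℕ → List ℕ → β) (fun _ bs => k bs)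
    (fun _ ih X bs => cond (Nat.beq X 0) (k bs)
      (force (clr X) (fun X' => force (Nat.lor (Nat.xor X X') t) (fun B => ih X' (B :: bs))))) fuel

/-- Process the components. `X` = the bits not yet processed, `M`, `acc` = the new component,
`rest` = the untouched components. -/
noncomputable def comps {β : Type} (t : ℕ) (bad : List ℕ → Bool) (fail : β)
    (k : List Cm → β) (cs : List Cm) : ℕ → ℕ → List ℕ → List Cm → β :=
  List.rec (motive := fun _ => ℕ → ℕ → List ℕ → List Cm → β)
    (fun X M acc rest => pairs t (fun acc' => force (Nat.lor (Nat.lor M X) t) (fun M' =>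
      k (⟨M', acc'⟩ :: rest))) 14 X acc)
    (fun c _ ih X M acc rest => force (Nat.land c.M X) (fun Y =>
      cond (Nat.beq Y 0) (ih X M acc (c :: rest))
        (force (Nat.xor X Y) (fun X' => force (Nat.lor M c.M) (fun M' =>
          cond (Nat.beq (clr Y) 0)
            (force (Nat.lor Y t) (fun B => app c.bs acc (fun acc' => ih X' M' (B :: acc') rest)))
            (loop t (fun bs' => cond (bad bs') fail (app bs' acc (fun acc' => ih X' M' acc' rest)))
              14 Y c.bs t)))))) cs

/-- The block step. -/
noncomputable def bstep (chk : List (ℕ × ℕ) → Bool) (v bp X S : ℕ) (R : List Cl) (cs : List Cm) :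
    Option (List Cm) :=
  cond (Nat.beq X 0) (some cs) (cond (precheck X R cs) none
    (force (Nat.pow 2 v) (fun t => force (Nat.lor X bp) (fun F =>
      comps t (checks chk S F t R) none some cs X 0 [] []))))

/-- at least two bits -/
noncomputable def big2 (m : ℕ) : Bool := cond (Nat.beq (clr m) 0) false true

/-- at least four bits -/
noncomputable def big4 (m : ℕ) : Bool :=
  force (clr m) (fun a => force (clr a) (fun b => cond (Nat.beq (clr b) 0) false true))

/-- near test on profile entries -/
noncomputable def nr (a b : ℕ × ℕ) : Bool := cond (Nat.beq (Nat.land a.2 b.1) 0) false true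

/-- three classes, `a` and `b` near, `c` the centre -/
noncomputable def tri3 (a b c : ℕ × ℕ) : Bool :=
  cond (big2 a.1) (cond (big2 b.1) true (cond (big4 a.1) (big4 c.1) false))
    (cond (big4 b.1) (big4 c.1) false)

/-- The check for `P(4)`. -/
noncomputable def chk4 (P : List (ℕ × ℕ)) : Bool :=
  List.casesOn P false (fun a P => List.casesOn P false (fun b P => List.casesOn P
    (cond (nr a b) (cond (big2 a.1) (big2 b.1) false) (cond (big4 a.1) (big4 b.1) false))
    (fun c P => List.casesOn P
      (cond (nr a b) (cond (nr a c) true (cond (nr b c) true (tri3 a b c)))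
        (cond (nr a c) (cond (nr b c) true (tri3 a c b))
          (cond (nr b c) (tri3 b c a) true)))
      (fun _ _ => true))))

end Pool.Agent.SA36
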