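import Pool.Agent.SA36.BlockDef

set_option autoImplicit false

/-! Soundness of the block step. -/

namespace Pool.Agent.SA36

open Pool.Agent.SA97.Eng

/-! ### Bits -/

/-- `b` is the mask of the single vertex `x`. -/
def Bit (b x : ℕ) : Prop := ∀ u, b.testBit u = true ↔ u = x

theorem bit_pow (v : ℕ) : Bit (2 ^ v) v := by
  intro u
  rw [testBit_pow, decide_eq_true_eq, eq_comm]

theorem clr_aux : ∀ m : ℕ, m ≠ 0 → ∃ x, m.testBit x = true ∧
    ∀ u, (m &&& (m - 1)).testBit u = true ↔ (m.testBit u = true ∧ u ≠ x) := by
  intro m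
  induction m using Nat.strong_induction_on with
  | _ m ih =>
    intro hm
    rcases Nat.even_or_odd' m with ⟨t, rfl | rfl⟩
    · have ht : t ≠ 0 := by omega
      obtain ⟨x, hx, h⟩ := ih t (by omega) ht
      refine ⟨x + 1, ?_, ?_⟩
      · rw [Nat.testBit_succ]
        simpa using hx
      · intro u
        have e : 2 * t - 1 = 2 * (t - 1) + 1 := by omega
        cases u with
        | zero => simp [e]
        | succ u =>
          have h' := h u
          rw [Nat.testBit_and] at h' ⊢
          rw [e, Nat.testBit_succ, Nat.testBit_succ]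
          have e1 : 2 * t / 2 = t := by omega
          have e2 : (2 * (t - 1) + 1) / 2 = t - 1 := by omega
          rw [e1, e2, h']
          simp
    · refine ⟨0, by simp, ?_⟩
      intro u
      have e : 2 * t + 1 - 1 = 2 * t := by omega
      cases u with
      | zero => simp
      | succ u =>
        rw [Nat.testBit_and, e, Nat.testBit_succ, Nat.testBit_succ]
        have e1 : 2 * t / 2 = t := by omega
        have e2 : (2 * t + 1) / 2 = t := by omega
        rw [e1, e2]
        simp

theorem clr_spec {m : ℕ} (hm : m ≠ 0) : ∃ x, m.testBit x = true ∧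
    (∀ u, (clr m).testBit u = true ↔ (m.testBit u = true ∧ u ≠ x)) ∧ Bit (Nat.xor m (clr m)) x := by
  obtain ⟨x, hx, h⟩ := clr_aux m hm
  have h' : ∀ u, (clr m).testBit u = true ↔ (m.testBit u = true ∧ u ≠ x) := h
  refine ⟨x, hx, h', ?_⟩
  intro u
  rw [testBit_xor']
  have h1 := h' u
  by_cases hu : u = x
  · subst hu
    have h2 : (clr m).testBit u = false := by
      rw [Bool.eq_false_iff]; intro h3; exact (h1.1 h3).2 rfl
    rw [hx, h2]; simp
  · constructor
    · intro h3
      exfalso
      cases h4 : m.testBit u <;> cases h5 : (clr m).testBit u <;> simp_all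
    · intro h3; exact absurd h3 hu

theorem eq_zero_of_bits {m : ℕ} (h : ∀ u, m.testBit u = true → False) : m = 0 := by
  apply Nat.eq_of_testBit_eq
  intro u
  rw [Nat.zero_testBit, Bool.eq_false_iff]
  exact h u

/-- a mask without second bit -/
theorem bit_of_clr {m : ℕ} (hm : m ≠ 0) (h : clr m = 0) : ∃ x, Bit m x := by
  obtain ⟨x, hx, h1, _⟩ := clr_spec hm
  refine ⟨x, fun u => ⟨fun hu => ?_, fun hu => hu ▸ hx⟩⟩
  by_contra hne
  have := (h1 u).2 ⟨hu, hne⟩
  rw [h, Nat.zero_testBit] at this
  exact absurd this (by decide)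

theorem two_of_clr {m : ℕ} (h : clr m ≠ 0) : ∃ x y, x ≠ y ∧ m.testBit x = true ∧
    m.testBit y = true := by
  have hm : m ≠ 0 := by
    rintro rfl
    exact h rfl
  obtain ⟨x, hx, h1, _⟩ := clr_spec hm
  obtain ⟨y, hy, _⟩ := clr_spec h
  have h2 := (h1 y).1 hy
  exact ⟨x, y, Ne.symm h2.2, hx, h2.1⟩

theorem land_bit_zero {m b x : ℕ} (hb : Bit b x) : Nat.land m b = 0 ↔ m.testBit x = false := by
  rw [land_eq_zero]
  constructor
  · intro h
    rw [Bool.eq_false_iff]
    intro h1
    exact h x ⟨h1, (hb x).2 rfl⟩
  · rintro h u ⟨h1, h2⟩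
    rw [(hb u).1 h2] at h1
    rw [h1] at h
    exact absurd h (by decide)

theorem exists_of_land_ne {a b : ℕ} (h : Nat.land a b ≠ 0) : ∃ u, a.testBit u = true ∧
    b.testBit u = true := by
  by_contra hcon
  push Not at hcon
  exact h ((land_eq_zero a b).2 (fun u hu => absurd hu.2 (by simpa using hcon u hu.1)))

theorem testBit_land' (a b u : ℕ) : (Nat.land a b).testBit u = (a.testBit u && b.testBit u) :=
  Nat.testBit_and a b u

/-! ### Postconditions of the continuation-style functions -/

section
variable {β : Type} {Q : β → Prop}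

theorem cond_beq {a b : ℕ} {x y : β} (h1 : a = b → Q x) (h2 : a ≠ b → Q y) :
    Q (cond (Nat.beq a b) x y) := by
  rw [beq_dec]
  by_cases h : a = b
  · rw [decide_eq_true h]; exact h1 h
  · rw [decide_eq_false h]; exact h2 h

theorem force_spec {n : ℕ} {f : ℕ → β} (h : Q (f n)) : Q (force n f) := by
  rw [force_eq]; exact h

theorem grow_spec (δ : ℕ) : ∀ (bs : List ℕ) (m : ℕ) (k : ℕ → β),
    (∀ m', (∀ u, m.testBit u = true → m'.testBit u = true) → Q (k m')) → Q (grow δ bs m k) := by
  intro bs
  induction bs with
  | nil => intro m k h; exact h m (fun _ hu => hu)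
  | cons B bs ih =>
    intro m k h
    change Q (cond (Nat.beq (Nat.land B δ) 0) (grow δ bs m k)
      (force (Nat.lor m B) (fun m' => grow δ bs m' k)))
    refine cond_beq (fun _ => ih m k h) (fun _ => force_spec (ih _ k ?_))
    intro m' hm'
    apply h
    intro u hu
    apply hm'
    rw [testBit_lor, hu, Bool.true_or]

theorem pick_spec (t δ : ℕ) (no : β) (yes : ℕ → β) (hno : Q no) : ∀ (bs : List ℕ),
    (∀ B ∈ bs, Nat.land B t ≠ 0 → Nat.land B δ ≠ 0 → Q (yes B)) → Q (pick t δ no yes bs) := by
  intro bs
  induction bs with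
  | nil => intro _; exact hno
  | cons B bs ih =>
    intro h
    change Q (cond (Nat.beq (Nat.land B t) 0) (pick t δ no yes bs)
      (cond (Nat.beq (Nat.land B δ) 0) (pick t δ no yes bs) (yes B)))
    have ih' := ih (fun B' hB' => h B' (List.mem_cons_of_mem _ hB'))
    exact cond_beq (fun _ => ih') (fun h1 => cond_beq (fun _ => ih') (fun h2 =>
      h B List.mem_cons_self h1 h2))

theorem filt_spec (M : ℕ) : ∀ (bs : List ℕ) (k : List ℕ → β),
    (∀ bs', (∀ B ∈ bs', B ∈ bs) → Q (k bs')) → Q (filt M bs k) := by
  intro bs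
  induction bs with
  | nil => intro k h; exact h [] (fun _ hB => hB)
  | cons B bs ih =>
    intro k h
    change Q (cond (Nat.beq (Nat.land B M) B) (filt M bs k) (filt M bs (fun rs => k (B :: rs))))
    refine cond_beq (fun _ => ih k ?_) (fun _ => ih _ ?_)
    · intro bs' hbs'
      exact h bs' (fun B' hB' => List.mem_cons_of_mem _ (hbs' B' hB'))
    · intro bs' hbs'
      apply h
      intro B' hB'
      rw [List.mem_cons] at hB' ⊢
      rcases hB' with rfl | hB'
      · exact Or.inl rfl
      · exact Or.inr (hbs' B' hB')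

theorem app_spec (bs : List ℕ) : ∀ (as : List ℕ) (k : List ℕ → β),
    (∀ bs', (∀ B ∈ bs', B ∈ as ∨ B ∈ bs) → Q (k bs')) → Q (app as bs k) := by
  intro as
  induction as with
  | nil => intro k h; exact h bs (fun _ hB => Or.inr hB)
  | cons B as ih =>
    intro k h
    change Q (app as bs (fun rs => k (B :: rs)))
    refine ih _ ?_
    intro bs' hbs'
    apply h
    intro B' hB'
    rw [List.mem_cons] at hB' ⊢
    rcases hB' with rfl | hB'
    · exact Or.inl (Or.inl rfl)
    · rcases hbs' B' hB' with h1 | h1
      · exact Or.inl (Or.inr h1)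
      · exact Or.inr h1

end

/-! ### Hypergraphs -/

section
variable {D : Type*} {near : D → D → Prop} {cls : ℕ → D} {par : ℕ → ℕ} {n : ℕ}

/-- Chains of hyperedges. -/
def Ch {E : Type} (mem : E → ℕ → Prop) : ℕ → List (E × ℕ) → ℕ → Prop
  | z, [], t => z = t
  | z, p :: l, t => mem p.1 z ∧ mem p.1 p.2 ∧ Ch mem p.2 l t

theorem Ch.append {E : Type} {mem : E → ℕ → Prop} : ∀ (l l' : List (E × ℕ)) (z w t : ℕ),
    Ch mem z l w → Ch mem w l' t → Ch mem z (l ++ l') t := by
  intro l
  induction l with
  | nil =>
    intro l' z w t h1 h2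
    have h1' : z = w := h1
    subst h1'
    exact h2
  | cons p l ih =>
    intro l' z w t h1 h2
    exact ⟨h1.1, h1.2.1, ih l' _ w t h1.2.2 h2⟩

theorem Ch.mem_snd {E : Type} {mem : E → ℕ → Prop} : ∀ (l : List (E × ℕ)) (z t : ℕ),
    Ch mem z l t → ∀ p ∈ l, mem p.1 p.2 := by
  intro l
  induction l with
  | nil => intro z t _ p hp; exact absurd hp List.not_mem_nil
  | cons q l ih =>
    intro z t h p hp
    rw [List.mem_cons] at hp
    rcases hp with rfl | hp
    · exact h.2.1
    · exact ih _ _ h.2.2 p hp

variable (near cls par n) in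
/-- The abstract hypergraph of a host restricted to the vertices `0, ..., n-1` of a tree. -/
structure HG where
  E : Type
  mem : E → ℕ → Prop
  cov : ∀ u v, u < v → v < n → u ≠ par v → ¬near (cls u) (cls v) → ∃ e, mem e u ∧ mem e v
  acyc : ∀ (z : ℕ) (l : List (E × ℕ)), Ch mem z l z → (l.map Prod.snd).Nodup → 2 ≤ l.length →
    (∀ p ∈ l, p.2 < n) → ∀ p ∈ l, ∀ q ∈ l, p.1 = q.1

namespace HG

variable (H : HG near cls par n)

/-- Vertices below `v` in a common hyperedge. -/
def A (v : ℕ) : SimpleGraph ℕ where
  Adj u w := u ≠ w ∧ u < v ∧ w < v ∧ ∃ e, H.mem e u ∧ H.mem e w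
  symm := ⟨by
    rintro u w ⟨h1, h2, h3, e, h4, h5⟩
    exact ⟨h1.symm, h3, h2, e, h5, h4⟩⟩
  loopless := ⟨fun u h => h.1 rfl⟩

theorem chain_of_walk {v y y' : ℕ} (p : (H.A v).Walk y y') :
    ∃ l, Ch H.mem y l y' ∧ l.map Prod.snd = p.support.tail := by
  induction p with
  | nil => exact ⟨[], rfl, rfl⟩
  | cons h p ih =>
    rename_i u w x
    obtain ⟨l, hl, hl'⟩ := ih
    obtain ⟨e, h4, h5⟩ := h.2.2.2
    refine ⟨(e, w) :: l, ⟨h4, h5, hl⟩, ?_⟩
    rw [List.map_cons, hl', SimpleGraph.Walk.support_cons, List.tail_cons]
    exact (SimpleGraph.Walk.cons_tail_support p)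

theorem walk_lt {v y y' : ℕ} (hy : y < v) (p : (H.A v).Walk y y') : ∀ u ∈ p.support, u < v := by
  induction p with
  | nil =>
    intro u hu
    rw [SimpleGraph.Walk.support_nil, List.mem_singleton] at hu
    rwa [hu]
  | cons h p ih =>
    intro u hu
    rw [SimpleGraph.Walk.support_cons, List.mem_cons] at hu
    rcases hu with rfl | hu
    · exact hy
    · exact ih h.2.2.1 u hu

/-- Two neighbours of a new vertex in one component lie in the same hyperedge as the new vertex. -/
theorem same {v y y' : ℕ} (hv : v < n) (hy : y < v)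
    (hr : (H.A v).Reachable y y') {e1 e2 : H.E} (h1 : H.mem e1 v) (h2 : H.mem e1 y)
    (h3 : H.mem e2 v) (h4 : H.mem e2 y') : e1 = e2 := by
  classical
  obtain ⟨p, hp⟩ := hr.exists_isPath
  obtain ⟨l, hl, hl'⟩ := H.chain_of_walk p
  have hlt := H.walk_lt hy p
  have hsup : y :: l.map Prod.snd = p.support := by
    rw [hl']; exact SimpleGraph.Walk.cons_tail_support p
  have hc : Ch H.mem v ((e1, y) :: (l ++ [(e2, v)])) v :=
    ⟨h1, h2, Ch.append l _ _ _ _ hl ⟨h4, h3, rfl⟩⟩
  have hnd : (((e1, y) :: (l ++ [(e2, v)])).map Prod.snd).Nodup := by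
    have e : ((e1, y) :: (l ++ [(e2, v)])).map Prod.snd = p.support ++ [v] := by
      rw [← hsup]; simp
    rw [e, List.nodup_append]
    refine ⟨hp.support_nodup, by simp, ?_⟩
    intro a ha b hb
    rw [List.mem_singleton] at hb
    have := hlt a ha
    omega
  have hall : ∀ q ∈ ((e1, y) :: (l ++ [(e2, v)])), q.2 < n := by
    intro q hq
    have h5 : q.2 ∈ ((e1, y) :: (l ++ [(e2, v)])).map Prod.snd := List.mem_map_of_mem hq
    have e : ((e1, y) :: (l ++ [(e2, v)])).map Prod.snd = p.support ++ [v] := by
      rw [← hsup]; simp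
    rw [e, List.mem_append, List.mem_singleton] at h5
    rcases h5 with h5 | h5
    · have := hlt _ h5
      omega
    · omega
  exact H.acyc v _ hc hnd (by simp) hall (e1, y) (by simp) (e2, v) (by simp)

/-- Result of the path search. -/
def Res (v m acc z : ℕ) (δ : ℕ) : Prop :=
  ∃ x, Bit z x ∧ δ.testBit x = true ∧ ∃ l, Ch H.mem x l v ∧ (l.map Prod.snd).Nodup ∧ l ≠ [] ∧
    (∀ p ∈ l, m.testBit p.2 = false ∧ p.2 < n) ∧
    ∀ u, acc.testBit u = true → u < v + 1 ∧ ∃ p ∈ l, H.mem p.1 u

/-- The blocks lie in hyperedges. -/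
def Blocks (v : ℕ) (bs : List ℕ) : Prop :=
  ∀ B ∈ bs, ∃ e, ∀ u, B.testBit u = true → u < v ∧ H.mem e u

theorem go_spec {β : Type} {Q : β → Prop} {v : ℕ} (hv : v < n) {bs : List ℕ}
    (hbs : H.Blocks (v + 1) bs) {t : ℕ} (ht : Bit t v) {no : β} (hno : Q no) :
    ∀ (fuel δ m : ℕ) (yes : ℕ → ℕ → β), (∀ u, δ.testBit u = true → m.testBit u = true) →
      m.testBit v = false →
      (∀ acc z, H.Res v m acc z δ → Q (yes acc z)) → Q (go bs t no fuel δ m yes) := by
  intro fuel
  induction fuel with
  | zero => intro δ m yes _ _ _; exact hno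
  | succ fuel ih =>
    intro δ m yes hδ hm hyes
    change Q (grow δ bs m (fun m' =>
      cond (Nat.beq (Nat.land m' t) 0)
        (force (Nat.xor m' m) (fun δ' => cond (Nat.beq δ' 0) no
          (go bs t no fuel δ' m' (fun acc z => pick z δ no (fun B => force (Nat.land B δ) (fun q =>
            force (Nat.lor acc B) (fun acc' => force (Nat.xor q (clr q)) (fun z' =>
              yes acc' z')))) bs))))
        (pick t δ no (fun B => force (Nat.land B δ) (fun q =>
          force (Nat.xor q (clr q)) (fun z => yes B z))) bs)))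
    apply grow_spec
    intro m' hm'
    refine cond_beq (fun h0 => force_spec (cond_beq (fun _ => hno) (fun _ => ?_))) (fun _ => ?_)
    · rw [land_bit_zero ht] at h0
      have hx : ∀ u, (Nat.xor m' m).testBit u = true → m'.testBit u = true ∧
          m.testBit u = false := by
        intro u hu
        rw [testBit_xor'] at hu
        have := hm' u
        cases h1 : m.testBit u <;> cases h2 : m'.testBit u <;> simp_all
      refine ih _ _ _ (fun u hu => (hx u hu).1) h0 ?_
      rintro acc z ⟨x, hz, hxδ, l, hl, hnd, hne, hav, hacc⟩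
      refine pick_spec _ _ _ _ hno _ ?_
      intro B hB hBz hBδ
      refine force_spec (force_spec (force_spec ?_))
      obtain ⟨x', hx', _, hbit⟩ := clr_spec hBδ
      rw [testBit_land', Bool.and_eq_true] at hx'
      apply hyes
      obtain ⟨e, he⟩ := hbs B hB
      have hBx : B.testBit x = true := by
        obtain ⟨w, hw1, hw2⟩ := exists_of_land_ne hBz
        rwa [(hz w).1 hw2] at hw1
      refine ⟨x', hbit, hx'.2, (e, x) :: l, ⟨(he x' hx'.1).2, (he x hBx).2, hl⟩, ?_, by simp, ?_, ?_⟩
      · rw [List.map_cons, List.nodup_cons]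
        refine ⟨?_, hnd⟩
        intro hmem
        obtain ⟨p, hp, hp'⟩ := List.mem_map.1 hmem
        have h1 := (hav p hp).1
        rw [hp', (hx x hxδ).1] at h1
        exact absurd h1 (by decide)
      · intro p hp
        rw [List.mem_cons] at hp
        rcases hp with rfl | hp
        · refine ⟨(hx x hxδ).2, ?_⟩
          have := (he x hBx).1
          simp only
          omega
        · refine ⟨?_, (hav p hp).2⟩
          rw [Bool.eq_false_iff]
          intro h1
          have h2 := hm' _ h1
          rw [(hav p hp).1] at h2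
          exact absurd h2 (by decide)
      · intro u hu
        rw [testBit_lor, Bool.or_eq_true] at hu
        rcases hu with hu | hu
        · obtain ⟨huv, p, hp, hp'⟩ := hacc u hu
          exact ⟨huv, p, List.mem_cons_of_mem _ hp, hp'⟩
        · exact ⟨(he u hu).1, (e, x), List.mem_cons_self, (he u hu).2⟩
    · refine pick_spec _ _ _ _ hno _ ?_
      intro B hB hBt hBδ
      refine force_spec (force_spec ?_)
      obtain ⟨x', hx', _, hbit⟩ := clr_spec hBδ
      rw [testBit_land', Bool.and_eq_true] at hx'
      apply hyes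
      obtain ⟨e, he⟩ := hbs B hB
      have hBv : B.testBit v = true := by
        obtain ⟨w, hw1, hw2⟩ := exists_of_land_ne hBt
        rwa [(ht w).1 hw2] at hw1
      refine ⟨x', hbit, hx'.2, [(e, v)], ⟨(he x' hx'.1).2, (he v hBv).2, rfl⟩, by simp, by simp,
        ?_, ?_⟩
      · intro p hp
        rw [List.mem_singleton] at hp
        subst hp
        exact ⟨hm, hv⟩
      · intro u hu
        exact ⟨(he u hu).1, (e, v), List.mem_cons_self, (he u hu).2⟩

/-- Every bit of `X` is a vertex below `v` in a common hyperedge with `v`. -/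
def Xok (v X : ℕ) : Prop := ∀ u, X.testBit u = true → u < v ∧ ∃ e, H.mem e u ∧ H.mem e v

theorem loop_spec {β : Type} {Q : β → Prop} {v : ℕ} (hv : v < n) {t : ℕ} (ht : Bit t v)
    {k : List ℕ → β} (hk : ∀ bs, H.Blocks (v + 1) bs → Q (k bs)) :
    ∀ (fuel X : ℕ) (bs : List ℕ) (vb : ℕ), H.Xok v X → H.Blocks (v + 1) bs →
      Q (loop t k fuel X bs vb) := by
  intro fuel
  induction fuel with
  | zero => intro X bs vb _ hbs; exact hk bs hbs
  | succ fuel ih =>
    intro X bs vb hX hbs
    change Q (cond (Nat.beq X 0) (k bs)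
      (force (clr X) (fun X' => force (Nat.xor X X') (fun b =>
        cond (Nat.beq (Nat.land b vb) 0)
          (go bs t (force (Nat.lor b t) (fun B => force (Nat.lor vb b) (fun vb' =>
              loop t k fuel X' (B :: bs) vb'))) 12 b b
            (fun acc _ => force (Nat.lor acc (Nat.lor b t)) (fun B =>
              force (Nat.lor vb B) (fun vb' => filt B bs (fun bs' => loop t k fuel X' (B :: bs') vb')))))
          (loop t k fuel X' bs vb)))))
    refine cond_beq (fun _ => hk bs hbs) (fun hX0 => force_spec (force_spec ?_))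
    obtain ⟨x, hx, hclr, hbit⟩ := clr_spec hX0
    have hX' : H.Xok v (clr X) := fun u hu => hX u ((hclr u).1 hu).1
    obtain ⟨hxv, e0, he0x, he0v⟩ := hX x hx
    have hpair : ∃ e, ∀ u, (Nat.lor (Nat.xor X (clr X)) t).testBit u = true →
        u < v + 1 ∧ H.mem e u := by
      refine ⟨e0, fun u hu => ?_⟩
      rw [testBit_lor, Bool.or_eq_true] at hu
      rcases hu with hu | hu
      · rw [(hbit u).1 hu]; exact ⟨by omega, he0x⟩
      · rw [(ht u).1 hu]; exact ⟨by omega, he0v⟩
    refine cond_beq (fun _ => ?_) (fun _ => ih _ _ _ hX' hbs)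
    refine H.go_spec hv hbs ht ?_ _ _ _ _ (fun u hu => hu) ?_ ?_
    · refine force_spec (force_spec (ih _ _ _ hX' ?_))
      intro B hB
      rw [List.mem_cons] at hB
      rcases hB with rfl | hB
      · exact hpair
      · exact hbs B hB
    · rw [Bool.eq_false_iff]
      intro h
      have := (hbit v).1 h
      omega
    · rintro acc z ⟨y, hz, hy, l, hl, hnd, hne, hav, hacc⟩
      have hyx : y = x := (hbit y).1 hy
      subst hyx
      -- all hyperedges are equal to `e0`
      have hall : ∀ p ∈ l, p.1 = e0 := by
        have hc : Ch H.mem v ((e0, y) :: l) v := ⟨he0v, he0x, hl⟩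
        have hnd' : (((e0, y) :: l).map Prod.snd).Nodup := by
          rw [List.map_cons, List.nodup_cons]
          refine ⟨?_, hnd⟩
          intro hmem
          obtain ⟨p, hp, hp'⟩ := List.mem_map.1 hmem
          have h1 := (hav p hp).1
          rw [hp', hy] at h1
          exact absurd h1 (by decide)
        have hlen : 2 ≤ ((e0, y) :: l).length := by
          rw [List.length_cons]
          have := List.length_pos_iff.2 hne
          omega
        intro p hp
        refine H.acyc v _ hc hnd' hlen ?_ p (List.mem_cons_of_mem _ hp) (e0, y) List.mem_cons_self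
        intro q hq
        rw [List.mem_cons] at hq
        rcases hq with rfl | hq
        · simp only; omega
        · exact (hav q hq).2
      -- vertices of `acc` are below `v + 1`: use blocks
      refine force_spec (force_spec (filt_spec _ _ _ ?_))
      intro bs' hbs'
      refine ih _ _ _ hX' ?_
      intro B hB
      rw [List.mem_cons] at hB
      rcases hB with rfl | hB
      · refine ⟨e0, fun u hu => ?_⟩
        rw [testBit_lor, testBit_lor, Bool.or_eq_true, Bool.or_eq_true] at hu
        rcases hu with hu | hu | hu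
        · obtain ⟨huv, p, hp, hp'⟩ := hacc u hu
          rw [hall p hp] at hp'
          exact ⟨huv, hp'⟩
        · rw [(hbit u).1 hu]; exact ⟨by omega, he0x⟩
        · rw [(ht u).1 hu]; exact ⟨by omega, he0v⟩
      · exact hbs B (hbs' B hB)

theorem pairs_spec {β : Type} {Q : β → Prop} {v : ℕ} {t : ℕ} (ht : Bit t v)
    {k : List ℕ → β} (hk : ∀ bs, H.Blocks (v + 1) bs → Q (k bs)) :
    ∀ (fuel X : ℕ) (bs : List ℕ), H.Xok v X → H.Blocks (v + 1) bs →
      Q (pairs t k fuel X bs) := by
  intro fuel
  induction fuel with
  | zero => intro X bs _ hbs; exact hk bs hbs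
  | succ fuel ih =>
    intro X bs hX hbs
    change Q (cond (Nat.beq X 0) (k bs)
      (force (clr X) (fun X' => force (Nat.lor (Nat.xor X X') t) (fun B =>
        pairs t k fuel X' (B :: bs)))))
    refine cond_beq (fun _ => hk bs hbs) (fun hX0 => force_spec (force_spec ?_))
    obtain ⟨x, hx, hclr, hbit⟩ := clr_spec hX0
    obtain ⟨hxv, e0, he0x, he0v⟩ := hX x hx
    refine ih _ _ (fun u hu => hX u ((hclr u).1 hu).1) ?_
    intro B hB
    rw [List.mem_cons] at hB
    rcases hB with rfl | hB
    · refine ⟨e0, fun u hu => ?_⟩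
      rw [testBit_lor, Bool.or_eq_true] at hu
      rcases hu with hu | hu
      · rw [(hbit u).1 hu]; exact ⟨by omega, he0x⟩
      · rw [(ht u).1 hu]; exact ⟨by omega, he0v⟩
    · exact hbs B hB

/-- The invariant. -/
def Inv (v : ℕ) (cs : List Cm) : Prop :=
  ∀ c ∈ cs, H.Blocks v c.bs ∧ (∀ u, c.M.testBit u = true → u < v) ∧
    ∀ u w, c.M.testBit u = true → c.M.testBit w = true → (H.A v).Reachable u w

theorem A_mono {v w : ℕ} (h : v ≤ w) : H.A v ≤ H.A w := by
  rintro x y ⟨h1, h2, h3, h4⟩
  exact ⟨h1, by omega, by omega, h4⟩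

theorem Inv.mono {v w : ℕ} {c : Cm} (h : v ≤ w)
    (hc : H.Blocks v c.bs ∧ (∀ u, c.M.testBit u = true → u < v) ∧
      ∀ u w, c.M.testBit u = true → c.M.testBit w = true → (H.A v).Reachable u w) :
    H.Blocks w c.bs ∧ (∀ u, c.M.testBit u = true → u < w) ∧
      ∀ u u', c.M.testBit u = true → c.M.testBit u' = true → (H.A w).Reachable u u' := by
  refine ⟨?_, ?_, ?_⟩
  · intro B hB
    obtain ⟨e, he⟩ := hc.1 B hB
    exact ⟨e, fun u hu => ⟨by have := (he u hu).1; omega, (he u hu).2⟩⟩
  · intro u hu
    have := hc.2.1 u hu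
    omega
  · intro u u' hu hu'
    exact (hc.2.2 u u' hu hu').mono (H.A_mono h)

/-- Hypothesis on the check: it never fires on the profile of a set of vertices of one hyperedge. -/
def ChkOK (chk : List (ℕ × ℕ) → Bool) : Prop :=
  ∀ (e : H.E) (B : ℕ) (cs : List D) (P : List (ℕ × ℕ)), (∀ u, B.testBit u = true → u < n ∧ H.mem e u) →
    cs.Nodup → List.Forall₂ (fun (c : D) (q : ℕ × ℕ) =>
      (∀ u, q.1.testBit u = true ↔ (B.testBit u = true ∧ cls u = c)) ∧
      (∀ u, B.testBit u = true → (q.2.testBit u = true ↔ near (cls u) c)) ∧ q.1 ≠ 0) cs P →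
    (∀ u, B.testBit u = true → cls u ∈ cs) → chk P = false

theorem prof_spec {v : ℕ} (hv : v < n) {ds : List D} {R : List Cl} {X S : ℕ}
    (hpv : par v < v) (hnp : ¬near (cls (par v)) (cls v)) (hN : Near near)
    (hV : Valid near cls v ds R)
    (hX : ∀ u, X.testBit u = true ↔ (u < v ∧ u ≠ par v ∧ ¬near (cls u) (cls v)))
    (hS : ∀ u, S.testBit u = true ↔ (u < v ∧ cls u = cls v))
    {chk : List (ℕ × ℕ) → Bool} (hchk : H.ChkOK chk) {B : ℕ} {e : H.E}
    (hB : ∀ u, B.testBit u = true → u < v + 1 ∧ H.mem e u) (hBv : B.testBit v = true) :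
    prof B S (Nat.lor X (2 ^ par v)) (2 ^ v) chk R (cond (Nat.beq S 0)
      [(2 ^ v, Nat.lor (Nat.xor (Nat.pred (2 ^ v)) (Nat.lor X (2 ^ par v))) (2 ^ v))] []) = false := by
  classical
  set F := Nat.lor X (2 ^ par v) with hF
  have hFspec : ∀ u, F.testBit u = true ↔ (u < v ∧ ¬near (cls u) (cls v)) := by
    intro u
    rw [hF, testBit_lor, Bool.or_eq_true, hX, testBit_pow, decide_eq_true_eq]
    constructor
    · rintro (⟨h1, _, h2⟩ | rfl)
      · exact ⟨h1, h2⟩
      · exact ⟨hpv, hnp⟩
    · rintro ⟨h1, h2⟩
      by_cases h3 : u = par v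
      · exact Or.inr h3.symm
      · exact Or.inl ⟨h1, h3, h2⟩
  -- entries
  let Ent : D → ℕ × ℕ → Prop := fun c q =>
      (∀ u, q.1.testBit u = true ↔ (B.testBit u = true ∧ cls u = c)) ∧
      (∀ u, B.testBit u = true → (q.2.testBit u = true ↔ near (cls u) c)) ∧ q.1 ≠ 0
  have key : ∀ (ds' : List D) (R' : List Cl) (cs : List D) (P : List (ℕ × ℕ)),
      ds'.Nodup → (∀ d ∈ ds', d ∈ ds) → List.Forall₂ (Rec near cls v ds) ds' R' →
      cs.Nodup → List.Forall₂ Ent cs P → (∀ c ∈ cs, c ∉ ds') →
      (∀ u, B.testBit u = true → cls u ∈ cs ∨ cls u ∈ ds') →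
      prof B S F (2 ^ v) chk R' P = false := by
    intro ds'
    induction ds' with
    | nil =>
      intro R' cs P _ _ hR' hcs hP _ hall
      have hR : R' = [] := by
        cases hR'; rfl
      subst hR
      refine hchk e B cs P (fun u hu => ⟨by have := (hB u hu).1; omega, (hB u hu).2⟩) hcs hP ?_
      intro u hu
      rcases hall u hu with h | h
      · exact h
      · exact absurd h List.not_mem_nil
    | cons d ds' ih =>
      intro R' cs P hnd hsub hR' hcs hP hdisj hall
      cases hR' with
      | cons hr hR' =>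
        rename_i r R'
        change (force (Nat.land B (cond (Nat.beq r.C S) (Nat.lor r.C (2 ^ v)) r.C)) (fun m =>
          cond (Nat.beq m 0) (prof B S F (2 ^ v) chk R' P)
            (force (cond (Nat.beq (Nat.land r.C F) 0) (Nat.lor r.K (2 ^ v)) r.K) (fun kk =>
              prof B S F (2 ^ v) chk R' ((m, kk) :: P))))) = false
        have hd : d ∈ ds := hsub d List.mem_cons_self
        rw [List.nodup_cons] at hnd
        -- the class mask
        have hCS : (r.C = S) ↔ d = cls v := by
          constructor
          · intro h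
            obtain ⟨u, hu, hud⟩ := (hV.mem d).1 hd
            have h1 := (hr.hC u).2 ⟨hu, hud⟩
            rw [h] at h1
            rw [← hud, ((hS u).1 h1).2]
          · intro h
            apply Nat.eq_of_testBit_eq
            intro u
            rw [Bool.eq_iff_iff, hr.hC, hS, h]
        have hC' : ∀ u, (cond (Nat.beq r.C S) (Nat.lor r.C (2 ^ v)) r.C).testBit u = true ↔
            (u < v + 1 ∧ cls u = d) := by
          intro u
          rw [beq_dec]
          by_cases h : r.C = S
          · rw [decide_eq_true h, cond_true, testBit_lor, Bool.or_eq_true, hr.hC, testBit_pow,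
              decide_eq_true_eq]
            have h2 := hCS.1 h
            constructor
            · rintro (⟨h3, h4⟩ | rfl)
              · exact ⟨by omega, h4⟩
              · exact ⟨by omega, h2.symm⟩
            · rintro ⟨h3, h4⟩
              by_cases h5 : u = v
              · exact Or.inr h5.symm
              · exact Or.inl ⟨by omega, h4⟩
          · rw [decide_eq_false h, cond_false, hr.hC]
            constructor
            · rintro ⟨h3, h4⟩; exact ⟨by omega, h4⟩
            · rintro ⟨h3, h4⟩
              refine ⟨?_, h4⟩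
              by_contra h5
              have h6 : u = v := by omega
              subst h6
              exact h (hCS.2 h4.symm)
        have hK' : ∀ u, u < v + 1 → ((cond (Nat.beq (Nat.land r.C F) 0) (Nat.lor r.K (2 ^ v))
            r.K).testBit u = true ↔ near (cls u) d) := by
          intro u hu
          have h1 : Nat.land r.C F = 0 ↔ near d (cls v) := by
            obtain ⟨w, hw, hwd⟩ := (hV.mem d).1 hd
            rw [land_eq_zero]
            constructor
            · intro h2
              by_contra h3
              exact h2 w ⟨(hr.hC w).2 ⟨hw, hwd⟩, (hFspec w).2 ⟨hw, by rw [hwd]; exact h3⟩⟩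
            · rintro h2 u' ⟨h3, h4⟩
              have h5 := (hr.hC u').1 h3
              have h6 := (hFspec u').1 h4
              rw [h5.2] at h6
              exact h6.2 h2
          rw [beq_dec]
          by_cases h : Nat.land r.C F = 0
          · rw [decide_eq_true h, cond_true, testBit_lor, Bool.or_eq_true, hr.hK, testBit_pow,
              decide_eq_true_eq]
            constructor
            · rintro (⟨_, h4⟩ | rfl)
              · exact h4
              · exact hN.symm _ _ (h1.1 h)
            · intro h4
              by_cases h5 : u = v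
              · exact Or.inr h5.symm
              · exact Or.inl ⟨by omega, h4⟩
          · rw [decide_eq_false h, cond_false, hr.hK]
            constructor
            · rintro ⟨_, h4⟩; exact h4
            · intro h4
              refine ⟨?_, h4⟩
              by_contra h5
              have h6 : u = v := by omega
              subst h6
              exact h (h1.2 (hN.symm _ _ h4))
        rw [force_eq, beq_dec]
        by_cases hm : Nat.land B (cond (Nat.beq r.C S) (Nat.lor r.C (2 ^ v)) r.C) = 0
        · rw [decide_eq_true hm, cond_true]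
          refine ih R' cs P hnd.2 (fun d' hd' => hsub d' (List.mem_cons_of_mem _ hd')) hR' hcs hP
            (fun c hc hc' => hdisj c hc (List.mem_cons_of_mem _ hc')) ?_
          intro u hu
          rcases hall u hu with h | h
          · exact Or.inl h
          · rw [List.mem_cons] at h
            rcases h with h | h
            · exfalso
              rw [land_eq_zero] at hm
              exact hm u ⟨hu, (hC' u).2 ⟨(hB u hu).1, h⟩⟩
            · exact Or.inr h
        · rw [decide_eq_false hm, cond_false, force_eq]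
          refine ih R' (d :: cs) _ hnd.2 (fun d' hd' => hsub d' (List.mem_cons_of_mem _ hd')) hR'
            ?_ (List.Forall₂.cons ⟨?_, ?_, hm⟩ hP) ?_ ?_
          · rw [List.nodup_cons]
            exact ⟨fun h => hdisj d h List.mem_cons_self, hcs⟩
          · intro u
            rw [testBit_land', Bool.and_eq_true, hC']
            constructor
            · rintro ⟨h1, _, h2⟩; exact ⟨h1, h2⟩
            · rintro ⟨h1, h2⟩; exact ⟨h1, (hB u h1).1, h2⟩
          · intro u hu
            exact hK' u (hB u hu).1
          · intro c hc hc'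
            rw [List.mem_cons] at hc
            rcases hc with rfl | hc
            · exact hnd.1 hc'
            · exact hdisj c hc (List.mem_cons_of_mem _ hc')
          · intro u hu
            rcases hall u hu with h | h
            · exact Or.inl (List.mem_cons_of_mem _ h)
            · rw [List.mem_cons] at h
              rcases h with h | h
              · left; rw [h]; exact List.mem_cons_self
              · exact Or.inr h
  by_cases hS0 : S = 0
  · have hnew : cls v ∉ ds := by
      intro h
      obtain ⟨u, hu, hud⟩ := (hV.mem _).1 h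
      have := (hS u).2 ⟨hu, hud⟩
      rw [hS0, Nat.zero_testBit] at this
      exact absurd this (by decide)
    rw [hS0]
    change prof B 0 F (2 ^ v) chk R [(2 ^ v, Nat.lor (Nat.xor (Nat.pred (2 ^ v)) F) (2 ^ v))] = false
    rw [← hS0]
    refine key ds R [cls v] _ hV.nodup (fun d hd => hd) hV.recs (by simp)
      (List.Forall₂.cons ⟨?_, ?_, ?_⟩ List.Forall₂.nil) ?_ ?_
    · intro u
      rw [testBit_pow, decide_eq_true_eq]
      constructor
      · rintro rfl; exact ⟨hBv, rfl⟩
      · rintro ⟨h1, h2⟩
        by_contra h3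
        have h4 := (hB u h1).1
        exact hnew ((hV.mem _).2 ⟨u, by omega, h2⟩)
    · intro u hu
      have hpred : ∀ u, (Nat.pred (2 ^ v)).testBit u = decide (u < v) := fun u =>
        Nat.testBit_two_pow_sub_one v u
      have h1 := (hB u hu).1
      have h2 := hFspec u
      simp only
      rw [testBit_lor, testBit_xor', hpred, testBit_pow]
      by_cases h3 : u = v
      · subst h3
        simp [hN.refl]
      · have h4 : u < v := by omega
        by_cases h5 : near (cls u) (cls v)
        · have h6 : F.testBit u = false := by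
            rw [Bool.eq_false_iff]; intro h7; exact (h2.1 h7).2 h5
          simp [h6, h4, h5]
        · have h6 := h2.2 ⟨h4, h5⟩
          simp [h6, h4, h5, Ne.symm h3]
    · intro h
      have h1 := Nat.two_pow_pos v
      simp only at h
      omega
    · intro c hc hc'
      rw [List.mem_singleton] at hc
      subst hc
      exact hnew hc'
    · intro u hu
      by_cases h3 : u = v
      · left; rw [h3]; exact List.mem_singleton.2 rfl
      · right
        have h4 := (hB u hu).1
        exact (hV.mem _).2 ⟨u, by omega, rfl⟩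
  · rw [beq_dec, decide_eq_false hS0, cond_false]
    refine key ds R [] [] hV.nodup (fun d hd => hd) hV.recs List.nodup_nil List.Forall₂.nil
      (fun c hc => absurd hc List.not_mem_nil) ?_
    intro u hu
    right
    by_cases h3 : u = v
    · subst h3
      by_contra hcon
      apply hS0
      apply eq_zero_of_bits
      intro w hw
      have h1 := (hS w).1 hw
      exact hcon ((hV.mem _).2 ⟨w, h1.1, h1.2⟩)
    · have h4 := (hB u hu).1
      exact (hV.mem _).2 ⟨u, by omega, rfl⟩

theorem checks_spec {v : ℕ} (hv : v < n) {ds : List D} {R : List Cl} {X S : ℕ}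
    (hpv : par v < v) (hnp : ¬near (cls (par v)) (cls v)) (hN : Near near)
    (hV : Valid near cls v ds R)
    (hX : ∀ u, X.testBit u = true ↔ (u < v ∧ u ≠ par v ∧ ¬near (cls u) (cls v)))
    (hS : ∀ u, S.testBit u = true ↔ (u < v ∧ cls u = cls v))
    {chk : List (ℕ × ℕ) → Bool} (hchk : H.ChkOK chk) : ∀ (bs : List ℕ), H.Blocks (v + 1) bs →
    checks chk S (Nat.lor X (2 ^ par v)) (2 ^ v) R bs = false := by
  intro bs
  induction bs with
  | nil => intro _; rfl
  | cons B bs ih =>
    intro hbs
    have ih' := ih (fun B' hB' => hbs B' (List.mem_cons_of_mem _ hB'))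
    change (cond (Nat.beq (Nat.land B (2 ^ v)) 0) (checks chk S (Nat.lor X (2 ^ par v)) (2 ^ v) R bs)
      (cond (Nat.beq (clr (clr B)) 0) (checks chk S (Nat.lor X (2 ^ par v)) (2 ^ v) R bs)
        (cond (prof B S (Nat.lor X (2 ^ par v)) (2 ^ v) chk R (cond (Nat.beq S 0)
          [(2 ^ v, Nat.lor (Nat.xor (Nat.pred (2 ^ v)) (Nat.lor X (2 ^ par v))) (2 ^ v))] []))
          true (checks chk S (Nat.lor X (2 ^ par v)) (2 ^ v) R bs)))) = false
    refine cond_beq (Q := fun b => b = false) (fun _ => ih') (fun h1 =>
      cond_beq (Q := fun b => b = false) (fun _ => ih') (fun _ => ?_))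
    obtain ⟨e, he⟩ := hbs B List.mem_cons_self
    have hBv : B.testBit v = true := by
      rw [Ne, land_bit_zero (bit_pow v), Bool.not_eq_false] at h1
      exact h1
    rw [H.prof_spec hv hpv hnp hN hV hX hS hchk he hBv, cond_false]
    exact ih'

theorem precheck_spec {v : ℕ} (hv : v < n) (hN : Near near) {ds : List D} {R : List Cl} {X : ℕ}
    (hV : Valid near cls v ds R)
    (hX : ∀ u, X.testBit u = true ↔ (u < v ∧ u ≠ par v ∧ ¬near (cls u) (cls v)))
    (htri : ∀ (e : H.E) u w x, H.mem e u → H.mem e w → H.mem e x → u < n → w < n → x < n →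
      ¬near (cls u) (cls w) → ¬near (cls u) (cls x) → near (cls w) (cls x)) :
    ∀ (cs : List Cm), H.Inv v cs → precheck X R cs = false := by
  intro cs
  induction cs with
  | nil => intro _; rfl
  | cons c cs ih =>
    intro hcs
    have ih' := ih (fun c' hc' => hcs c' (List.mem_cons_of_mem _ hc'))
    change force (Nat.land c.M X) (fun Y => cond (Nat.beq (clr Y) 0) (precheck X R cs)
      (cond (pre Y R) true (precheck X R cs))) = false
    rw [force_eq]
    refine cond_beq (Q := fun b => b = false) (fun _ => ih') (fun _ => ?_)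
    have hpre : ∀ (ds' : List D) (R' : List Cl), List.Forall₂ (Rec near cls v ds) ds' R' →
        pre (Nat.land c.M X) R' = false := by
      intro ds'
      induction ds' with
      | nil =>
        intro R' hR'
        have hR : R' = [] := by cases hR'; rfl
        subst hR
        rfl
      | cons d ds' ih2' =>
        intro R' hR'
        cases hR' with
        | cons hr hR' =>
        rename_i r R'
        have ih2 := ih2' R' hR'
        change (cond (Nat.beq (Nat.land r.C (Nat.land c.M X)) 0) (pre (Nat.land c.M X) R')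
          (cond (Nat.beq (Nat.land (Nat.land c.M X) r.K) (Nat.land c.M X)) (pre (Nat.land c.M X) R')
            true)) = false
        refine cond_beq (Q := fun b => b = false) (fun _ => ih2) (fun h1 =>
          cond_beq (Q := fun b => b = false) (fun _ => ih2) (fun h2 => ?_))
        exfalso
        apply h2
        apply Nat.eq_of_testBit_eq
        intro u
        rw [testBit_land']
        cases hu : (Nat.land c.M X).testBit u
        · rfl
        · rw [Bool.true_and, hr.hK]
          obtain ⟨w, hw1, hw2⟩ := exists_of_land_ne h1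
          rw [testBit_land', Bool.and_eq_true] at hu hw2
          have hw3 := (hr.hC w).1 hw1
          have hu3 := (hX u).1 hu.2
          have hw4 := (hX w).1 hw2.2
          refine ⟨hu3.1, ?_⟩
          obtain ⟨e1, h3, h4⟩ := H.cov w v hw4.1 hv hw4.2.1 hw4.2.2
          obtain ⟨e2, h5, h6⟩ := H.cov u v hu3.1 hv hu3.2.1 hu3.2.2
          have h7 := H.same hv hw4.1 ((hcs c List.mem_cons_self).2.2 w u hw2.1 hu.1) h4 h3 h6 h5
          subst h7
          have hs : ∀ x, near (cls v) (cls x) → near (cls x) (cls v) :=
            fun x hx => hN.symm _ _ hx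
          have := htri e1 v u w h4 h5 h3 hv (by omega) (by omega) (fun h => hu3.2.2 (hs u h))
            (fun h => hw4.2.2 (hs w h))
          rwa [hw3.2] at this
    rw [hpre ds R hV.recs, cond_false]
    exact ih'

theorem comps_spec {β : Type} {Q : β → Prop} {v : ℕ} (hv : v < n) {t : ℕ} (ht : Bit t v)
    {bad : List ℕ → Bool} (hbad : ∀ bs, H.Blocks (v + 1) bs → bad bs = false) {fail : β}
    {k : List Cm → β} (hk : ∀ cs, H.Inv (v + 1) cs → Q (k cs)) :
    ∀ (cs : List Cm) (X M : ℕ) (acc : List ℕ) (rest : List Cm), H.Inv v cs → H.Xok v X →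
      (∀ u, M.testBit u = true → u < v ∧ (H.A (v + 1)).Reachable u v) → H.Blocks (v + 1) acc →
      H.Inv (v + 1) rest → Q (comps t bad fail k cs X M acc rest) := by
  have hreach : ∀ X, H.Xok v X → ∀ u, X.testBit u = true → u < v ∧ (H.A (v + 1)).Reachable u v := by
    intro X hX u hu
    obtain ⟨h1, e, h2, h3⟩ := hX u hu
    refine ⟨h1, SimpleGraph.Adj.reachable ⟨?_, by omega, by omega, e, h2, h3⟩⟩
    omega
  intro cs
  induction cs with
  | nil =>
    intro X M acc rest _ hX hM hacc hrest
    change Q (pairs t (fun acc' => force (Nat.lor (Nat.lor M X) t) (fun M' =>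
      k (⟨M', acc'⟩ :: rest))) 14 X acc)
    refine H.pairs_spec ht ?_ _ _ _ hX hacc
    intro bs hbs
    refine force_spec (hk _ ?_)
    intro c hc
    rw [List.mem_cons] at hc
    rcases hc with rfl | hc
    · have hall : ∀ u, (Nat.lor (Nat.lor M X) t).testBit u = true →
          u < v + 1 ∧ (H.A (v + 1)).Reachable u v := by
        intro u hu
        rw [testBit_lor, testBit_lor, Bool.or_eq_true, Bool.or_eq_true] at hu
        rcases hu with (hu | hu) | hu
        · have := hM u hu
          exact ⟨by omega, this.2⟩
        · have := hreach X hX u hu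
          exact ⟨by omega, this.2⟩
        · rw [(ht u).1 hu]
          exact ⟨by omega, SimpleGraph.Reachable.refl _⟩
      exact ⟨hbs, fun u hu => (hall u hu).1, fun u w hu hw => (hall u hu).2.trans (hall w hw).2.symm⟩
    · exact hrest c hc
  | cons c cs ih =>
    intro X M acc rest hcs hX hM hacc hrest
    have hcs' : H.Inv v cs := fun c' hc' => hcs c' (List.mem_cons_of_mem _ hc')
    have hc := hcs c List.mem_cons_self
    change Q (force (Nat.land c.M X) (fun Y =>
      cond (Nat.beq Y 0) (comps t bad fail k cs X M acc (c :: rest))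
        (force (Nat.xor X Y) (fun X' => force (Nat.lor M c.M) (fun M' =>
          cond (Nat.beq (clr Y) 0)
            (force (Nat.lor Y t) (fun B => app c.bs acc (fun acc' =>
              comps t bad fail k cs X' M' (B :: acc') rest)))
            (loop t (fun bs' => cond (bad bs') fail (app bs' acc (fun acc' =>
              comps t bad fail k cs X' M' acc' rest)))
              14 Y c.bs t))))))
    apply force_spec
    refine cond_beq (fun _ => ?_) (fun hY0 => force_spec (force_spec ?_))
    · refine ih X M acc (c :: rest) hcs' hX hM hacc ?_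
      intro c' hc'
      rw [List.mem_cons] at hc'
      rcases hc' with rfl | hc'
      · exact Inv.mono H (by omega) hc
      · exact hrest c' hc'
    · have hY : H.Xok v (Nat.land c.M X) := by
        intro u hu
        rw [testBit_land', Bool.and_eq_true] at hu
        exact hX u hu.2
      have hX' : H.Xok v (Nat.xor X (Nat.land c.M X)) := by
        intro u hu
        apply hX
        rw [testBit_xor', testBit_land'] at hu
        cases h1 : X.testBit u
        · rw [h1] at hu; simp at hu
        · rfl
      obtain ⟨y, hy, _⟩ := clr_spec hY0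
      have hyM : c.M.testBit y = true := by
        rw [testBit_land', Bool.and_eq_true] at hy
        exact hy.1
      have hM' : ∀ u, (Nat.lor M c.M).testBit u = true → u < v ∧ (H.A (v + 1)).Reachable u v := by
        intro u hu
        rw [testBit_lor, Bool.or_eq_true] at hu
        rcases hu with hu | hu
        · exact hM u hu
        · refine ⟨hc.2.1 u hu, ?_⟩
          exact ((hc.2.2 u y hu hyM).mono (H.A_mono (by omega))).trans (hreach _ hY y hy).2
      have hcb : H.Blocks (v + 1) c.bs := (Inv.mono H (by omega : v ≤ v + 1) hc).1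
      refine cond_beq (fun hclr => force_spec (app_spec _ _ _ ?_)) (fun _ => ?_)
      · intro acc' hacc'
        refine ih _ _ _ _ hcs' hX' hM' ?_ hrest
        intro B hB
        rw [List.mem_cons] at hB
        rcases hB with rfl | hB
        · obtain ⟨x, hx⟩ := bit_of_clr hY0 hclr
          obtain ⟨h1, e, h2, h3⟩ := hY x ((hx x).2 rfl)
          refine ⟨e, fun u hu => ?_⟩
          rw [testBit_lor, Bool.or_eq_true] at hu
          rcases hu with hu | hu
          · rw [(hx u).1 hu]; exact ⟨by omega, h2⟩
          · rw [(ht u).1 hu]; exact ⟨by omega, h3⟩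
        · rcases hacc' B hB with h | h
          · exact hcb B h
          · exact hacc B h
      · refine H.loop_spec hv ht ?_ _ _ _ _ hY hcb
        intro bs hbs
        rw [hbad bs hbs, cond_false]
        refine app_spec _ _ _ ?_
        intro acc' hacc'
        refine ih _ _ _ _ hcs' hX' hM' ?_ hrest
        intro B hB
        rcases hacc' B hB with h | h
        · exact hbs B h
        · exact hacc B h

/-- The block step is sound. -/
theorem bstep_ok (hN : Near near) (hpar : ∀ v, 1 ≤ v → v < n → par v < v ∧
      ¬near (cls (par v)) (cls v))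
    (htri : ∀ (e : H.E) u w x, H.mem e u → H.mem e w → H.mem e x → u < n → w < n → x < n →
      ¬near (cls u) (cls w) → ¬near (cls u) (cls x) → near (cls w) (cls x))
    {chk : List (ℕ × ℕ) → Bool} (hchk : H.ChkOK chk) :
    StepOK near cls par n (bstep chk) H.Inv := by
  intro v hv1 hvn ds R cs X S hI hV hX hS
  obtain ⟨hpv, hnp⟩ := hpar v hv1 hvn
  have hXok : H.Xok v X := by
    intro u hu
    have h := (hX u).1 hu
    exact ⟨h.1, H.cov u v h.1 hvn h.2.1 h.2.2⟩
  change (fun o : Option (List Cm) => ∃ a', o = some a' ∧ H.Inv (v + 1) a')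
    (cond (Nat.beq X 0) (some cs) (cond (precheck X R cs) none
    (force (Nat.pow 2 v) (fun t => force (Nat.lor X (2 ^ par v)) (fun F =>
      comps t (checks chk S F t R) none some cs X 0 [] [])))))
  refine cond_beq (Q := fun o : Option (List Cm) => ∃ a', o = some a' ∧ H.Inv (v + 1) a')
    (fun _ => ?_) (fun _ => ?_)
  · refine ⟨cs, rfl, ?_⟩
    intro c hc
    exact Inv.mono H (by omega) (hI c hc)
  · rw [H.precheck_spec hvn hN hV hX htri cs hI, cond_false]
    refine force_spec (Q := fun o : Option (List Cm) => ∃ a', o = some a' ∧ H.Inv (v + 1) a')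
      (force_spec (Q := fun o : Option (List Cm) => ∃ a', o = some a' ∧ H.Inv (v + 1) a') ?_)
    refine H.comps_spec (Q := fun o : Option (List Cm) => ∃ a', o = some a' ∧ H.Inv (v + 1) a')
      hvn (bit_pow v) ?_ ?_ _ _ _ _ _ hI hXok ?_ ?_ ?_
    · intro bs hbs
      exact H.checks_spec hvn hpv hnp hN hV hX hS hchk bs hbs
    · intro cs' hcs'
      exact ⟨cs', rfl, hcs'⟩
    · intro u hu
      rw [Nat.zero_testBit] at hu
      exact absurd hu (by decide)
    · intro B hB
      exact absurd hB List.not_mem_nil
    · intro c hc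
      exact absurd hc List.not_mem_nil

end HG

end

end Pool.Agent.SA36
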