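import Pool.Agent.SA36.BlockSound
import Pool.Agent.SA36.Bridge
import Pool.Agent.SA97.Trees

set_option autoImplicit false

/-! The hypergraph of a host and the check for `P(4)`. -/

namespace Pool.Agent.SA36

open SimpleGraph Pool.Agent.SA33 Pool.Agent.SA97 Pool.Agent.SA97.Eng

theorem Ch.get {E : Type} {mem : E → ℕ → Prop} : ∀ (l : List (E × ℕ)) (z t : ℕ),
    Ch mem z l t → ∀ (s : ℕ) (h : s < l.length),
      mem (l[s]).1 (if _h0 : s = 0 then z else (l[s - 1]'(by omega)).2) ∧
      mem (l[s]).1 (l[s]).2 := by
  intro l
  induction l with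
  | nil => intro z t _ s h; exact absurd h (by simp)
  | cons p l ih =>
    intro z t hc s h
    cases s with
    | zero => exact ⟨hc.1, hc.2.1⟩
    | succ s =>
      have h1 := ih _ _ hc.2.2 s (by simpa using h)
      refine ⟨?_, by simpa using h1.2⟩
      have h2 := h1.1
      simp only [List.getElem_cons_succ, Nat.succ_ne_zero, dite_false, Nat.add_sub_cancel]
      by_cases hs : s = 0
      · subst hs
        simpa using h2
      · simp only [hs, dite_false] at h2
        have e : (p :: l)[s]'(by omega) = l[s - 1]'(by have := h; simp at this; omega) := by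
          obtain ⟨s', rfl⟩ := Nat.exists_eq_succ_of_ne_zero hs
          simp
        rw [e]
        exact h2

theorem Ch.last {E : Type} {mem : E → ℕ → Prop} : ∀ (l : List (E × ℕ)) (z t : ℕ),
    Ch mem z l t → ∀ (h : l ≠ []), (l[l.length - 1]'(by
      have := List.length_pos_iff.2 h; omega)).2 = t := by
  intro l
  induction l with
  | nil => intro z t _ h; exact absurd rfl h
  | cons p l ih =>
    intro z t hc _
    by_cases hl : l = []
    · subst hl
      exact hc.2.2
    · have h1 := ih _ _ hc.2.2 hl
      have h2 := List.length_pos_iff.2 hl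
      have e : (p :: l)[(p :: l).length - 1]'(by simp) = l[l.length - 1]'(by omega) := by
        have : (p :: l).length - 1 = (l.length - 1) + 1 := by simp; omega
        simp only [this, List.getElem_cons_succ]
      rw [e]
      exact h1

section
variable {k L : ℕ} {σ : Type} {S : SimpleGraph σ} {d : σ → ℕ} {V : Type} {G : SimpleGraph V}
variable {n : ℕ} {p : List ℕ}

/-- Extension of a map on `Fin n`. -/
noncomputable def ext0 (hn : 0 < n) (f : Fin n → V) (u : ℕ) : V :=
  if h : u < n then f ⟨u, h⟩ else f ⟨0, hn⟩

theorem ext0_lt (hn : 0 < n) (f : Fin n → V) {u : ℕ} (h : u < n) : ext0 hn f u = f ⟨u, h⟩ := by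
  unfold ext0; rw [dif_pos h]

/-- The hypergraph on the vertices of the tree. -/
noncomputable def hgOf (H : Host k L S d G) (hL : n ≤ L) (hn : 0 < n) (φ : tree n p ↪g G) :
    HG (cnear (2 * k - 1)) (fun u => H.cls (ext0 hn φ u)) (fun u => p.getD u 0) n where
  E := H.E
  mem e u := u < n ∧ ext0 hn φ u ∈ Set.range (H.vtx e)
  cov := by
    intro u v huv hv hup hnear
    have hu : u < n := by omega
    rw [← not_far_iff, not_not] at hnear
    have hna : ¬ G.Adj (ext0 hn φ u) (ext0 hn φ v) := by
      rw [ext0_lt hn φ hu, ext0_lt hn φ hv, φ.map_adj_iff]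
      intro h
      have h' : padj p u v = true := h
      unfold padj at h'
      rw [Bool.or_eq_true, Bool.and_eq_true, Bool.and_eq_true] at h'
      rcases h' with ⟨_, h1⟩ | ⟨h1, _⟩
      · exact hup (Nat.eq_of_beq_eq_true h1).symm
      · have := Nat.le_of_ble_eq_true h1
        omega
    obtain ⟨e, a, b, h1, h2⟩ := H.cov _ _ hnear hna
    exact ⟨e, ⟨hu, a, h1⟩, ⟨hv, b, h2⟩⟩
  acyc := by
    intro z l hc hnd hlen hlt
    have hlne : l ≠ [] := by
      rintro rfl; simp at hlen
    have hlast := Ch.last l z z hc hlne
    have hget := Ch.get l z z hc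
    set m := l.length with hm
    have hmn : m ≤ n := by
      have h1 : (l.map Prod.snd).toFinset ⊆ Finset.range n := by
        intro x hx
        rw [List.mem_toFinset, List.mem_map] at hx
        obtain ⟨q, hq, rfl⟩ := hx
        exact Finset.mem_range.2 (hlt q hq)
      have h2 := Finset.card_le_card h1
      rw [List.toFinset_card_of_nodup hnd, List.length_map, Finset.card_range] at h2
      exact h2
    have hzn : z < n := by
      rw [← hlast]
      exact hlt _ (List.getElem_mem _)
    have hinj : ∀ (a b : ℕ) (ha : a < m) (hb : b < m), (l[a]).2 = (l[b]).2 → a = b := by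
      intro a b ha hb hab
      have h1 : (l.map Prod.snd)[a]'(by rw [List.length_map]; exact ha) =
          (l.map Prod.snd)[b]'(by rw [List.length_map]; exact hb) := by
        simpa using hab
      exact (List.Nodup.getElem_inj_iff hnd).1 h1
    have h := H.acyc m hlen (hmn.trans hL)
      (fun s => ext0 hn φ (if h : s = 0 ∨ m < s then z else (l[s - 1]'(by omega)).2))
      (fun s => if h : s < m then (l[s]).1 else (l[0]'(by omega)).1) ?_ ?_
    · intro a ha b hb
      obtain ⟨i, hi, rfl⟩ := List.getElem_of_mem ha
      obtain ⟨j, hj, rfl⟩ := List.getElem_of_mem hb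
      have h1 := h i hi
      have h2 := h j hj
      simp only [hm.symm ▸ hi, hm.symm ▸ hj, dif_pos] at h1 h2
      rw [← h2] at h1
      simpa [hi, hj] using h1
    · intro s hs t ht hst
      have hval : ∀ s, s < m → (if h : s = 0 ∨ m < s then z else (l[s - 1]'(by omega)).2) < n := by
        intro s hs
        by_cases h0 : s = 0 ∨ m < s
        · rw [dif_pos h0]; exact hzn
        · rw [dif_neg h0]; exact hlt _ (List.getElem_mem _)
      rw [ext0_lt hn φ (hval s hs), ext0_lt hn φ (hval t ht)] at hst
      have hst' := φ.injective hst
      rw [Fin.mk.injEq] at hst'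
      by_cases hs0 : s = 0
      · by_cases ht0 : t = 0
        · omega
        · exfalso
          rw [dif_pos (Or.inl hs0), dif_neg (by omega), ← hlast] at hst'
          have := hinj _ _ _ _ hst'
          omega
      · by_cases ht0 : t = 0
        · exfalso
          rw [dif_pos (Or.inl ht0), dif_neg (by omega), ← hlast] at hst'
          have := hinj _ _ _ _ hst'
          omega
        · rw [dif_neg (by omega), dif_neg (by omega)] at hst'
          have := hinj _ _ _ _ hst'
          omega
    · intro s hs
      have h1 := hget s hs
      simp only [dif_pos hs]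
      constructor
      · have h2 := h1.1.2
        by_cases hs0 : s = 0
        · simpa [hs0] using h2
        · have h3 : ¬ (m < s) := by omega
          simpa [hs0, h3] using h2
      · have h2 := h1.2.2
        by_cases hs1 : s + 1 < m
        · rw [Nat.mod_eq_of_lt hs1]
          have h3 : ¬ (m ≤ s) := by omega
          simpa [h3] using h2
        · have hs2 : s + 1 = m := by omega
          rw [hs2, Nat.mod_self]
          have h3 : l[s] = l[m - 1] := by congr 1; omega
          rw [h3, hlast] at h2
          rw [h3]
          simpa using h2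

end

end Pool.Agent.SA36
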