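import Pool.Agent.SA36.Tree

set_option autoImplicit false

/-! A tree whose intersection with one block is large has at most four vertices outside it. -/

namespace Pool.Agent.SA36

open SimpleGraph Pool.Agent.SA33

variable {τ : Type*} {T : SimpleGraph τ}

theorem no_C3 (hT : T.IsAcyclic) {a b c : τ} (hab : T.Adj a b) (hbc : T.Adj b c)
    (hac : T.Adj a c) : False := by
  obtain ⟨col, hcol⟩ := exists_col hT
  have h1 := hcol _ _ hab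
  have h2 := hcol _ _ hbc
  have h3 := hcol _ _ hac
  revert h1 h2 h3
  generalize col a = p
  generalize col b = q
  generalize col c = r
  revert p q r
  decide

/-- The data of a tree `T` meeting a block in `P ∪ R ∪ Rt`. -/
structure Blk (T : SimpleGraph τ) (P R Rt : Set τ) : Prop where
  indP : ∀ x ∈ P, ∀ y ∈ P, ¬ T.Adj x y
  indR : ∀ x ∈ R, ∀ y ∈ R, ¬ T.Adj x y
  cP : 4 ≤ P.ncard
  cR : 4 ≤ R.ncard
  dPR : ∀ x ∈ P, x ∉ R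
  dP : ∀ x ∈ Rt, x ∉ P
  dR : ∀ x ∈ Rt, x ∉ R
  one : ∀ x ∈ Rt, ∀ y ∈ Rt, x = y
  rt : (∀ x ∈ Rt, ∀ y ∈ R, ¬ T.Adj x y) ∨ (∀ x ∈ Rt, ∀ y ∈ P, ¬ T.Adj x y)
  nP : ∀ z, z ∉ P → z ∉ R → z ∉ Rt → (∃ x ∈ P, T.Adj z x) →
    ∀ x ∈ P, ∀ x' ∈ P, ¬ T.Adj z x → ¬ T.Adj z x' → x = x'
  nR : ∀ z, z ∉ P → z ∉ R → z ∉ Rt → (∃ x ∈ R, T.Adj z x) →
    ∀ x ∈ R, ∀ x' ∈ R, ¬ T.Adj z x → ¬ T.Adj z x' → x = x'
  nn : ∀ z z', z ∉ P → z ∉ R → z ∉ Rt → z' ∉ P → z' ∉ R → z' ∉ Rt →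
    (∀ x ∈ P, ¬ T.Adj z x) → (∀ x ∈ R, ¬ T.Adj z x) →
    (∀ x ∈ P, ¬ T.Adj z' x) → (∀ x ∈ R, ¬ T.Adj z' x) → ¬ T.Adj z z'

/-- A vertex outside with a neighbour in `P`. -/
def Hub (T : SimpleGraph τ) (P R Rt : Set τ) (z : τ) : Prop :=
  (z ∉ P ∧ z ∉ R ∧ z ∉ Rt) ∧ ∃ x ∈ P, T.Adj z x

namespace Blk

variable {P R Rt : Set τ}

theorem swap (hb : Blk T P R Rt) : Blk T R P Rt where
  indP := hb.indR
  indR := hb.indP
  cP := hb.cR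
  cR := hb.cP
  dPR := fun x hx hx' => hb.dPR x hx' hx
  dP := hb.dR
  dR := hb.dP
  one := hb.one
  rt := hb.rt.symm
  nP := fun z h1 h2 h3 => hb.nR z h2 h1 h3
  nR := fun z h1 h2 h3 => hb.nP z h2 h1 h3
  nn := fun z z' h1 h2 h3 h4 h5 h6 h7 h8 h9 h10 => hb.nn z z' h2 h1 h3 h5 h4 h6 h8 h7 h10 h9

variable [Finite τ]

theorem three (hb : Blk T P R Rt) {h : τ} (hh : Hub T P R Rt h) :
    3 ≤ (P ∩ {x | T.Adj h x}).ncard := by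
  have h1 : (P ∩ {x | ¬ T.Adj h x}).ncard ≤ 1 := by
    rw [Set.ncard_le_one_iff]
    rintro x x' ⟨hx, hx1⟩ ⟨hx', hx1'⟩
    exact hb.nP h hh.1.1 hh.1.2.1 hh.1.2.2 hh.2 x hx x' hx' hx1 hx1'
  have h2 : P = (P ∩ {x | T.Adj h x}) ∪ (P ∩ {x | ¬ T.Adj h x}) := by
    ext x
    simp only [Set.mem_union, Set.mem_inter_iff, Set.mem_ofPred_eq]
    tauto
  have h3 := Set.ncard_union_le (P ∩ {x | T.Adj h x}) (P ∩ {x | ¬ T.Adj h x})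
  rw [← h2] at h3
  have := hb.cP
  omega

theorem exists_three (hb : Blk T P R Rt) {h : τ} (hh : Hub T P R Rt h) :
    ∃ a b c, a ∈ P ∧ b ∈ P ∧ c ∈ P ∧ T.Adj h a ∧ T.Adj h b ∧ T.Adj h c ∧ a ≠ b ∧ a ≠ c ∧ b ≠ c := by
  have h3 := hb.three hh
  obtain ⟨a, b, c, ha, hb', hc, h1, h2, h3⟩ := (Set.two_lt_ncard_iff (Set.toFinite _)).1 h3
  exact ⟨a, b, c, ha.1, hb'.1, hc.1, ha.2, hb'.2, hc.2, h1, h2, h3⟩

theorem hub_unique (hb : Blk T P R Rt) (hT : T.IsAcyclic) {h h' : τ} (hh : Hub T P R Rt h)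
    (hh' : Hub T P R Rt h') : h = h' := by
  by_contra hne
  obtain ⟨a, b, c, ha, hb', hc, h1, h2, h3, h4, h5, h6⟩ := hb.exists_three hh
  have key : ∀ x x', x ∈ P → x' ∈ P → T.Adj h x → T.Adj h x' → x ≠ x' →
      T.Adj h' x → T.Adj h' x' → False := by
    intro x x' _ _ hx1 hx1' hxx hx2 hx2'
    exact hxx (no_C4 hT hx1 hx2.symm hx1' hx2'.symm hne)
  have key2 : ∀ x x', x ∈ P → x' ∈ P → x ≠ x' → ¬ T.Adj h' x → ¬ T.Adj h' x' → False := by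
    intro x x' hx hx' hxx h1 h2
    exact hxx (hb.nP h' hh'.1.1 hh'.1.2.1 hh'.1.2.2 hh'.2 x hx x' hx' h1 h2)
  by_cases hA : T.Adj h' a <;> by_cases hB : T.Adj h' b <;> by_cases hC : T.Adj h' c
  · exact key a b ha hb' h1 h2 h4 hA hB
  · exact key a b ha hb' h1 h2 h4 hA hB
  · exact key a c ha hc h1 h3 h5 hA hC
  · exact key2 b c hb' hc h6 hB hC
  · exact key b c hb' hc h2 h3 h6 hB hC
  · exact key2 a c ha hc h5 hA hC
  · exact key2 a b ha hb' h4 hA hB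
  · exact key2 a b ha hb' h4 hA hB

/-- A neighbour of a vertex of `P` other than the hub lies in `R` or `Rt`. -/
theorem nbr (hb : Blk T P R Rt) (hT : T.IsAcyclic) {h x w : τ} (hh : Hub T P R Rt h)
    (hx : x ∈ P) (hw : T.Adj x w) (hwh : w ≠ h) : w ∈ R ∨ w ∈ Rt := by
  by_contra hcon
  push Not at hcon
  have hwP : w ∉ P := fun h' => hb.indP x hx w h' hw
  exact hwh (hb.hub_unique hT ⟨⟨hwP, hcon.1, hcon.2⟩, x, hx, hw.symm⟩ hh)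

omit [Finite τ] in
theorem leaf_eq (htw : TwinFree T) {h x y : τ} (hx : T.Adj h x) (hy : T.Adj h y)
    (hx' : ∀ w, T.Adj x w → w = h) (hy' : ∀ w, T.Adj y w → w = h) : x = y := by
  apply htw
  intro z
  constructor
  · intro hz
    rw [hx' z hz]
    exact hy.symm
  · intro hz
    rw [hy' z hz]
    exact hx.symm

theorem not_both_aux (hb : Blk T P R Rt) (hT : T.IsAcyclic) (htw : TwinFree T) {h : τ}
    (hh : Hub T P R Rt h) (hh' : Hub T R P Rt h) : ∃ ρ ∈ Rt, ∃ x ∈ P, T.Adj ρ x := by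
  by_contra hcon
  push Not at hcon
  obtain ⟨a, b, c, ha, hb', hc, h1, h2, h3, h4, h5, h6⟩ := hb.exists_three hh
  have key : ∀ x x', x ∈ P → x' ∈ P → T.Adj h x → T.Adj h x' → x ≠ x' →
      (∀ w, T.Adj x w → w = h) ∨ (∀ w, T.Adj x' w → w = h) := by
    intro x x' hx hx' hhx hhx' hxx
    by_contra hc2
    push Not at hc2
    obtain ⟨⟨w, hw, hwh⟩, w', hw', hwh'⟩ := hc2
    have hwR : w ∈ R := by
      rcases hb.nbr hT hh hx hw hwh with h | h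
      · exact h
      · exact absurd hw.symm (hcon _ h _ hx)
    have hwR' : w' ∈ R := by
      rcases hb.nbr hT hh hx' hw' hwh' with h | h
      · exact h
      · exact absurd hw'.symm (hcon _ h _ hx')
    have e1 : ¬ T.Adj h w := fun e => no_C3 hT hhx hw e
    have e2 : ¬ T.Adj h w' := fun e => no_C3 hT hhx' hw' e
    have e3 := hb.nR h hh.1.1 hh.1.2.1 hh.1.2.2 hh'.2 w hwR w' hwR' e1 e2
    subst e3
    exact hxx (no_C4 hT hhx hw hhx' hw' (Ne.symm hwh))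
  rcases key a b ha hb' h1 h2 h4 with h | h
  · rcases key b c hb' hc h2 h3 h6 with h' | h'
    · exact h4 (leaf_eq htw h1 h2 h h')
    · exact h5 (leaf_eq htw h1 h3 h h')
  · rcases key a c ha hc h1 h3 h5 with h' | h'
    · exact h4 (leaf_eq htw h1 h2 h' h)
    · exact h6 (leaf_eq htw h2 h3 h h')

theorem not_both (hb : Blk T P R Rt) (hT : T.IsAcyclic) (htw : TwinFree T) {h : τ}
    (hh : Hub T P R Rt h) (hh' : Hub T R P Rt h) : False := by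
  obtain ⟨ρ, hρ, x, hx, h1⟩ := hb.not_both_aux hT htw hh hh'
  obtain ⟨ρ', hρ', y, hy, h2⟩ := hb.swap.not_both_aux hT htw hh' hh
  have := hb.one _ hρ _ hρ'
  subst this
  rcases hb.rt with h3 | h3
  · exact h3 _ hρ _ hy h2
  · exact h3 _ hρ _ hx h1

theorem rside (hb : Blk T P R Rt) (hT : T.IsAcyclic) (htw : TwinFree T) {h g : τ}
    (hh : Hub T P R Rt h) (hg : Hub T R P Rt g) (hrt : ∀ x ∈ Rt, ∀ y ∈ R, ¬ T.Adj x y) :
    ∃ y1 y2 y3 xa x0, y1 ∈ R ∧ y2 ∈ R ∧ y3 ∈ R ∧ T.Adj g y1 ∧ T.Adj g y2 ∧ T.Adj g y3 ∧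
      y1 ≠ y2 ∧ y1 ≠ y3 ∧ y2 ≠ y3 ∧ (∀ w, T.Adj y1 w → w = g) ∧ xa ∈ P ∧ T.Adj y2 xa ∧
      T.Adj h xa ∧ x0 ∈ P ∧ T.Adj y3 x0 ∧ ¬ T.Adj h x0 := by
  have hgh : g ≠ h := by
    rintro rfl
    exact hb.not_both hT htw hh hg
  have hout : ∀ y ∈ R, ¬ (∀ w, T.Adj y w → w = g) → ∃ w ∈ P, T.Adj y w := by
    intro y hy hn
    push Not at hn
    obtain ⟨w, hw, hwg⟩ := hn
    rcases hb.swap.nbr hT hg hy hw hwg with h | h
    · exact ⟨w, h, hw⟩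
    · exact absurd hw.symm (hrt _ h _ hy)
  have key1 : ∀ y y' w w', y ∈ R → y' ∈ R → T.Adj g y → T.Adj g y' → y ≠ y' → w ∈ P → w' ∈ P →
      T.Adj y w → T.Adj y' w' → T.Adj h w → T.Adj h w' → False := by
    intro y y' w w' hy hy' hgy hgy' hyy hw hw' hyw hyw' hhw hhw'
    refine hyy (path3_unique hT hgy hyw hhw.symm hgy' hyw' hhw'.symm hgh ?_ ?_ ?_ ?_).1
    · rintro rfl; exact hg.1.2.1 hw
    · rintro rfl; exact hh.1.2.1 hy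
    · rintro rfl; exact hg.1.2.1 hw'
    · rintro rfl; exact hh.1.2.1 hy'
  have key2 : ∀ y y' w w', y ∈ R → y' ∈ R → T.Adj g y → T.Adj g y' → y ≠ y' → w ∈ P → w' ∈ P →
      T.Adj y w → T.Adj y' w' → ¬ T.Adj h w → ¬ T.Adj h w' → False := by
    intro y y' w w' hy hy' hgy hgy' hyy hw hw' hyw hyw' hhw hhw'
    have e := hb.nP h hh.1.1 hh.1.2.1 hh.1.2.2 hh.2 w hw w' hw' hhw hhw'
    subst e
    refine hyy (no_C4 hT hgy hyw hgy' hyw' ?_)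
    rintro rfl; exact hg.1.2.1 hw
  have fin : ∀ y1 y2 y3, y1 ∈ R → y2 ∈ R → y3 ∈ R → T.Adj g y1 → T.Adj g y2 → T.Adj g y3 →
      y1 ≠ y2 → y1 ≠ y3 → y2 ≠ y3 → (∀ w, T.Adj y1 w → w = g) →
      ∃ y1 y2 y3 xa x0, y1 ∈ R ∧ y2 ∈ R ∧ y3 ∈ R ∧ T.Adj g y1 ∧ T.Adj g y2 ∧ T.Adj g y3 ∧
      y1 ≠ y2 ∧ y1 ≠ y3 ∧ y2 ≠ y3 ∧ (∀ w, T.Adj y1 w → w = g) ∧ xa ∈ P ∧ T.Adj y2 xa ∧
      T.Adj h xa ∧ x0 ∈ P ∧ T.Adj y3 x0 ∧ ¬ T.Adj h x0 := by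
    intro y1 y2 y3 m1 m2 m3 a1 a2 a3 d1 d2 d3 hl
    obtain ⟨w2, hw2, b2⟩ := hout y2 m2 (fun hl' => d1 (leaf_eq htw a1 a2 hl hl'))
    obtain ⟨w3, hw3, b3⟩ := hout y3 m3 (fun hl' => d2 (leaf_eq htw a1 a3 hl hl'))
    by_cases c2 : T.Adj h w2 <;> by_cases c3 : T.Adj h w3
    · exact (key1 y2 y3 w2 w3 m2 m3 a2 a3 d3 hw2 hw3 b2 b3 c2 c3).elim
    · exact ⟨y1, y2, y3, w2, w3, m1, m2, m3, a1, a2, a3, d1, d2, d3, hl, hw2, b2, c2, hw3, b3, c3⟩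
    · exact ⟨y1, y3, y2, w3, w2, m1, m3, m2, a1, a3, a2, d2, d1, d3.symm, hl, hw3, b3, c3, hw2, b2,
        c2⟩
    · exact (key2 y2 y3 w2 w3 m2 m3 a2 a3 d3 hw2 hw3 b2 b3 c2 c3).elim
  obtain ⟨a, b, c, m1, m2, m3, a1, a2, a3, d1, d2, d3⟩ := hb.swap.exists_three hg
  by_cases l1 : ∀ w, T.Adj a w → w = g
  · exact fin a b c m1 m2 m3 a1 a2 a3 d1 d2 d3 l1
  by_cases l2 : ∀ w, T.Adj b w → w = g
  · exact fin b a c m2 m1 m3 a2 a1 a3 d1.symm d3 d2 l2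
  by_cases l3 : ∀ w, T.Adj c w → w = g
  · exact fin c a b m3 m1 m2 a3 a1 a2 d2.symm d3.symm d1 l3
  obtain ⟨w1, hw1, b1⟩ := hout a m1 l1
  obtain ⟨w2, hw2, b2⟩ := hout b m2 l2
  obtain ⟨w3, hw3, b3⟩ := hout c m3 l3
  exfalso
  by_cases c1 : T.Adj h w1 <;> by_cases c2 : T.Adj h w2 <;> by_cases c3 : T.Adj h w3
  · exact key1 a b w1 w2 m1 m2 a1 a2 d1 hw1 hw2 b1 b2 c1 c2
  · exact key1 a b w1 w2 m1 m2 a1 a2 d1 hw1 hw2 b1 b2 c1 c2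
  · exact key1 a c w1 w3 m1 m3 a1 a3 d2 hw1 hw3 b1 b3 c1 c3
  · exact key2 b c w2 w3 m2 m3 a2 a3 d3 hw2 hw3 b2 b3 c2 c3
  · exact key1 b c w2 w3 m2 m3 a2 a3 d3 hw2 hw3 b2 b3 c2 c3
  · exact key2 a c w1 w3 m1 m3 a1 a3 d2 hw1 hw3 b1 b3 c1 c3
  · exact key2 a b w1 w2 m1 m2 a1 a2 d1 hw1 hw2 b1 b2 c1 c2
  · exact key2 a b w1 w2 m1 m2 a1 a2 d1 hw1 hw2 b1 b2 c1 c2

/-- There is at most one edge between the neighbourhoods of two hubs. -/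
theorem edge_unique (hb : Blk T P R Rt) (hT : T.IsAcyclic) (htw : TwinFree T) {h g : τ}
    (hh : Hub T P R Rt h) (hg : Hub T R P Rt g) {x y x' y' : τ} (hx : x ∈ P) (hy : y ∈ R)
    (hx' : x' ∈ P) (hy' : y' ∈ R) (h1 : T.Adj h x) (h2 : T.Adj x y) (h3 : T.Adj g y)
    (h1' : T.Adj h x') (h2' : T.Adj x' y') (h3' : T.Adj g y') : x = x' ∧ y = y' := by
  have hgh : h ≠ g := by
    rintro rfl
    exact hb.not_both hT htw hh hg
  refine path3_unique hT h1 h2 h3.symm h1' h2' h3'.symm hgh ?_ ?_ ?_ ?_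
  · rintro rfl; exact hh.1.2.1 hy
  · rintro rfl; exact hg.1.2.1 hx
  · rintro rfl; exact hh.1.2.1 hy'
  · rintro rfl; exact hg.1.2.1 hx'

/-- Outside vertices without neighbours in `P` and `R`. -/
def Iso (T : SimpleGraph τ) (P R Rt : Set τ) (z : τ) : Prop :=
  (z ∉ P ∧ z ∉ R ∧ z ∉ Rt) ∧ (∀ x ∈ P, ¬ T.Adj z x) ∧ (∀ x ∈ R, ¬ T.Adj z x)

omit [Finite τ] in
theorem nbr_iso (hb : Blk T P R Rt) {z w : τ} (hz : Iso T P R Rt z) (h : T.Adj z w) :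
    w ∈ Rt ∨ Hub T P R Rt w ∨ Hub T R P Rt w := by
  by_contra hcon
  push Not at hcon
  obtain ⟨h1, h2, h3⟩ := hcon
  have h4 : w ∉ P := fun h' => hz.2.1 _ h' h
  have h5 : w ∉ R := fun h' => hz.2.2 _ h' h
  refine hb.nn z w hz.1.1 hz.1.2.1 hz.1.2.2 h4 h5 h1 hz.2.1 hz.2.2 ?_ ?_ h
  · intro x hx hwx
    exact h2 ⟨⟨h4, h5, h1⟩, x, hx, hwx⟩
  · intro x hx hwx
    exact h3 ⟨⟨h5, h4, h1⟩, x, hx, hwx⟩

open Classical in
/-- The kinds of neighbours of an isolated outside vertex. -/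
noncomputable def code (T : SimpleGraph τ) (P R Rt : Set τ) (z : τ) : Bool × Bool × Bool :=
  (decide (∃ x ∈ Rt, T.Adj z x), decide (∃ h, Hub T P R Rt h ∧ T.Adj z h),
    decide (∃ g, Hub T R P Rt g ∧ T.Adj z g))

theorem code_inj (hb : Blk T P R Rt) (hT : T.IsAcyclic) (htw : TwinFree T) {z z' : τ}
    (hz : Iso T P R Rt z) (hz' : Iso T P R Rt z') (h : code T P R Rt z = code T P R Rt z') :
    z = z' := by
  simp only [code, Prod.mk.injEq, decide_eq_decide] at h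
  obtain ⟨h1, h2, h3⟩ := h
  apply htw
  have aux : ∀ z z', Iso T P R Rt z → ((∃ x ∈ Rt, T.Adj z x) → (∃ x ∈ Rt, T.Adj z' x)) →
      ((∃ h, Hub T P R Rt h ∧ T.Adj z h) → (∃ h, Hub T P R Rt h ∧ T.Adj z' h)) →
      ((∃ h, Hub T R P Rt h ∧ T.Adj z h) → (∃ h, Hub T R P Rt h ∧ T.Adj z' h)) →
      ∀ w, T.Adj z w → T.Adj z' w := by
    intro z z' hz e1 e2 e3 w hw
    rcases hb.nbr_iso hz hw with h | h | h
    · obtain ⟨x, hx, hx'⟩ := e1 ⟨w, h, hw⟩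
      rwa [hb.one _ h _ hx]
    · obtain ⟨x, hx, hx'⟩ := e2 ⟨w, h, hw⟩
      rwa [hb.hub_unique hT h hx]
    · obtain ⟨x, hx, hx'⟩ := e3 ⟨w, h, hw⟩
      rwa [hb.swap.hub_unique hT h hx]
  intro w
  exact ⟨aux z z' hz h1.1 h2.1 h3.1 w, aux z' z hz' h1.2 h2.2 h3.2 w⟩

theorem code_ne (hb : Blk T P R Rt) (hT : T.IsTree) {z : τ} (hz : Iso T P R Rt z) :
    code T P R Rt z ≠ (false, false, false) := by
  intro h
  simp only [code, Prod.mk.injEq, decide_eq_false_iff_not] at h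
  have hP : P.Nonempty := by
    rw [← Set.ncard_pos]
    have := hb.cP
    omega
  obtain ⟨x, hx⟩ := hP
  obtain ⟨b, hb', -⟩ := branch_cover hT z x (by rintro rfl; exact hz.1.1 hx)
  rcases hb.nbr_iso hz hb'.symm with h' | h' | h'
  · exact h.1 ⟨b, h', hb'.symm⟩
  · exact h.2.1 ⟨b, h', hb'.symm⟩
  · exact h.2.2 ⟨b, h', hb'.symm⟩

theorem iso_card (hb : Blk T P R Rt) (hT : T.IsAcyclic) (htw : TwinFree T)
    (C : Finset (Bool × Bool × Bool)) (hC : ∀ z, Iso T P R Rt z → code T P R Rt z ∈ C) :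
    {z | Iso T P R Rt z}.ncard ≤ C.card := by
  rw [← Set.ncard_coe_finset]
  refine Set.ncard_le_ncard_of_injOn (code T P R Rt) (fun z hz => hC z hz) ?_ (Set.toFinite _)
  intro z hz z' hz' h
  exact hb.code_inj hT htw hz hz' h

end Blk

end Pool.Agent.SA36
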