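import Pool.Agent.SA36.Out

set_option autoImplicit false

/-! Counting the vertices outside a block. -/

namespace Pool.Agent.SA36

open SimpleGraph Pool.Agent.SA33

variable {τ : Type*} {T : SimpleGraph τ}

namespace Blk

variable {P R Rt : Set τ} [Finite τ]

set_option synthInstance.maxSize 4000 in
set_option maxRecDepth 8000 in
omit [Finite τ] in
theorem codes_three : ∀ c1 c2 c3 : Bool × Bool × Bool, c1 ≠ c2 → c1 ≠ c3 → c2 ≠ c3 →
    c1 ≠ (false, false, false) → c2 ≠ (false, false, false) → c3 ≠ (false, false, false) →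
    c1 ≠ (false, false, true) → c2 ≠ (false, false, true) → c3 ≠ (false, false, true) →
    ¬ (c1.2.1 = true ∧ c1.2.2 = true) → ¬ (c2.2.1 = true ∧ c2.2.2 = true) →
    ¬ (c3.2.1 = true ∧ c3.2.2 = true) →
    (c1 = (false, true, false) ∨ c2 = (false, true, false) ∨ c3 = (false, true, false)) ∧
    ((c1.1 = true ∧ (c1.2.1 = true ∨ c1.2.2 = true)) ∨
      (c2.1 = true ∧ (c2.2.1 = true ∨ c2.2.2 = true)) ∨
      (c3.1 = true ∧ (c3.2.1 = true ∨ c3.2.2 = true))) ∨
    (((c1.1 = true ∧ c1.2.1 = true) ∨ (c2.1 = true ∧ c2.2.1 = true) ∨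
      (c3.1 = true ∧ c3.2.1 = true)) ∧
     ((c1.1 = true ∧ c1.2.2 = true) ∨ (c2.1 = true ∧ c2.2.2 = true) ∨
      (c3.1 = true ∧ c3.2.2 = true))) := by
  decide

theorem two_hubs_aux (hb : Blk T P R Rt) (hT : T.IsTree) (htw : TwinFree T) {h g : τ}
    (hh : Hub T P R Rt h) (hg : Hub T R P Rt g) (hrt : ∀ x ∈ Rt, ∀ y ∈ R, ¬ T.Adj x y) :
    {z | Iso T P R Rt z}.ncard ≤ 2 := by
  by_contra hcon
  obtain ⟨z1, z2, z3, hz1, hz2, hz3, d12, d13, d23⟩ :=
    (Set.two_lt_ncard_iff (Set.toFinite _)).1 (not_le.1 hcon)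
  obtain ⟨col, hcol⟩ := exists_col hT.2
  obtain ⟨y1, y2, y3, xa, x0, my1, my2, my3, gy1, gy2, gy3, -, -, d, hleaf, mxa, y2xa, hxa, mx0,
    y3x0, hx0⟩ := hb.rside hT.2 htw hh hg hrt
  have chg : col h ≠ col g := by
    have e1 := hcol _ _ hxa
    have e2 := hcol _ _ y2xa
    have e3 := hcol _ _ gy2
    revert e1 e2 e3
    generalize col h = p1
    generalize col xa = p2
    generalize col y2 = p3
    generalize col g = p4
    revert p1 p2 p3 p4
    decide
  have f1 : ∀ z, Iso T P R Rt z → code T P R Rt z ≠ (false, false, true) := by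
    intro z hz hc
    simp only [code, Prod.mk.injEq, decide_eq_false_iff_not, decide_eq_true_eq] at hc
    obtain ⟨c1, c2, g', hg', hzg⟩ := hc
    obtain rfl := hb.swap.hub_unique hT.2 hg' hg
    have : z = y1 := by
      apply leaf_eq htw hzg.symm gy1 _ hleaf
      intro w hw
      rcases hb.nbr_iso hz hw with h' | h' | h'
      · exact absurd ⟨w, h', hw⟩ c1
      · exact absurd ⟨w, h', hw⟩ c2
      · exact hb.swap.hub_unique hT.2 h' hg'
    subst this
    exact hz.1.2.1 my1
  have f2 : ∀ z, Iso T P R Rt z →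
      ¬ ((code T P R Rt z).2.1 = true ∧ (code T P R Rt z).2.2 = true) := by
    intro z hz hc
    simp only [code, decide_eq_true_eq] at hc
    obtain ⟨⟨h', hh', hzh⟩, g', hg', hzg⟩ := hc
    obtain rfl := hb.swap.hub_unique hT.2 hg' hg
    obtain rfl := hb.hub_unique hT.2 hh' hh
    have e1 := hcol _ _ hzh
    have e2 := hcol _ _ hzg
    revert e1 e2 chg
    generalize col h' = p1
    generalize col z = p2
    generalize col g' = p3
    revert p1 p2 p3
    decide
  have inj : ∀ z z', Iso T P R Rt z → Iso T P R Rt z' → z ≠ z' →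
      code T P R Rt z ≠ code T P R Rt z' :=
    fun z z' hz hz' hne he => hne (hb.code_inj hT.2 htw hz hz' he)
  have hconn1 : ∀ z, Iso T P R Rt z → (code T P R Rt z).1 = true → (code T P R Rt z).2.1 = true →
      ∃ ρ ∈ Rt, T.Adj z ρ ∧ T.Adj z h := by
    intro z hz c1 c2
    simp only [code, decide_eq_true_eq] at c1 c2
    obtain ⟨ρ, hρ, hzρ⟩ := c1
    obtain ⟨h', hh', hzh⟩ := c2
    obtain rfl := hb.hub_unique hT.2 hh' hh
    exact ⟨ρ, hρ, hzρ, hzh⟩
  have hconn2 : ∀ z, Iso T P R Rt z → (code T P R Rt z).1 = true → (code T P R Rt z).2.2 = true →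
      ∃ ρ ∈ Rt, T.Adj z ρ ∧ T.Adj z g := by
    intro z hz c1 c2
    simp only [code, decide_eq_true_eq] at c1 c2
    obtain ⟨ρ, hρ, hzρ⟩ := c1
    obtain ⟨h', hh', hzh⟩ := c2
    obtain rfl := hb.swap.hub_unique hT.2 hh' hg
    exact ⟨ρ, hρ, hzρ, hzh⟩
  have three : ∀ z, Iso T P R Rt z → code T P R Rt z = (false, true, false) →
      ∃ ρ ∈ Rt, ∃ x ∈ P, T.Adj h x ∧ T.Adj x ρ := by
    intro z hz hc
    simp only [code, Prod.mk.injEq, decide_eq_false_iff_not, decide_eq_true_eq] at hc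
    obtain ⟨c1, ⟨h', hh', hzh⟩, c3⟩ := hc
    obtain rfl := hb.hub_unique hT.2 hh' hh
    have hzl : ∀ w, T.Adj z w → w = h' := by
      intro w hw
      rcases hb.nbr_iso hz hw with h'' | h'' | h''
      · exact absurd ⟨w, h'', hw⟩ c1
      · exact hb.hub_unique hT.2 h'' hh'
      · exact absurd ⟨w, h'', hw⟩ c3
    -- no leaf in P'
    have nl : ∀ x ∈ P, T.Adj h' x → ∃ w, w ≠ h' ∧ T.Adj x w := by
      intro x hx hhx
      by_contra hcon
      push Not at hcon
      have : x = z := by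
        apply leaf_eq htw hhx hzh.symm _ hzl
        intro w hw
        by_contra hne
        exact hcon w hne hw
      subst this
      exact hz.1.1 hx
    by_contra hno
    push Not at hno
    -- every neighbour is in R
    have nR : ∀ x ∈ P, T.Adj h' x → ∃ w ∈ R, T.Adj x w ∧ (T.Adj g w → x = xa) := by
      intro x hx hhx
      obtain ⟨w, hwne, hw⟩ := nl x hx hhx
      rcases hb.nbr hT.2 hh' hx hw hwne with h'' | h''
      · refine ⟨w, h'', hw, fun hgw => ?_⟩
        exact (hb.edge_unique hT.2 htw hh' hg hx h'' mxa my2 hhx hw hgw hxa y2xa.symm gy2).1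
      · exact absurd hw (hno w h'' x hx hhx)
    obtain ⟨a, b, c, ha, hb', hc, h1, h2, h3, h4, h5, h6⟩ := hb.exists_three hh'
    have key : ∀ x x', x ∈ P → x' ∈ P → T.Adj h' x → T.Adj h' x' → x ≠ x' → x ≠ xa → x' ≠ xa →
        False := by
      intro x x' hx hx' hhx hhx' hxx hxa1 hxa2
      obtain ⟨w, hw, hxw, hgw⟩ := nR x hx hhx
      obtain ⟨w', hw', hxw', hgw'⟩ := nR x' hx' hhx'
      have e := hb.nR g hg.1.2.1 hg.1.1 hg.1.2.2 hg.2 w hw w' hw' (fun h => hxa1 (hgw h))
        (fun h => hxa2 (hgw' h))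
      subst e
      refine hxx (no_C4 hT.2 hhx hxw hhx' hxw' ?_)
      rintro rfl
      exact hh'.1.2.1 hw
    by_cases ea : a = xa
    · refine key b c hb' hc h2 h3 h6 ?_ ?_
      · rintro rfl; exact h4 ea
      · rintro rfl; exact h5 ea
    · by_cases eb : b = xa
      · refine key a c ha hc h1 h3 h5 ea ?_
        rintro rfl; exact h6 eb
      · exact key a b ha hb' h1 h2 h4 ea eb
  have colc : ∀ z ρ, T.Adj z ρ → T.Adj z h → col ρ = col h := by
    intro z ρ h1 h2
    have e1 := hcol _ _ h1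
    have e2 := hcol _ _ h2
    revert e1 e2
    generalize col z = p1
    generalize col ρ = p2
    generalize col h = p3
    revert p1 p2 p3
    decide
  have colc' : ∀ z ρ, T.Adj z ρ → T.Adj z g → col ρ = col g := by
    intro z ρ h1 h2
    have e1 := hcol _ _ h1
    have e2 := hcol _ _ h2
    revert e1 e2
    generalize col z = p1
    generalize col ρ = p2
    generalize col g = p3
    revert p1 p2 p3
    decide
  -- a leaf at `h` and a connector are incompatible
  have key1 : ∀ z z', Iso T P R Rt z → Iso T P R Rt z' → code T P R Rt z = (false, true, false) →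
      (code T P R Rt z').1 = true →
      ((code T P R Rt z').2.1 = true ∨ (code T P R Rt z').2.2 = true) → False := by
    intro z z' hz hz' c1 c2 c3
    obtain ⟨ρ, hρ, x, hx, hhx, hxρ⟩ := three z hz c1
    rcases c3 with c3 | c3
    · obtain ⟨ρ', hρ', e1, e2⟩ := hconn1 z' hz' c2 c3
      obtain rfl := hb.one _ hρ _ hρ'
      have : x = z' := by
        refine no_C4 hT.2 hhx hxρ e2.symm e1 ?_
        rintro rfl
        exact hh.1.2.2 hρ
      subst this
      exact hz'.1.1 hx
    · obtain ⟨ρ', hρ', e1, e2⟩ := hconn2 z' hz' c2 c3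
      obtain rfl := hb.one _ hρ _ hρ'
      apply chg
      rw [← colc x ρ hxρ hhx.symm, ← colc' z' ρ e1 e2]
  have key2 : ∀ z z', Iso T P R Rt z → Iso T P R Rt z' → (code T P R Rt z).1 = true →
      (code T P R Rt z).2.1 = true → (code T P R Rt z').1 = true →
      (code T P R Rt z').2.2 = true → False := by
    intro z z' hz hz' c1 c2 c3 c4
    obtain ⟨ρ, hρ, e1, e2⟩ := hconn1 z hz c1 c2
    obtain ⟨ρ', hρ', e1', e2'⟩ := hconn2 z' hz' c3 c4
    obtain rfl := hb.one _ hρ _ hρ'
    apply chg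
    rw [← colc z ρ e1 e2, ← colc' z' ρ e1' e2']
  rcases codes_three _ _ _ (inj z1 z2 hz1 hz2 d12) (inj z1 z3 hz1 hz3 d13) (inj z2 z3 hz2 hz3 d23)
    (hb.code_ne hT hz1) (hb.code_ne hT hz2) (hb.code_ne hT hz3)
    (f1 z1 hz1) (f1 z2 hz2) (f1 z3 hz3) (f2 z1 hz1) (f2 z2 hz2) (f2 z3 hz3) with ⟨A, B⟩ | ⟨A, B⟩
  · rcases A with A | A | A <;> rcases B with B | B | B
    · exact key1 _ _ hz1 hz1 A B.1 B.2
    · exact key1 _ _ hz1 hz2 A B.1 B.2
    · exact key1 _ _ hz1 hz3 A B.1 B.2
    · exact key1 _ _ hz2 hz1 A B.1 B.2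
    · exact key1 _ _ hz2 hz2 A B.1 B.2
    · exact key1 _ _ hz2 hz3 A B.1 B.2
    · exact key1 _ _ hz3 hz1 A B.1 B.2
    · exact key1 _ _ hz3 hz2 A B.1 B.2
    · exact key1 _ _ hz3 hz3 A B.1 B.2
  · rcases A with A | A | A <;> rcases B with B | B | B
    · exact key2 _ _ hz1 hz1 A.1 A.2 B.1 B.2
    · exact key2 _ _ hz1 hz2 A.1 A.2 B.1 B.2
    · exact key2 _ _ hz1 hz3 A.1 A.2 B.1 B.2
    · exact key2 _ _ hz2 hz1 A.1 A.2 B.1 B.2
    · exact key2 _ _ hz2 hz2 A.1 A.2 B.1 B.2
    · exact key2 _ _ hz2 hz3 A.1 A.2 B.1 B.2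
    · exact key2 _ _ hz3 hz1 A.1 A.2 B.1 B.2
    · exact key2 _ _ hz3 hz2 A.1 A.2 B.1 B.2
    · exact key2 _ _ hz3 hz3 A.1 A.2 B.1 B.2

omit [Finite τ] in
theorem iso_swap : {z | Iso T P R Rt z} = {z | Iso T R P Rt z} := by
  ext z
  simp only [Iso, Set.mem_ofPred_eq]
  tauto

theorem two_hubs (hb : Blk T P R Rt) (hT : T.IsTree) (htw : TwinFree T) {h g : τ}
    (hh : Hub T P R Rt h) (hg : Hub T R P Rt g) :
    {z | Iso T P R Rt z}.ncard ≤ 2 := by
  rcases hb.rt with hrt | hrt
  · exact hb.two_hubs_aux hT htw hh hg hrt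
  · rw [iso_swap]
    exact hb.swap.two_hubs_aux hT htw hg hh hrt

omit [Finite τ] in
theorem outside_eq : {z | z ∉ P ∧ z ∉ R ∧ z ∉ Rt} =
    {z | Iso T P R Rt z} ∪ {z | Hub T P R Rt z} ∪ {z | Hub T R P Rt z} := by
  ext z
  simp only [Iso, Hub, Set.mem_ofPred_eq, Set.mem_union]
  constructor
  · intro h
    by_cases h1 : ∃ x ∈ P, T.Adj z x
    · exact Or.inl (Or.inr ⟨h, h1⟩)
    by_cases h2 : ∃ x ∈ R, T.Adj z x
    · exact Or.inr ⟨⟨h.2.1, h.1, h.2.2⟩, h2⟩
    push Not at h1 h2
    exact Or.inl (Or.inl ⟨h, h1, h2⟩)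
  · rintro ((h | h) | h)
    · exact h.1
    · exact h.1
    · exact ⟨h.1.2.1, h.1.1, h.1.2.2⟩

theorem hub_card (hb : Blk T P R Rt) (hT : T.IsAcyclic) : {z | Hub T P R Rt z}.ncard ≤ 1 := by
  rw [Set.ncard_le_one_iff]
  intro a b ha hb'
  exact hb.hub_unique hT ha hb'

theorem outside_card_le : {z | z ∉ P ∧ z ∉ R ∧ z ∉ Rt}.ncard ≤
    {z | Iso T P R Rt z}.ncard + {z | Hub T P R Rt z}.ncard + {z | Hub T R P Rt z}.ncard := by
  rw [outside_eq (T := T)]
  refine (Set.ncard_union_le _ _).trans ?_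
  have := Set.ncard_union_le {z | Iso T P R Rt z} {z | Hub T P R Rt z}
  omega

theorem no_hub (hb : Blk T P R Rt) (hT : T.IsTree) (htw : TwinFree T)
    (h1 : ∀ z, ¬ Hub T P R Rt z) (h2 : ∀ z, ¬ Hub T R P Rt z) :
    {z | z ∉ P ∧ z ∉ R ∧ z ∉ Rt}.ncard ≤ 1 := by
  have e := outside_card_le (T := T) (P := P) (R := R) (Rt := Rt)
  have e1 : {z | Hub T P R Rt z} = ∅ := by
    ext z; simpa using h1 z
  have e2 : {z | Hub T R P Rt z} = ∅ := by
    ext z; simpa using h2 z
  rw [e1, e2] at e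
  have e3 := hb.iso_card hT.2 htw {(true, false, false)} (by
    intro z hz
    have hne := hb.code_ne hT hz
    simp only [code, ne_eq, Prod.mk.injEq, decide_eq_false_iff_not, not_exists, not_and,
      Finset.mem_singleton, decide_eq_true_eq] at hne ⊢
    refine ⟨?_, fun h hh => absurd hh (h1 h), fun h hh => absurd hh (h2 h)⟩
    by_contra hcon
    push Not at hcon
    exact hne hcon (fun h hh => absurd hh (h1 h)) (fun h hh => absurd hh (h2 h)))
  simp only [Set.ncard_empty, Finset.card_singleton] at e e3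
  omega

theorem one_hub (hb : Blk T P R Rt) (hT : T.IsTree) (htw : TwinFree T)
    (h2 : ∀ z, ¬ Hub T R P Rt z) :
    {z | z ∉ P ∧ z ∉ R ∧ z ∉ Rt}.ncard ≤ 4 := by
  have e := outside_card_le (T := T) (P := P) (R := R) (Rt := Rt)
  have e1 := hb.hub_card hT.2
  have e2 : {z | Hub T R P Rt z} = ∅ := by
    ext z; simpa using h2 z
  rw [e2] at e
  have e3 := hb.iso_card hT.2 htw
    {(true, false, false), (false, true, false), (true, true, false)} (by
    intro z hz
    have hne := hb.code_ne hT hz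
    have h3 : (code T P R Rt z).2.2 = false := by
      simp only [code, decide_eq_false_iff_not, not_exists, not_and]
      exact fun h hh => absurd hh (h2 h)
    revert hne h3
    generalize code T P R Rt z = c
    revert c
    decide)
  have e4 : ({(true, false, false), (false, true, false), (true, true, false)} :
    Finset (Bool × Bool × Bool)).card = 3 := by decide
  rw [Set.ncard_empty] at e
  omega

theorem one_hub_empty (hb : Blk T P R Rt) (hT : T.IsTree) (htw : TwinFree T)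
    (h2 : ∀ z, ¬ Hub T R P Rt z) (h3 : Rt = ∅) :
    {z | z ∉ P ∧ z ∉ R ∧ z ∉ Rt}.ncard ≤ 2 := by
  have e := outside_card_le (T := T) (P := P) (R := R) (Rt := Rt)
  have e1 := hb.hub_card hT.2
  have e2 : {z | Hub T R P Rt z} = ∅ := by
    ext z; simpa using h2 z
  rw [e2] at e
  have e3 := hb.iso_card hT.2 htw {(false, true, false)} (by
    intro z hz
    have hne := hb.code_ne hT hz
    have h3 : (code T P R Rt z).2.2 = false := by
      simp only [code, decide_eq_false_iff_not, not_exists, not_and]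
      exact fun h hh => absurd hh (h2 h)
    have h4 : (code T P R Rt z).1 = false := by
      simp [code, h3]
      simp [‹Rt = ∅›]
    revert hne h3 h4
    generalize code T P R Rt z = c
    revert c
    decide)
  simp only [Set.ncard_empty, Finset.card_singleton] at e e3
  omega

theorem one_hub_far (hb : Blk T P R Rt) (hT : T.IsTree) (htw : TwinFree T)
    (h2 : ∀ z, ¬ Hub T R P Rt z) {h : τ} (hh : Hub T P R Rt h)
    (h3 : ∀ z, Iso T P R Rt z → ¬ T.Adj z h) :
    {z | z ∉ P ∧ z ∉ R ∧ z ∉ Rt}.ncard ≤ 2 := by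
  have e := outside_card_le (T := T) (P := P) (R := R) (Rt := Rt)
  have e1 := hb.hub_card hT.2
  have e2 : {z | Hub T R P Rt z} = ∅ := by
    ext z; simpa using h2 z
  rw [e2] at e
  have e3 := hb.iso_card hT.2 htw {(true, false, false)} (by
    intro z hz
    have hne := hb.code_ne hT hz
    have h5 : (code T P R Rt z).2.2 = false := by
      simp only [code, decide_eq_false_iff_not, not_exists, not_and]
      exact fun h hh => absurd hh (h2 h)
    have h4 : (code T P R Rt z).2.1 = false := by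
      simp only [code, decide_eq_false_iff_not, not_exists, not_and]
      intro h' hh' hz'
      obtain rfl := hb.hub_unique hT.2 hh hh'
      exact h3 z hz hz'
    revert hne h5 h4
    generalize code T P R Rt z = c
    revert c
    decide)
  simp only [Set.ncard_empty, Finset.card_singleton] at e e3
  omega

/-- At most four vertices lie outside the block. -/
theorem outside_le (hb : Blk T P R Rt) (hT : T.IsTree) (htw : TwinFree T) :
    {z | z ∉ P ∧ z ∉ R ∧ z ∉ Rt}.ncard ≤ 4 := by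
  by_cases h2 : ∀ z, ¬ Hub T R P Rt z
  · exact hb.one_hub hT htw h2
  by_cases h1 : ∀ z, ¬ Hub T P R Rt z
  · have := hb.swap.one_hub hT htw h1
    have e : {z | z ∉ P ∧ z ∉ R ∧ z ∉ Rt} = {z | z ∉ R ∧ z ∉ P ∧ z ∉ Rt} := by
      ext z
      simp only [Set.mem_ofPred_eq]
      tauto
    rw [e]
    exact this
  push Not at h1 h2
  obtain ⟨h, hh⟩ := h1
  obtain ⟨g, hg⟩ := h2
  have e := outside_card_le (T := T) (P := P) (R := R) (Rt := Rt)
  have e1 := hb.hub_card hT.2
  have e2 := hb.swap.hub_card hT.2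
  have e3 := hb.two_hubs hT htw hh hg
  omega

theorem length_le_ncard {s : Set τ} (l : List τ) (hl : l.Nodup) (hs : ∀ x ∈ l, x ∈ s) :
    l.length ≤ s.ncard := by
  classical
  rw [← List.toFinset_card_of_nodup hl, ← Set.ncard_coe_finset]
  apply Set.ncard_le_ncard _ (Set.toFinite _)
  intro x hx
  simp only [List.coe_toFinset, Set.mem_ofPred_eq] at hx
  exact hs x hx

/-- With two hubs there is an edge with two large halves. -/
theorem two_hub_edge_aux (hb : Blk T P R Rt) (hT : T.IsTree) (htw : TwinFree T) {h g : τ}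
    (hh : Hub T P R Rt h) (hg : Hub T R P Rt g) (hrt : ∀ x ∈ Rt, ∀ y ∈ R, ¬ T.Adj x y) :
    ∃ a b, T.Adj a b ∧ 5 ≤ (hf T a b).ncard ∧ 5 ≤ (hf T b a).ncard := by
  obtain ⟨y1, y2, y3, xa, x0, my1, my2, my3, gy1, gy2, gy3, d12, d13, d23, hleaf, mxa, y2xa, hxa,
    mx0, y3x0, hx0⟩ := hb.rside hT.2 htw hh hg hrt
  refine ⟨xa, y2, y2xa.symm, ?_, ?_⟩
  · -- the half of `xa`
    have mh : h ∈ hf T xa y2 := by
      rcases hf_closed hT.2 y2xa.symm (self_mem_hf _ _) hxa.symm with h' | ⟨_, rfl⟩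
      · exact h'
      · exact absurd my2 hh.1.2.1
    have hmem : ∀ x ∈ P, T.Adj h x → x ∈ hf T xa y2 := by
      intro x hx hhx
      rcases hf_closed hT.2 y2xa.symm mh hhx with h' | ⟨rfl, _⟩
      · exact h'
      · exact absurd mxa hh.1.1
    have fin : ∀ x x', x ∈ P → x' ∈ P → T.Adj h x → T.Adj h x' → x ≠ x' → x ≠ xa → x' ≠ xa →
        (∃ w, w ≠ h ∧ T.Adj x w) → 5 ≤ (hf T xa y2).ncard := by
      rintro x x' hx hx' hhx hhx' hxx hxa1 hxa2 ⟨w, hwh, hxw⟩
      have hw : w ∈ hf T xa y2 := by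
        rcases hf_closed hT.2 y2xa.symm (hmem x hx hhx) hxw with h' | ⟨rfl, _⟩
        · exact h'
        · exact absurd rfl hxa1
      have hwP : w ∉ P := fun h' => hb.indP x hx w h' hxw
      refine length_le_ncard [xa, h, x, x', w] ?_ ?_
      · have hhP := hh.1.1
        simp only [List.nodup_cons, List.mem_cons, List.not_mem_nil, or_false, not_or,
          not_false_eq_true, List.nodup_nil, and_true]
        refine ⟨⟨?_, hxa1.symm, hxa2.symm, ?_⟩, ⟨?_, ?_, hwh.symm⟩, ⟨hxx, ?_⟩, ?_⟩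
        · rintro rfl; exact hhP mxa
        · rintro rfl; exact hwP mxa
        · rintro rfl; exact hhP hx
        · rintro rfl; exact hhP hx'
        · rintro rfl; exact hwP hx
        · rintro rfl; exact hwP hx'
      · intro v hv
        simp only [List.mem_cons, List.not_mem_nil, or_false] at hv
        rcases hv with rfl | rfl | rfl | rfl | rfl
        · exact self_mem_hf _ _
        · exact mh
        · exact hmem _ hx hhx
        · exact hmem _ hx' hhx'
        · exact hw
    have fin2 : ∀ x x', x ∈ P → x' ∈ P → T.Adj h x → T.Adj h x' → x ≠ x' → x ≠ xa → x' ≠ xa →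
        5 ≤ (hf T xa y2).ncard := by
      intro x x' hx hx' hhx hhx' hxx hxa1 hxa2
      by_cases e1 : ∃ w, w ≠ h ∧ T.Adj x w
      · exact fin x x' hx hx' hhx hhx' hxx hxa1 hxa2 e1
      by_cases e2 : ∃ w, w ≠ h ∧ T.Adj x' w
      · exact fin x' x hx' hx hhx' hhx hxx.symm hxa2 hxa1 e2
      exfalso
      push Not at e1 e2
      apply hxx
      apply leaf_eq htw hhx hhx'
      · intro w hw
        by_contra hne
        exact e1 w hne hw
      · intro w hw
        by_contra hne
        exact e2 w hne hw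
    obtain ⟨a, b, c, ha, hb', hc, h1, h2, h3, h4, h5, h6⟩ := hb.exists_three hh
    by_cases ea : a = xa
    · subst ea
      exact fin2 b c hb' hc h2 h3 h6 h4.symm h5.symm
    · by_cases eb : b = xa
      · subst eb
        exact fin2 a c ha hc h1 h3 h5 ea h6.symm
      · exact fin2 a b ha hb' h1 h2 h4 ea eb
  · have mg : g ∈ hf T y2 xa := by
      rcases hf_closed hT.2 y2xa (self_mem_hf _ _) gy2.symm with h' | ⟨_, rfl⟩
      · exact h'
      · exact absurd mxa hg.1.2.1
    have hmem : ∀ x ∈ R, T.Adj g x → x ∈ hf T y2 xa := by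
      intro x hx hhx
      rcases hf_closed hT.2 y2xa mg hhx with h' | ⟨rfl, _⟩
      · exact h'
      · exact absurd my2 hg.1.1
    have m0 : x0 ∈ hf T y2 xa := by
      rcases hf_closed hT.2 y2xa (hmem _ my3 gy3) y3x0 with h' | ⟨rfl, _⟩
      · exact h'
      · exact absurd rfl d23
    refine length_le_ncard [y2, g, y1, y3, x0] ?_ ?_
    · have hgR := hg.1.1
      have hx0R : x0 ∉ R := hb.dPR x0 mx0
      simp only [List.nodup_cons, List.mem_cons, List.not_mem_nil, or_false, not_or,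
        not_false_eq_true, List.nodup_nil, and_true]
      refine ⟨⟨?_, d12.symm, d23, ?_⟩, ⟨?_, ?_, ?_⟩, ⟨d13, ?_⟩, ?_⟩
      · rintro rfl; exact hgR my2
      · rintro rfl; exact hx0R my2
      · rintro rfl; exact hgR my1
      · rintro rfl; exact hgR my3
      · rintro rfl; exact hg.1.2.1 mx0
      · rintro rfl; exact hx0R my1
      · rintro rfl; exact hx0R my3
    · intro v hv
      simp only [List.mem_cons, List.not_mem_nil, or_false] at hv
      rcases hv with rfl | rfl | rfl | rfl | rfl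
      · exact self_mem_hf _ _
      · exact mg
      · exact hmem _ my1 gy1
      · exact hmem _ my3 gy3
      · exact m0

theorem two_hub_edge (hb : Blk T P R Rt) (hT : T.IsTree) (htw : TwinFree T) {h g : τ}
    (hh : Hub T P R Rt h) (hg : Hub T R P Rt g) :
    ∃ a b, T.Adj a b ∧ 5 ≤ (hf T a b).ncard ∧ 5 ≤ (hf T b a).ncard := by
  rcases hb.rt with hrt | hrt
  · exact hb.two_hub_edge_aux hT htw hh hg hrt
  · exact hb.swap.two_hub_edge_aux hT htw hg hh hrt

end Blk

end Pool.Agent.SA36
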