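import Pool.Agent.SA36.HostHG

set_option autoImplicit false

/-! The check `chk4` and the theorem `run = true → P4`. -/

namespace Pool.Agent.SA36

open SimpleGraph Pool.Agent.SA33 Pool.Agent.SA97 Pool.Agent.SA97.Eng

theorem one_ne_zero' {k : ℕ} (hk : 3 ≤ k) : (1 : ZMod (2 * k - 1)) ≠ 0 := by
  have := natCast_ne_zero' (n := 2 * k - 1) (d := 1) (by omega) (by omega)
  simpa using this

theorem ne_succ {k : ℕ} (hk : 3 ≤ k) (i : ZMod (2 * k - 1)) : i ≠ i + 1 := by
  intro h
  apply one_ne_zero' hk
  have := congrArg (fun z => z - i) h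
  simpa using this.symm

/-- The near relation on the three classes of a hyperedge. -/
theorem near_trip {k : ℕ} {i j : ZMod (2 * k - 1)} (h1 : Far i j) (h2 : Far (i + 1) j)
    {x y : ZMod (2 * k - 1)} (hx : x = i ∨ x = j ∨ x = i + 1) (hy : y = i ∨ y = j ∨ y = i + 1)
    (hxy : x ≠ y) : cnear (2 * k - 1) x y ↔ (x ≠ j ∧ y ≠ j) := by
  have hs : ∀ a b : ZMod (2 * k - 1), Far a b → ¬ cnear (2 * k - 1) a b := by
    intro a b h
    rw [← not_far_iff, not_not]; exact h
  rcases hx with rfl | rfl | rfl <;> rcases hy with rfl | rfl | rfl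
  · exact absurd rfl hxy
  · exact ⟨fun h => absurd h (hs _ _ h1), fun h => absurd rfl h.2⟩
  · exact ⟨fun _ => ⟨h1.1, h2.1⟩, fun _ => Or.inr (Or.inr rfl)⟩
  · exact ⟨fun h => absurd h (hs _ _ h1.symm), fun h => absurd rfl h.1⟩
  · exact absurd rfl hxy
  · exact ⟨fun h => absurd h (hs _ _ h2.symm), fun h => absurd rfl h.1⟩
  · exact ⟨fun _ => ⟨h2.1, h1.1⟩, fun _ => Or.inr (Or.inl rfl)⟩
  · exact ⟨fun h => absurd h (hs _ _ h2), fun h => absurd rfl h.2⟩
  · exact absurd rfl hxy

theorem big2_spec {m : ℕ} (h : big2 m = true) : ∃ x y, x ≠ y ∧ m.testBit x = true ∧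
    m.testBit y = true := by
  unfold big2 at h
  rw [beq_dec] at h
  by_cases h0 : clr m = 0
  · rw [decide_eq_true h0] at h
    exact absurd h (by decide)
  · exact two_of_clr h0

theorem big4_spec {m : ℕ} (h : big4 m = true) : ∃ l : List ℕ, l.Nodup ∧ l.length = 4 ∧
    ∀ x ∈ l, m.testBit x = true := by
  unfold big4 at h
  rw [force_eq, force_eq, beq_dec] at h
  by_cases h0 : clr (clr (clr m)) = 0
  · rw [decide_eq_true h0] at h
    exact absurd h (by decide)
  · have hz : ∀ m, clr m ≠ 0 → m ≠ 0 := by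
      rintro m h1 rfl; exact h1 rfl
    have h1 := hz _ h0
    have h2 := hz _ h1
    have h3 := hz _ h2
    obtain ⟨a, ha, ha', _⟩ := clr_spec h3
    obtain ⟨b, hb, hb', _⟩ := clr_spec h2
    obtain ⟨c, hc, hc', _⟩ := clr_spec h1
    obtain ⟨e, he, _, _⟩ := clr_spec h0
    have e1 := (hc' e).1 he
    have e2 := (hb' e).1 e1.1
    have e3 := (ha' e).1 e2.1
    have c2 := (hb' c).1 hc
    have c3 := (ha' c).1 c2.1
    have b3 := (ha' b).1 hb
    refine ⟨[a, b, c, e], ?_, rfl, ?_⟩
    · simp only [List.nodup_cons, List.mem_cons, List.not_mem_nil, or_false, not_or,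
        not_false_eq_true, List.nodup_nil, and_true]
      exact ⟨⟨Ne.symm b3.2, Ne.symm c3.2, Ne.symm e3.2⟩, ⟨Ne.symm c2.2, Ne.symm e2.2⟩,
        Ne.symm e1.2⟩
    · intro x hx
      simp only [List.mem_cons, List.not_mem_nil, or_false] at hx
      rcases hx with rfl | rfl | rfl | rfl
      · exact ha
      · exact b3.1
      · exact c3.1
      · exact e3.1

theorem tri3_false {a b c : ℕ × ℕ} (h1 : ¬ (big2 a.1 = true ∧ big2 b.1 = true))
    (h2 : ¬ (big4 a.1 = true ∧ big4 c.1 = true)) (h3 : ¬ (big4 b.1 = true ∧ big4 c.1 = true)) :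
    tri3 a b c = false := by
  unfold tri3
  revert h1 h2 h3
  generalize big2 a.1 = x1
  generalize big2 b.1 = x2
  generalize big4 a.1 = x3
  generalize big4 b.1 = x4
  generalize big4 c.1 = x5
  revert x1 x2 x3 x4 x5
  decide

section
variable {k L : ℕ} {σ : Type} {S : SimpleGraph σ} {d : σ → ℕ} {V : Type} {G : SimpleGraph V}
variable {n : ℕ} {p : List ℕ}

/-- Vertices of the tree in a hyperedge have one of the three classes. -/
theorem hg_cls (H : Host k L S d G) (hL : n ≤ L) (hn : 0 < n) (φ : tree n p ↪g G) (e : H.E)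
    {u : ℕ} (h : (hgOf H hL hn φ).mem e u) :
    H.cls (ext0 hn φ u) = H.ti e ∨ H.cls (ext0 hn φ u) = H.tj e ∨
      H.cls (ext0 hn φ u) = H.ti e + 1 := by
  obtain ⟨_, q, hq⟩ := h
  rw [← hq, H.cls_vtx]
  rcases tcl_cases (H.ti e) (H.tj e) (d q) with ⟨_, h⟩ | ⟨_, h⟩ | ⟨_, _, h⟩
  · exact Or.inl h
  · exact Or.inr (Or.inl h)
  · exact Or.inr (Or.inr h)

theorem hg_root (hk : 3 ≤ k) (hd : ∀ p q, d p = 0 → d q = 0 → p = q)
    (H : Host k L S d G) (hL : n ≤ L) (hn : 0 < n) (φ : tree n p ↪g G) (e : H.E)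
    {u w : ℕ} (hu : (hgOf H hL hn φ).mem e u) (hw : (hgOf H hL hn φ).mem e w)
    (hu' : H.cls (ext0 hn φ u) = H.ti e) (hw' : H.cls (ext0 hn φ w) = H.ti e) : u = w := by
  obtain ⟨hun, q, hq⟩ := hu
  obtain ⟨hwn, r, hr⟩ := hw
  have aux : ∀ q, H.cls (H.vtx e q) = H.ti e → d q = 0 := by
    intro q hq
    rw [H.cls_vtx] at hq
    rcases tcl_cases (H.ti e) (H.tj e) (d q) with ⟨h, _⟩ | ⟨_, h⟩ | ⟨_, _, h⟩
    · exact h
    · rw [h] at hq; exact absurd hq.symm (H.far_ij e).1
    · rw [h] at hq; exact absurd hq.symm (ne_succ hk _)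
  rw [← hq] at hu'
  rw [← hr] at hw'
  have h1 := hd q r (aux q hu') (aux r hw')
  rw [h1, hr] at hq
  rw [ext0_lt hn φ hun, ext0_lt hn φ hwn] at hq
  have h2 := φ.injective hq
  rw [Fin.mk.injEq] at h2
  exact h2.symm

theorem hg_tri (hk : 3 ≤ k) (H : Host k L S d G) (hL : n ≤ L) (hn : 0 < n) (φ : tree n p ↪g G) :
    ∀ (e : (hgOf H hL hn φ).E) u w x, (hgOf H hL hn φ).mem e u → (hgOf H hL hn φ).mem e w →
      (hgOf H hL hn φ).mem e x → u < n → w < n → x < n →
      ¬cnear (2 * k - 1) (H.cls (ext0 hn φ u)) (H.cls (ext0 hn φ w)) →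
      ¬cnear (2 * k - 1) (H.cls (ext0 hn φ u)) (H.cls (ext0 hn φ x)) →
      cnear (2 * k - 1) (H.cls (ext0 hn φ w)) (H.cls (ext0 hn φ x)) := by
  intro e u w x hu hw hx _ _ _ h1 h2
  have hN : Near (cnear (2 * k - 1)) := near_cnear (by omega)
  have cu := hg_cls H hL hn φ e hu
  have cw := hg_cls H hL hn φ e hw
  have cx := hg_cls H hL hn φ e hx
  by_cases hwx : H.cls (ext0 hn φ w) = H.cls (ext0 hn φ x)
  · rw [hwx]; exact hN.refl _
  rw [near_trip (H.far_ij e) (H.far_lj e) cw cx hwx]
  have huw : H.cls (ext0 hn φ u) ≠ H.cls (ext0 hn φ w) := by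
    intro h; rw [h] at h1; exact h1 (hN.refl _)
  have hux : H.cls (ext0 hn φ u) ≠ H.cls (ext0 hn φ x) := by
    intro h; rw [h] at h2; exact h2 (hN.refl _)
  rw [near_trip (H.far_ij e) (H.far_lj e) cu cw huw] at h1
  rw [near_trip (H.far_ij e) (H.far_lj e) cu cx hux] at h2
  by_cases hu' : H.cls (ext0 hn φ u) = H.tj e
  · exact ⟨fun h => huw (hu'.trans h.symm), fun h => hux (hu'.trans h.symm)⟩
  · exfalso
    have h3 : H.cls (ext0 hn φ w) = H.tj e := by
      by_contra h; exact h1 ⟨hu', h⟩
    have h4 : H.cls (ext0 hn φ x) = H.tj e := by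
      by_contra h; exact h2 ⟨hu', h⟩
    exact hwx (h3.trans h4.symm)

theorem chk4_ok (hk : 3 ≤ k) (hd : ∀ p q, d p = 0 → d q = 0 → p = q)
    (H : Host k L S d G) (hL : n ≤ L) (hn : 0 < n) (φ : tree n p ↪g G)
    (hno : ∀ (e : H.E) (J K : ZMod (2 * k - 1)), Far J K →
      ¬ (4 ≤ {x | φ x ∈ Set.range (H.vtx e) ∧ H.cls (φ x) = J}.ncard ∧
      4 ≤ {x | φ x ∈ Set.range (H.vtx e) ∧ H.cls (φ x) = K}.ncard)) :
    (hgOf H hL hn φ).ChkOK chk4 := by
  intro e' B cs P hB' hcs hP hall
  obtain ⟨e, he⟩ : ∃ e : H.E, e = e' := ⟨e', rfl⟩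
  have hB : ∀ u, B.testBit u = true → u < n ∧ (hgOf H hL hn φ).mem e u := by
    rw [he]; exact hB'
  clear hB'
  have hN : Near (cnear (2 * k - 1)) := near_cnear (by omega)
  -- facts on one entry
  have fact : ∀ (c : ZMod (2 * k - 1)) (q : ℕ × ℕ),
      ((∀ u, q.1.testBit u = true ↔ (B.testBit u = true ∧ H.cls (ext0 hn φ u) = c)) ∧
      (∀ u, B.testBit u = true → (q.2.testBit u = true ↔
        cnear (2 * k - 1) (H.cls (ext0 hn φ u)) c)) ∧ q.1 ≠ 0) →
      (c = H.ti e ∨ c = H.tj e ∨ c = H.ti e + 1) ∧ (c = H.ti e → big2 q.1 = false) := by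
    rintro c q ⟨h1, _, h3⟩
    constructor
    · obtain ⟨u, hu, _⟩ := clr_spec h3
      obtain ⟨h4, h5⟩ := (h1 u).1 hu
      have := hg_cls H hL hn φ e (hB u h4).2
      rwa [h5] at this
    · intro hc
      rw [Bool.eq_false_iff]
      intro h4
      obtain ⟨x, y, hxy, hx, hy⟩ := big2_spec h4
      obtain ⟨hx1, hx2⟩ := (h1 x).1 hx
      obtain ⟨hy1, hy2⟩ := (h1 y).1 hy
      exact hxy (hg_root hk hd H hL hn φ e (hB x hx1).2 (hB y hy1).2 (hx2.trans hc) (hy2.trans hc))
  have far4 : ∀ (c c' : ZMod (2 * k - 1)) (q q' : ℕ × ℕ),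
      (∀ u, q.1.testBit u = true ↔ (B.testBit u = true ∧ H.cls (ext0 hn φ u) = c)) →
      (∀ u, q'.1.testBit u = true ↔ (B.testBit u = true ∧ H.cls (ext0 hn φ u) = c')) →
      Far c c' → ¬ (big4 q.1 = true ∧ big4 q'.1 = true) := by
    rintro c c' q q' h1 h2 hf ⟨h3, h4⟩
    have aux : ∀ (c : ZMod (2 * k - 1)) (q : ℕ × ℕ),
      (∀ u, q.1.testBit u = true ↔ (B.testBit u = true ∧ H.cls (ext0 hn φ u) = c)) →
      big4 q.1 = true → 4 ≤ {x | φ x ∈ Set.range (H.vtx e) ∧ H.cls (φ x) = c}.ncard := by
      intro c q h1 h3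
      obtain ⟨l, hl, hlen, hlm⟩ := big4_spec h3
      have hlt : ∀ x ∈ l, x < n := fun x hx => (hB x ((h1 x).1 (hlm x hx)).1).1
      have hsub : (l.pmap (fun x hx => (⟨x, hx⟩ : Fin n)) hlt).length ≤
          {x | φ x ∈ Set.range (H.vtx e) ∧ H.cls (φ x) = c}.ncard := by
        refine Blk.length_le_ncard _ ?_ ?_
        · refine List.Nodup.pmap ?_ hl
          intro a ha b hb hab
          simpa using hab
        · intro x hx
          rw [List.mem_pmap] at hx
          obtain ⟨u, hu, rfl⟩ := hx
          obtain ⟨h5, h6⟩ := (h1 u).1 (hlm u hu)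
          have h7 := (hB u h5).2.2
          rw [ext0_lt hn φ (hlt u hu)] at h6 h7
          exact ⟨h7, h6⟩
      rw [List.length_pmap, hlen] at hsub
      exact hsub
    exact hno e c c' hf ⟨aux c q h1 h3, aux c' q' h2 h4⟩
  have nrs : ∀ (c c' : ZMod (2 * k - 1)) (q q' : ℕ × ℕ),
      ((∀ u, q.1.testBit u = true ↔ (B.testBit u = true ∧ H.cls (ext0 hn φ u) = c)) ∧
      (∀ u, B.testBit u = true → (q.2.testBit u = true ↔
        cnear (2 * k - 1) (H.cls (ext0 hn φ u)) c)) ∧ q.1 ≠ 0) →
      ((∀ u, q'.1.testBit u = true ↔ (B.testBit u = true ∧ H.cls (ext0 hn φ u) = c')) ∧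
      (∀ u, B.testBit u = true → (q'.2.testBit u = true ↔
        cnear (2 * k - 1) (H.cls (ext0 hn φ u)) c')) ∧ q'.1 ≠ 0) → c ≠ c' →
      nr q q' = decide (c ≠ H.tj e ∧ c' ≠ H.tj e) := by
    intro c c' q q' h1 h2 hne
    have f1 := (fact c q h1).1
    have f2 := (fact c' q' h2).1
    have ht := near_trip (H.far_ij e) (H.far_lj e) f1 f2 hne
    unfold nr
    rw [beq_dec]
    by_cases h0 : Nat.land q.2 q'.1 = 0
    · rw [decide_eq_true h0, cond_true, eq_comm, decide_eq_false_iff_not]
      intro hn'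
      have hn := ht.2 hn'
      obtain ⟨u, hu, _⟩ := clr_spec h2.2.2
      obtain ⟨h5, h6⟩ := (h2.1 u).1 hu
      rw [land_eq_zero] at h0
      refine h0 u ⟨(h1.2.1 u h5).2 ?_, hu⟩
      rw [h6]; exact hN.symm _ _ hn
    · rw [decide_eq_false h0, cond_false, eq_comm, decide_eq_true_eq]
      apply ht.1
      obtain ⟨u, hu1, hu2⟩ := exists_of_land_ne h0
      obtain ⟨h5, h6⟩ := (h2.1 u).1 hu2
      have := (h1.2.1 u h5).1 hu1
      rw [h6] at this
      exact hN.symm _ _ this
  have farj : ∀ c, (c = H.ti e ∨ c = H.tj e ∨ c = H.ti e + 1) → c ≠ H.tj e → Far c (H.tj e) := by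
    rintro c (rfl | rfl | rfl) h
    · exact H.far_ij e
    · exact absurd rfl h
    · exact H.far_lj e
  cases hP with
  | nil => rfl
  | cons ha hP =>
    rename_i c1 a cs P
    cases hP with
    | nil => rfl
    | cons hb hP =>
      rename_i c2 b cs P
      have h12 : c1 ≠ c2 := by
        rintro rfl; simp at hcs
      have f1 := fact _ _ ha
      have f2 := fact _ _ hb
      cases hP with
      | nil =>
        change cond (nr a b) (cond (big2 a.1) (big2 b.1) false) (cond (big4 a.1) (big4 b.1) false)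
          = false
        rw [nrs c1 c2 a b ha hb h12]
        by_cases hj : c1 ≠ H.tj e ∧ c2 ≠ H.tj e
        · rw [decide_eq_true hj, cond_true]
          rcases f1.1 with h | h | h
          · rw [f1.2 h]; rfl
          · exact absurd h hj.1
          · rcases f2.1 with h' | h' | h'
            · rw [f2.2 h']; cases big2 a.1 <;> rfl
            · exact absurd h' hj.2
            · exact absurd (h.trans h'.symm) h12
        · rw [decide_eq_false hj, cond_false]
          have hf : Far c1 c2 := by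
            by_cases h1 : c1 = H.tj e
            · rw [h1]; exact (farj c2 f2.1 (fun h => h12 (h1.trans h.symm))).symm
            · have h2 : c2 = H.tj e := by
                by_contra h; exact hj ⟨h1, h⟩
              rw [h2]; exact farj c1 f1.1 h1
          have := far4 c1 c2 a b ha.1 hb.1 hf
          cases h3 : big4 a.1
          · rfl
          · cases h4 : big4 b.1
            · rfl
            · exact absurd ⟨h3, h4⟩ this
      | cons hc hP =>
        rename_i c3 c cs P
        have h13 : c1 ≠ c3 := by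
          rintro rfl; simp at hcs
        have h23 : c2 ≠ c3 := by
          rintro rfl; simp at hcs
        have f3 := fact _ _ hc
        cases hP with
        | nil =>
          change (cond (nr a b) (cond (nr a c) true (cond (nr b c) true (tri3 a b c)))
            (cond (nr a c) (cond (nr b c) true (tri3 a c b))
            (cond (nr b c) (tri3 b c a) true))) = false
          rw [nrs c1 c2 a b ha hb h12, nrs c1 c3 a c ha hc h13, nrs c2 c3 b c hb hc h23]
          -- two different classes other than `tj`: not both big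
          have two : ∀ (c c' : ZMod (2 * k - 1)) (q q' : ℕ × ℕ),
              (c = H.ti e ∨ c = H.tj e ∨ c = H.ti e + 1) → (c = H.ti e → big2 q.1 = false) →
              (c' = H.ti e ∨ c' = H.tj e ∨ c' = H.ti e + 1) → (c' = H.ti e → big2 q'.1 = false) →
              c ≠ c' → c ≠ H.tj e → c' ≠ H.tj e → ¬ (big2 q.1 = true ∧ big2 q'.1 = true) := by
            rintro c c' q q' g1 g2 g3 g4 g5 g6 g7 ⟨g8, g9⟩
            rcases g1 with h | h | h
            · rw [g2 h] at g8; exact absurd g8 (by decide)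
            · exact g6 h
            · rcases g3 with h' | h' | h'
              · rw [g4 h'] at g9; exact absurd g9 (by decide)
              · exact g7 h'
              · exact g5 (h.trans h'.symm)
          by_cases j1 : c1 = H.tj e
          · have j2 : c2 ≠ H.tj e := fun h => h12 (j1.trans h.symm)
            have j3 : c3 ≠ H.tj e := fun h => h13 (j1.trans h.symm)
            rw [decide_eq_false (fun h => h.1 j1), decide_eq_false (fun h => h.1 j1),
              decide_eq_true ⟨j2, j3⟩]
            simp only [cond_false, cond_true]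
            refine tri3_false (two c2 c3 b c f2.1 f2.2 f3.1 f3.2 h23 j2 j3) ?_ ?_
            · exact far4 c2 c1 b a hb.1 ha.1 (by rw [j1]; exact farj c2 f2.1 j2)
            · exact far4 c3 c1 c a hc.1 ha.1 (by rw [j1]; exact farj c3 f3.1 j3)
          · by_cases j2 : c2 = H.tj e
            · have j3 : c3 ≠ H.tj e := fun h => h23 (j2.trans h.symm)
              rw [decide_eq_false (fun h => h.2 j2), decide_eq_true ⟨j1, j3⟩,
                decide_eq_false (fun h => h.1 j2)]
              simp only [cond_false, cond_true]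
              refine tri3_false (two c1 c3 a c f1.1 f1.2 f3.1 f3.2 h13 j1 j3) ?_ ?_
              · exact far4 c1 c2 a b ha.1 hb.1 (by rw [j2]; exact farj c1 f1.1 j1)
              · exact far4 c3 c2 c b hc.1 hb.1 (by rw [j2]; exact farj c3 f3.1 j3)
            · have j3 : c3 = H.tj e := by
                rcases f1.1 with h | h | h
                · rcases f2.1 with h' | h' | h'
                  · exact absurd (h.trans h'.symm) h12
                  · exact absurd h' j2
                  · rcases f3.1 with h'' | h'' | h''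
                    · exact absurd (h.trans h''.symm) h13
                    · exact h''
                    · exact absurd (h'.trans h''.symm) h23
                · exact absurd h j1
                · rcases f2.1 with h' | h' | h'
                  · rcases f3.1 with h'' | h'' | h''
                    · exact absurd (h'.trans h''.symm) h23
                    · exact h''
                    · exact absurd (h.trans h''.symm) h13
                  · exact absurd h' j2
                  · exact absurd (h.trans h'.symm) h12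
              rw [decide_eq_true ⟨j1, j2⟩, decide_eq_false (fun h => h.2 j3),
                decide_eq_false (fun h => h.2 j3)]
              simp only [cond_false, cond_true]
              refine tri3_false (two c1 c2 a b f1.1 f1.2 f2.1 f2.2 h12 j1 j2) ?_ ?_
              · exact far4 c1 c3 a c ha.1 hc.1 (by rw [j3]; exact farj c1 f1.1 j1)
              · exact far4 c2 c3 b c hb.1 hc.1 (by rw [j3]; exact farj c2 f2.1 j2)
        | cons hd' hP =>
          rename_i c4 q cs P
          exfalso
          have f4 := fact _ _ hd'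
          have h14 : c1 ≠ c4 := by
            rintro rfl; simp at hcs
          have h24 : c2 ≠ c4 := by
            rintro rfl; simp at hcs
          have h34 : c3 ≠ c4 := by
            rintro rfl; simp at hcs
          have g1 := f1.1
          have g2 := f2.1
          have g3 := f3.1
          have g4 := f4.1
          clear f1 f2 f3 f4 hd' hcs hc hb ha hP hall far4 nrs farj fact hno
          generalize H.ti e + 1 = a3 at *
          generalize H.ti e = a1 at *
          generalize H.tj e = a2 at *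
          grind


theorem hpar_list {q : List ℕ} (h : ∀ v : Fin q.length, 1 ≤ v.1 → q.getD v.1 0 < v.1) :
    ∀ v, 1 ≤ v → v < q.length → q.getD v 0 < v :=
  fun v h1 h2 => h ⟨v, h2⟩ h1

/-- A successful run shows the property `P(4)`. -/
theorem P4_of_run (hn : 0 < n) (hn20 : n ≤ 20) (hlen : p.length = n)
    (hp : ∀ v, 1 ≤ v → v < n → p.getD v 0 < v)
    (h : run (bstep chk4) p.tail [] = true) : P4 (tree n p) := by
  intro k L hk hL σ S d hd V G H φ
  by_contra hcon
  push Not at hcon
  have hL' : n ≤ L := by omega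
  let HH := hgOf H hL' hn φ
  have hN : Near (cnear (2 * k - 1)) := near_cnear (by omega)
  have hadj : ∀ v, 1 ≤ v → v < n → G.Adj (ext0 hn φ (p.getD v 0)) (ext0 hn φ v) := by
    intro v h1 h2
    have h3 := hp v h1 h2
    rw [ext0_lt hn φ (by omega : p.getD v 0 < n), ext0_lt hn φ h2, φ.map_adj_iff]
    change padj p (p.getD v 0) v = true
    unfold padj
    rw [Bool.or_eq_true, Bool.and_eq_true]
    left
    exact ⟨Nat.ble_eq_true_of_le h3, Nat.beq_refl _⟩
  have hpar : ∀ v, 1 ≤ v → v < n → p.getD v 0 < v ∧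
      ¬cnear (2 * k - 1) (H.cls (ext0 hn φ (p.getD v 0))) (H.cls (ext0 hn φ v)) := by
    intro v h1 h2
    refine ⟨hp v h1 h2, ?_⟩
    rw [← not_far_iff, not_not]
    exact H.adj_far _ _ (hadj v h1 h2)
  have hstep := HH.bstep_ok hN hpar (hg_tri hk H hL' hn φ) (chk4_ok hk hd H hL' hn φ (by
    rintro e J K hf ⟨h1, h2⟩
    have := hcon e J K hf h1
    omega))
  have hrun := run_sound hN hstep hpar p.tail (by rw [List.length_tail]; omega) (by
    intro i hi
    rw [List.length_tail] at hi
    rw [List.getElem_tail, List.getD_eq_getElem _ _ (by omega)]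
    congr 1
    omega) (a := []) (by intro c hc; exact absurd hc List.not_mem_nil)
  rw [h] at hrun
  exact absurd hrun (by decide)

end

end Pool.Agent.SA36
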