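import Pool.Agent.SA97.Eng

set_option autoImplicit false

/-! Runs of the engine on several plans with common beginnings. -/

namespace Pool.Agent.SA36

open Pool.Agent.SA97.Eng

/-- A set of plans. -/
inductive Tr : Type
  | leaf : Tr
  | ext (p : ℕ) (r : Tr) : Tr
  | both (a b : Tr) : Tr

/-- The plans of a trie. -/
def Tr.plans : Tr → List (List ℕ)
  | .leaf => [[]]
  | .ext p r => r.plans.map (p :: ·)
  | .both a b => a.plans ++ b.plans

section
variable {α : Type} (step : ℕ → ℕ → ℕ → ℕ → List Cl → α → Option α)

noncomputable def body (p : ℕ) (ih : ℕ → ℕ → List Cl → α → Bool) (v bit : ℕ) (R : List Cl)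
    (a : α) : Bool :=
  force (Nat.pow 2 p) (fun bp => force (Nat.xor (Nat.sub bit 1) bp) (fun full =>
      force (Nat.succ v) (fun v' => force (Nat.mul 2 bit) (fun bit' =>
        cond (allF (fun r => cond (Nat.beq (Nat.land r.K bp) 0)
            (force (Nat.xor full r.K) (fun X =>
              next (step v bp X r.C R a)
                (fun a' => updE bit r.C r.K R (fun R' => ih v' bit' R' a'))))
            true) R)
        (cond (next (step v bp full 0 R a) (fun a' => ih v' bit' (⟨bit, bit, 0⟩ :: R) a'))
        (cond (allF (fun y => cond (Nat.ble y.d 1)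
            (cond (Nat.beq (Nat.land y.C bp) 0)
              (force (Nat.xor full y.C) (fun X =>
                next (step v bp X 0 R a)
                  (fun a' => force (Nat.lor y.C bit) (fun kk =>
                    updN bit y.C R (fun R' => ih v' bit' (⟨bit, kk, 1⟩ :: R') a')))))
              true) true) R)
        (pairsF (fun y z => cond (Nat.ble y.d 1) (cond (Nat.ble z.d 1)
            (cond (Nat.beq (Nat.land y.K z.K) 0)
            (force (Nat.lor y.C z.C) (fun M =>
              cond (Nat.beq (Nat.land M bp) 0)
              (force (Nat.xor full M) (fun X =>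
                next (step v bp X 0 R a)
                  (fun a' => force (Nat.lor M bit) (fun kk =>
                    updN bit M R (fun R' => ih v' bit' (⟨bit, kk, 2⟩ :: R') a')))))
              true)) true) true) true) R) false) false) false))))

theorem body_iff (p : ℕ) (ih : ℕ → ℕ → List Cl → α → Bool) (v bit : ℕ) (R : List Cl) (a : α) :
    body step p ih v bit R a = true ↔
      (∀ r ∈ R, Nat.land r.K (2 ^ p) = 0 →
        next (step v (2 ^ p) (Nat.xor (Nat.xor (bit - 1) (2 ^ p)) r.K) r.C R a)
          (fun a' => ih (v + 1) (2 * bit) (R.map (updE1 bit r.C r.K)) a') = true) ∧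
      next (step v (2 ^ p) (Nat.xor (bit - 1) (2 ^ p)) 0 R a)
        (fun a' => ih (v + 1) (2 * bit) (⟨bit, bit, 0⟩ :: R) a') = true ∧
      (∀ y ∈ R, y.d ≤ 1 → Nat.land y.C (2 ^ p) = 0 →
        next (step v (2 ^ p) (Nat.xor (Nat.xor (bit - 1) (2 ^ p)) y.C) 0 R a)
          (fun a' => ih (v + 1) (2 * bit)
            (⟨bit, Nat.lor y.C bit, 1⟩ :: R.map (updN1 bit y.C)) a') = true) ∧
      R.Pairwise (fun y z => y.d ≤ 1 → z.d ≤ 1 → Nat.land y.K z.K = 0 →
        Nat.land (Nat.lor y.C z.C) (2 ^ p) = 0 →
        next (step v (2 ^ p) (Nat.xor (Nat.xor (bit - 1) (2 ^ p)) (Nat.lor y.C z.C)) 0 R a)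
          (fun a' => ih (v + 1) (2 * bit)
            (⟨bit, Nat.lor (Nat.lor y.C z.C) bit, 2⟩ :: R.map (updN1 bit (Nat.lor y.C z.C))) a')
          = true) := by
  have hc : ∀ (b c : Bool), (cond b c false = true) ↔ (b = true ∧ c = true) := by
    intro b c; cases b <;> simp
  have hc1 : ∀ (b c : Bool), (cond b c true = true) ↔ (b = true → c = true) := by
    intro b c; cases b <;> simp
  unfold body
  simp only [force_eq, updE_eq, updN_eq, hc, hc1, allF_eq, pairsF_eq, beq_zero, Nat.ble_eq,
    decide_eq_true_eq]
  exact Iff.rfl

theorem next_mono {o : Option α} {f g : α → Bool} (h : ∀ a, f a = true → g a = true)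
    (ho : next o f = true) : next o g = true := by
  cases o with
  | none => rfl
  | some a => exact h a ho

theorem body_mono {p : ℕ} {ih ih' : ℕ → ℕ → List Cl → α → Bool}
    (h : ∀ v bit R a, ih v bit R a = true → ih' v bit R a = true) {v bit : ℕ} {R : List Cl} {a : α}
    (hb : body step p ih v bit R a = true) : body step p ih' v bit R a = true := by
  rw [body_iff] at hb ⊢
  obtain ⟨h1, h2, h3, h4⟩ := hb
  refine ⟨?_, ?_, ?_, ?_⟩
  · intro r hr hK
    exact next_mono (fun a' => h _ _ _ a') (h1 r hr hK)
  · exact next_mono (fun a' => h _ _ _ a') h2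
  · intro y hy hd hC
    exact next_mono (fun a' => h _ _ _ a') (h3 y hy hd hC)
  · refine h4.imp ?_
    intro y z hyz e1 e2 e3 e4
    exact next_mono (fun a' => h _ _ _ a') (hyz e1 e2 e3 e4)

/-- Search over a trie. -/
noncomputable def searchT (tr : Tr) : ℕ → ℕ → List Cl → α → Bool :=
  Tr.rec (motive := fun _ => ℕ → ℕ → List Cl → α → Bool) (fun _ _ _ _ => false)
    (fun p _ ih v bit R a => body step p ih v bit R a)
    (fun _ _ ih1 ih2 v bit R a => cond (ih1 v bit R a) (ih2 v bit R a) false) tr

noncomputable def runT (tr : Tr) (a : α) : Bool := searchT step tr 1 2 [⟨1, 1, 0⟩] a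

theorem searchT_sound (tr : Tr) : ∀ (v bit : ℕ) (R : List Cl) (a : α),
    searchT step tr v bit R a = true → ∀ plan ∈ tr.plans, search step plan v bit R a = true := by
  induction tr with
  | leaf =>
    intro v bit R a h
    have h' : false = true := h
    exact absurd h' (by decide)
  | ext p r ih =>
    intro v bit R a h plan hplan
    obtain ⟨plan', hp', rfl⟩ := List.mem_map.1 hplan
    change body step p (search step plan') v bit R a = true
    have h' : body step p (searchT step r) v bit R a = true := h
    exact body_mono step (fun v bit R a hh => ih v bit R a hh plan' hp') h'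
  | both x y ihx ihy =>
    intro v bit R a h plan hplan
    have h' : cond (searchT step x v bit R a) (searchT step y v bit R a) false = true := h
    have hx : searchT step x v bit R a = true := by
      cases hh : searchT step x v bit R a
      · rw [hh] at h'
        have h'' : false = true := h'
        exact absurd h'' (by decide)
      · rfl
    have hy : searchT step y v bit R a = true := by
      rw [hx] at h'; exact h'
    rcases List.mem_append.1 hplan with h1 | h1
    · exact ihx v bit R a hx plan h1
    · exact ihy v bit R a hy plan h1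

theorem runT_sound {tr : Tr} {a : α} (h : runT step tr a = true) : ∀ plan ∈ tr.plans,
    run step plan a = true :=
  searchT_sound step tr 1 2 [⟨1, 1, 0⟩] a h

end

end Pool.Agent.SA36
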