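import Pool.Agent.SA36.TrA
import Pool.Agent.SA36.TrB
import Pool.Agent.SA27.Check
import Pool.Agent.SA27.L81

set_option autoImplicit false

/-! The 53 patterns have the property `P(4)`: from the two runs on tries. -/

namespace Pool.Agent.SA36

open SimpleGraph Pool.Agent.SA33 Pool.Agent.SA97.Eng Pool.Agent.SA97 Pool.Agent.SA27

/-- For every pattern `q`, a plan of one of the tries and an embedding in `q`. -/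
def tbl53 : List (List ℕ × List ℕ × List ℕ) := [
  ([0, 0, 0, 0, 3, 1, 2, 4, 6, 8, 3], [0, 0, 0, 0, 1, 2, 3, 5, 6, 7, 3],
    [0, 1, 2, 3, 5, 6, 4, 8, 7, 9, 10]),
  ([0, 0, 0, 0, 3, 2, 1, 5, 6, 7, 4], [0, 0, 0, 0, 1, 2, 3, 5, 6, 7, 4],
    [0, 1, 2, 3, 6, 5, 4, 7, 10, 9, 8]),
  ([0, 0, 0, 0, 1, 3, 2, 4, 6, 7, 8], [0, 0, 0, 0, 1, 2, 3, 5, 6, 7, 8],
    [0, 3, 1, 2, 5, 4, 6, 7, 8, 9, 10]),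
  ([0, 0, 0, 0, 3, 2, 1, 0, 7, 6, 9], [0, 0, 0, 0, 1, 2, 3, 0, 7, 4, 9],
    [0, 1, 2, 3, 6, 5, 4, 7, 8, 9, 10]),
  ([0, 0, 1, 1, 2, 3, 0, 1, 7, 4, 2], [0, 0, 0, 0, 1, 2, 3, 0, 7, 4, 1],
    [1, 2, 0, 3, 4, 6, 5, 7, 8, 9, 10]),
  ([0, 0, 1, 1, 0, 3, 2, 5, 7, 5, 9], [0, 0, 0, 0, 1, 2, 3, 5, 7, 5, 9],
    [1, 0, 3, 2, 4, 5, 6, 7, 8, 9, 10]),
  ([0, 0, 0, 0, 3, 2, 1, 5, 6, 2, 1], [0, 0, 0, 0, 1, 2, 3, 5, 6, 2, 3],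
    [0, 3, 1, 2, 4, 6, 5, 8, 7, 10, 9]),
  ([0, 0, 1, 1, 2, 3, 0, 1, 7, 1, 9], [0, 0, 0, 0, 1, 2, 3, 0, 7, 0, 9],
    [1, 0, 2, 3, 6, 4, 5, 7, 8, 9, 10]),
  ([0, 0, 0, 2, 1, 4, 3, 6, 7, 8, 5, 10], [0, 0, 0, 1, 2, 3, 4, 5, 6, 7, 8, 10],
    [0, 1, 2, 4, 3, 5, 6, 10, 7, 11, 8, 9]),
  ([0, 0, 1, 1, 3, 2, 0, 6, 7, 8, 9, 10], [0, 0, 0, 1, 2, 3, 4, 5, 6, 3, 9, 8],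
    [6, 0, 7, 1, 8, 2, 9, 5, 10, 3, 4, 11]),
  ([0, 0, 1, 1, 2, 0, 5, 0, 4, 8, 9, 10], [0, 0, 0, 1, 2, 3, 4, 5, 6, 3, 1, 8],
    [2, 1, 4, 0, 8, 5, 9, 6, 10, 7, 3, 11]),
  ([0, 0, 0, 1, 3, 2, 5, 6, 4, 7, 0, 3], [0, 0, 0, 1, 2, 3, 4, 5, 6, 7, 4, 0],
    [0, 2, 1, 5, 3, 6, 4, 7, 8, 9, 11, 10]),
  ([0, 0, 1, 2, 0, 3, 5, 6, 7, 8, 1, 9], [0, 0, 0, 1, 2, 3, 4, 5, 6, 7, 4, 9],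
    [3, 5, 2, 6, 1, 7, 0, 8, 4, 9, 10, 11]),
  ([0, 0, 0, 1, 2, 4, 3, 5, 7, 6, 3, 5], [0, 0, 0, 1, 2, 3, 4, 5, 6, 7, 4, 5],
    [0, 2, 1, 4, 3, 5, 6, 7, 9, 8, 10, 11]),
  ([0, 0, 1, 0, 3, 4, 2, 5, 7, 1, 6, 5], [0, 0, 0, 1, 2, 3, 4, 5, 6, 7, 2, 5],
    [0, 3, 1, 4, 2, 5, 6, 7, 10, 8, 9, 11]),
  ([0, 0, 1, 2, 3, 0, 4, 5, 6, 7, 4, 1], [0, 0, 0, 1, 2, 3, 4, 5, 6, 7, 4, 1],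
    [2, 1, 3, 0, 4, 5, 6, 7, 8, 9, 10, 11]),
  ([0, 0, 0, 0, 2, 3, 1, 4, 5, 8, 9, 10], [0, 0, 0, 0, 1, 2, 3, 5, 7, 8, 6, 9],
    [0, 1, 3, 2, 6, 5, 4, 8, 9, 10, 7, 11]),
  ([0, 0, 0, 2, 3, 4, 1, 5, 6, 8, 3, 2], [0, 0, 0, 1, 2, 3, 4, 5, 6, 7, 2, 0],
    [2, 0, 3, 1, 4, 6, 5, 8, 7, 9, 10, 11]),
  ([0, 0, 1, 0, 3, 4, 2, 5, 6, 7, 1, 9], [0, 0, 0, 1, 2, 3, 4, 5, 6, 7, 2, 9],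
    [0, 3, 1, 4, 2, 5, 6, 7, 8, 9, 10, 11]),
  ([0, 0, 1, 1, 0, 2, 4, 6, 7, 8, 5, 6], [0, 0, 0, 1, 2, 3, 4, 5, 6, 7, 2, 3],
    [0, 4, 1, 6, 2, 7, 5, 8, 10, 9, 3, 11]),
  ([0, 0, 1, 1, 0, 3, 4, 5, 6, 7, 9, 5], [0, 0, 0, 1, 2, 3, 4, 5, 6, 7, 2, 1],
    [3, 1, 5, 0, 7, 4, 9, 6, 10, 8, 11, 2]),
  ([0, 0, 1, 2, 0, 3, 5, 4, 7, 8, 0, 6], [0, 0, 0, 1, 2, 3, 4, 5, 6, 7, 8, 1],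
    [1, 0, 2, 4, 3, 7, 5, 8, 6, 9, 11, 10]),
  ([0, 0, 0, 0, 1, 3, 5, 4, 7, 6, 8, 1], [0, 0, 0, 1, 2, 3, 4, 5, 6, 7, 0, 1],
    [0, 1, 3, 4, 5, 7, 6, 8, 9, 10, 2, 11]),
  ([0, 0, 1, 0, 3, 2, 5, 4, 7, 6, 9, 1], [0, 0, 0, 1, 2, 3, 4, 5, 6, 7, 8, 0],
    [1, 0, 2, 3, 5, 4, 6, 7, 9, 8, 10, 11]),
  ([0, 0, 1, 1, 3, 0, 2, 6, 7, 8, 2, 1], [0, 0, 0, 0, 1, 2, 3, 5, 7, 8, 2, 0],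
    [1, 0, 2, 3, 5, 6, 4, 7, 8, 9, 10, 11]),
  ([0, 0, 1, 1, 3, 0, 2, 5, 7, 8, 9, 1], [0, 0, 0, 1, 2, 3, 4, 5, 6, 3, 9, 3],
    [5, 0, 7, 1, 8, 2, 9, 6, 10, 3, 4, 11]),
  ([0, 0, 0, 0, 1, 2, 3, 5, 7, 8, 7, 0], [0, 0, 0, 0, 1, 2, 3, 5, 7, 8, 7, 0],
    [0, 1, 2, 3, 4, 5, 6, 7, 8, 9, 10, 11]),
  ([0, 0, 1, 1, 3, 0, 4, 3, 7, 5, 9, 10], [0, 0, 0, 1, 2, 3, 4, 5, 6, 3, 9, 1],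
    [0, 1, 5, 3, 9, 4, 10, 6, 11, 7, 8, 2]),
  ([0, 0, 0, 0, 1, 3, 5, 3, 7, 4, 9, 4], [0, 0, 0, 0, 1, 2, 3, 5, 7, 8, 2, 7],
    [3, 5, 0, 7, 6, 1, 8, 4, 9, 10, 2, 11]),
  ([0, 0, 0, 0, 2, 1, 1, 5, 6, 2, 9, 10], [0, 0, 0, 0, 1, 2, 3, 5, 7, 8, 2, 5],
    [1, 5, 0, 6, 7, 2, 8, 9, 10, 11, 3, 4]),
  ([0, 0, 1, 1, 3, 2, 0, 6, 7, 8, 9, 8], [0, 0, 0, 1, 2, 3, 4, 5, 6, 3, 9, 4],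
    [6, 0, 7, 1, 8, 2, 9, 5, 10, 3, 4, 11]),
  ([0, 0, 0, 0, 2, 3, 1, 6, 7, 8, 9, 7], [0, 0, 0, 1, 2, 3, 4, 5, 6, 3, 9, 2],
    [6, 1, 7, 0, 8, 2, 9, 4, 10, 3, 5, 11]),
  ([0, 0, 1, 2, 3, 4, 0, 6, 5, 2, 0, 10], [0, 0, 0, 1, 2, 3, 4, 5, 6, 3, 9, 0],
    [2, 1, 3, 0, 4, 6, 5, 7, 8, 10, 11, 9]),
  ([0, 0, 0, 0, 1, 3, 2, 6, 7, 7, 8, 9], [0, 0, 0, 0, 1, 2, 3, 5, 7, 8, 7, 10],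
    [0, 1, 2, 3, 4, 6, 5, 7, 8, 10, 9, 11]),
  ([0, 0, 0, 0, 2, 3, 4, 2, 5, 8, 5, 10], [0, 0, 0, 0, 1, 2, 3, 5, 7, 8, 7, 5],
    [5, 8, 3, 10, 9, 0, 11, 2, 4, 6, 7, 1]),
  ([0, 0, 0, 0, 1, 3, 5, 3, 4, 8, 8, 10], [0, 0, 0, 1, 2, 3, 4, 5, 6, 3, 1, 4],
    [1, 0, 4, 3, 8, 5, 10, 6, 11, 7, 2, 9]),
  ([0, 0, 1, 1, 3, 0, 4, 3, 6, 4, 5, 10], [0, 0, 0, 1, 2, 3, 4, 5, 6, 3, 1, 0],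
    [1, 3, 0, 4, 5, 6, 10, 8, 11, 9, 7, 2]),
  ([0, 0, 1, 1, 3, 2, 4, 3, 2, 8, 4, 6], [0, 0, 0, 1, 2, 3, 4, 5, 2, 0, 1, 3],
    [1, 3, 2, 4, 8, 6, 9, 11, 5, 0, 7, 10]),
  ([0, 0, 0, 0, 2, 3, 4, 2, 7, 6, 3, 10], [0, 0, 0, 0, 1, 2, 3, 5, 6, 7, 5, 2],
    [2, 7, 0, 4, 8, 3, 6, 10, 9, 11, 5, 1]),
  ([0, 0, 0, 2, 1, 3, 5, 4, 6, 2, 5, 1], [0, 0, 0, 1, 2, 3, 4, 5, 6, 3, 0, 4],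
    [2, 0, 3, 1, 5, 4, 6, 7, 8, 11, 9, 10]),
  ([0, 0, 0, 0, 2, 3, 1, 4, 6, 8, 9, 8], [0, 0, 0, 0, 1, 2, 3, 5, 7, 8, 6, 7],
    [0, 3, 1, 2, 5, 6, 4, 8, 9, 10, 7, 11]),
  ([0, 0, 0, 0, 2, 1, 4, 5, 7, 6, 2, 5], [0, 0, 0, 1, 2, 3, 4, 5, 6, 3, 0, 2],
    [0, 1, 2, 5, 4, 7, 6, 8, 9, 11, 3, 10]),
  ([0, 0, 1, 1, 2, 3, 0, 4, 5, 8, 5, 1], [0, 0, 0, 0, 1, 2, 3, 5, 6, 7, 5, 0],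
    [1, 0, 3, 2, 6, 5, 4, 8, 7, 9, 10, 11]),
  ([0, 0, 0, 0, 2, 3, 1, 4, 5, 8, 9, 0], [0, 0, 0, 0, 1, 2, 3, 5, 7, 8, 6, 0],
    [0, 1, 3, 2, 6, 5, 4, 8, 9, 10, 7, 11]),
  ([0, 0, 1, 1, 2, 0, 5, 4, 7, 4, 9, 10], [0, 0, 0, 0, 1, 2, 3, 5, 7, 8, 6, 5],
    [4, 7, 2, 9, 8, 1, 10, 0, 5, 6, 11, 3]),
  ([0, 0, 1, 1, 2, 0, 0, 5, 6, 4, 9, 7], [0, 0, 0, 0, 1, 2, 3, 5, 7, 8, 2, 4],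
    [0, 5, 1, 6, 7, 2, 8, 4, 9, 10, 3, 11]),
  ([0, 0, 1, 1, 2, 3, 0, 6, 0, 8, 5, 9], [0, 0, 0, 0, 1, 2, 3, 5, 6, 2, 9, 10],
    [0, 6, 1, 8, 7, 2, 9, 4, 11, 3, 5, 10]),
  ([0, 0, 1, 1, 2, 0, 3, 4, 2, 7, 4, 1], [0, 0, 0, 0, 1, 2, 3, 5, 7, 5, 2, 0],
    [1, 0, 2, 3, 5, 4, 6, 7, 9, 10, 8, 11]),
  ([0, 0, 0, 0, 1, 3, 0, 6, 4, 1, 9, 8], [0, 0, 0, 0, 1, 2, 3, 5, 6, 2, 9, 2],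
    [1, 9, 0, 4, 10, 3, 8, 5, 11, 6, 7, 2]),
  ([0, 0, 0, 0, 1, 3, 2, 6, 2, 8, 0, 2], [0, 0, 0, 0, 1, 2, 3, 5, 2, 8, 0, 2],
    [0, 1, 2, 3, 4, 6, 5, 7, 8, 9, 10, 11]),
  ([0, 0, 0, 0, 1, 3, 2, 6, 2, 8, 9, 7], [0, 0, 0, 0, 1, 2, 3, 5, 6, 2, 9, 4],
    [2, 6, 0, 8, 7, 1, 9, 4, 10, 3, 5, 11]),
  ([0, 0, 1, 1, 0, 3, 2, 6, 5, 2, 1, 9], [0, 0, 0, 0, 1, 2, 3, 5, 6, 2, 9, 0],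
    [1, 0, 2, 3, 4, 6, 5, 7, 8, 9, 11, 10]),
  ([0, 0, 0, 0, 1, 3, 2, 0, 7, 8, 4, 6], [0, 0, 0, 0, 1, 2, 3, 0, 7, 4, 5, 8],
    [0, 1, 2, 3, 4, 6, 5, 7, 8, 10, 11, 9])]

/-- The check of a row. -/
def rowB (t : List ℕ × List ℕ × List ℕ) : Bool :=
  (embB t.2.1 t.1 t.2.2 && decide (0 < t.2.1.length)) && ((decide (t.2.1.length ≤ 20) &&
    decide (∀ v : Fin t.2.1.length, 1 ≤ v.1 → t.2.1.getD v.1 0 < v.1)) &&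
    (trA.plans ++ trB.plans).contains t.2.1.tail)

theorem tbl53_ok : tbl53.all rowB = true := by decide +kernel

theorem tbl53_cover : (pats53.all fun q => tbl53.any fun t => t.1 == q) = true := by
  decide +kernel

theorem rowB_spec {t : List ℕ × List ℕ × List ℕ} (h : rowB t = true) : P4 (ptree t.1) := by
  unfold rowB at h
  simp only [Bool.and_eq_true, decide_eq_true_eq, List.contains_iff_mem, List.mem_append] at h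
  obtain ⟨⟨h1, h2⟩, ⟨h3, h4⟩, h5⟩ := h
  obtain ⟨f⟩ := embB_emb h1
  have hr : run (bstep chk4) t.2.1.tail [] = true := by
    rcases h5 with h5 | h5
    · exact runT_sound _ trA_run _ h5
    · exact runT_sound _ trB_run _ h5
  have hP : P4 (tree t.2.1.length t.2.1) := P4_of_run h2 h3 rfl (hpar_list h4) hr
  exact hP.mono f

/-- All 53 patterns have the property `P(4)`. -/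
theorem P4_pats53 : ∀ q ∈ pats53, P4 (ptree q) := by
  intro q hq
  have h1 := List.all_eq_true.1 tbl53_cover q hq
  obtain ⟨t, ht, h2⟩ := List.any_eq_true.1 h1
  rw [← eq_of_beq h2]
  exact rowB_spec (List.all_eq_true.1 tbl53_ok t ht)

end Pool.Agent.SA36
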