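import Pool.Agent.SA36.P4Chk

set_option autoImplicit false

/-! The check for pairs `(T', S)`: the traces of `T'` on hyperedges embed in `S`. -/

namespace Pool.Agent.SA36

open SimpleGraph Pool.Agent.SA33 Pool.Agent.SA97 Pool.Agent.SA97.Eng

/-! ### Definitions -/

/-- `any` with a recursor -/
noncomputable def anyF {γ : Type} (f : γ → Bool) (l : List γ) : Bool :=
  List.rec (motive := fun _ => Bool) false (fun r _ ih => cond (f r) true ih) l

/-- the union of the `q` with `(b, q)` in the list and `b` in `N` -/
noncomputable def img (N : ℕ) (asg : List (ℕ × ℕ)) : ℕ :=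
  List.rec (motive := fun _ => ℕ) 0
    (fun a _ ih => cond (Nat.beq (Nat.land a.1 N) 0) ih (Nat.lor a.2 ih)) asg

/-- Embedding search. -/
noncomputable def embT (S0 S1 S2 : List (ℕ × ℕ)) (m0 m1 m2 : ℕ) (TT : List (ℕ × ℕ)) :
    ℕ → List (ℕ × ℕ) → Bool :=
  List.rec (motive := fun _ => ℕ → List (ℕ × ℕ) → Bool) (fun _ _ => true)
    (fun u _ ih used asg =>
      cond (Nat.beq (Nat.land u.1 m1) 0)
        (cond (Nat.beq (Nat.land u.1 m2) 0)
          (cond (Nat.beq (Nat.land u.1 m0) 0) (ih used asg)
            (force (img u.2 asg) (fun A => anyF (fun q =>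
              cond (Nat.beq (Nat.land q.1 used) 0)
                (cond (Nat.beq (Nat.land q.2 used) A)
                  (force (Nat.lor used q.1) (fun us => ih us ((u.1, q.1) :: asg))) false) false) S0)))
          (force (img u.2 asg) (fun A => anyF (fun q =>
              cond (Nat.beq (Nat.land q.1 used) 0)
                (cond (Nat.beq (Nat.land q.2 used) A)
                  (force (Nat.lor used q.1) (fun us => ih us ((u.1, q.1) :: asg))) false) false) S2)))
        (force (img u.2 asg) (fun A => anyF (fun q =>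
              cond (Nat.beq (Nat.land q.1 used) 0)
                (cond (Nat.beq (Nat.land q.2 used) A)
                  (force (Nat.lor used q.1) (fun us => ih us ((u.1, q.1) :: asg))) false) false) S1)))
    TT

/-- The check: no assignment of roles embeds. `E m0 m1 m2` = embedding search. -/
noncomputable def chkS (E : ℕ → ℕ → ℕ → Bool) (P : List (ℕ × ℕ)) : Bool :=
  List.casesOn P false (fun a P => List.casesOn P false (fun b P => List.casesOn P
    (cond (nr a b)
      (cond (E a.1 0 b.1) false (cond (E b.1 0 a.1) false true))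
      (cond (E 0 a.1 b.1) false (cond (E 0 b.1 a.1) false
        (cond (E a.1 b.1 0) false (cond (E b.1 a.1 0) false true)))))
    (fun c P => List.casesOn P
      (cond (nr a b) (cond (E a.1 c.1 b.1) false (cond (E b.1 c.1 a.1) false true))
        (cond (nr a c) (cond (E a.1 b.1 c.1) false (cond (E c.1 b.1 a.1) false true))
          (cond (E b.1 a.1 c.1) false (cond (E c.1 a.1 b.1) false true))))
      (fun _ _ => true))))

/-- adjacency mask in the tree `tree n p` -/
def nbM (n : ℕ) (p : List ℕ) (u : ℕ) : ℕ :=
  (List.range n).foldr (fun w acc => bif padj p u w then Nat.lor (2 ^ w) acc else acc) 0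

theorem nbM_aux (p : List ℕ) (u : ℕ) : ∀ (l : List ℕ) (w : ℕ),
    (l.foldr (fun w acc => bif padj p u w then Nat.lor (2 ^ w) acc else acc) 0).testBit w = true ↔
      w ∈ l ∧ padj p u w = true := by
  intro l
  induction l with
  | nil => intro w; simp
  | cons x l ih =>
    intro w
    rw [List.foldr_cons]
    cases hx : padj p u x
    · rw [cond_false, ih, List.mem_cons]
      constructor
      · rintro ⟨h1, h2⟩; exact ⟨Or.inr h1, h2⟩
      · rintro ⟨h1 | h1, h2⟩
        · rw [h1, hx] at h2; exact absurd h2 (by decide)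
        · exact ⟨h1, h2⟩
    · rw [cond_true, testBit_lor, Bool.or_eq_true, testBit_pow, decide_eq_true_eq, ih,
        List.mem_cons]
      constructor
      · rintro (h1 | ⟨h1, h2⟩)
        · rw [← h1]; exact ⟨Or.inl rfl, hx⟩
        · exact ⟨Or.inr h1, h2⟩
      · rintro ⟨h1 | h1, h2⟩
        · exact Or.inl h1.symm
        · exact Or.inr ⟨h1, h2⟩

theorem nbM_spec (n : ℕ) (p : List ℕ) (u w : ℕ) :
    (nbM n p u).testBit w = true ↔ w < n ∧ padj p u w = true := by
  unfold nbM
  rw [nbM_aux, List.mem_range]

/-- table of the tree -/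
def tt (n : ℕ) (p : List ℕ) : List (ℕ × ℕ) := (List.range n).map (fun u => (2 ^ u, nbM n p u))

/-- table of the vertices of `S` with a given role -/
def st (n : ℕ) (p dl : List ℕ) (f : ℕ → Bool) : List (ℕ × ℕ) :=
  ((List.range n).filter (fun u => f (dl.getD u 0))).map (fun u => (2 ^ u, nbM n p u))

/-! ### Completeness of the search -/

theorem anyF_true {γ : Type} (f : γ → Bool) : ∀ (l : List γ), (∃ r ∈ l, f r = true) →
    anyF f l = true := by
  intro l
  induction l with
  | nil => rintro ⟨r, hr, _⟩; exact absurd hr List.not_mem_nil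
  | cons x l ih =>
    rintro ⟨r, hr, hfr⟩
    change cond (f x) true (anyF f l) = true
    cases hx : f x
    · rw [List.mem_cons] at hr
      rcases hr with rfl | hr
      · rw [hx] at hfr; exact absurd hfr (by decide)
      · exact ih ⟨r, hr, hfr⟩
    · rfl

/-- `asg` is the graph of `ψ` on the vertices in `D`. -/
structure AsgOK (ψ : ℕ → ℕ) (D : ℕ → Prop) (used : ℕ) (asg : List (ℕ × ℕ)) : Prop where
  used : ∀ w, used.testBit w = true ↔ ∃ u, D u ∧ ψ u = w
  asg : ∀ a, a ∈ asg ↔ ∃ u, D u ∧ a = (2 ^ u, 2 ^ ψ u)

theorem img_spec {ψ : ℕ → ℕ} {N : ℕ} : ∀ (asg : List (ℕ × ℕ)), (∀ a ∈ asg, ∃ u, a = (2 ^ u, 2 ^ ψ u)) →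
    ∀ w, (img N asg).testBit w = true ↔ ∃ u, (2 ^ u, 2 ^ ψ u) ∈ asg ∧ N.testBit u = true ∧ ψ u = w := by
  intro asg
  induction asg with
  | nil =>
    intro _ w
    change (0 : ℕ).testBit w = true ↔ _
    simp
  | cons a asg ih =>
    intro h w
    obtain ⟨u, rfl⟩ := h a List.mem_cons_self
    have ih' := ih (fun a ha => h a (List.mem_cons_of_mem _ ha)) w
    change (cond (Nat.beq (Nat.land (2 ^ u) N) 0) (img N asg) (Nat.lor (2 ^ ψ u) (img N asg))).testBit w
      = true ↔ _
    rw [beq_dec]
    by_cases h0 : Nat.land (2 ^ u) N = 0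
    · rw [decide_eq_true h0, cond_true, ih']
      have hN : N.testBit u = false := by
        rw [land_eq_zero] at h0
        rw [Bool.eq_false_iff]
        intro h1
        exact h0 u ⟨by rw [testBit_pow]; simp, h1⟩
      constructor
      · rintro ⟨x, h1, h2⟩; exact ⟨x, List.mem_cons_of_mem _ h1, h2⟩
      · rintro ⟨x, h1, h2, h3⟩
        rw [List.mem_cons] at h1
        rcases h1 with h1 | h1
        · rw [Prod.mk.injEq] at h1
          have := Nat.pow_right_injective (le_refl 2) h1.1
          rw [this, hN] at h2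
          exact absurd h2 (by decide)
        · exact ⟨x, h1, h2, h3⟩
    · rw [decide_eq_false h0, cond_false, testBit_lor, Bool.or_eq_true, ih', testBit_pow,
        decide_eq_true_eq]
      have hN : N.testBit u = true := by
        obtain ⟨x, h1, h2⟩ := exists_of_land_ne h0
        rw [testBit_pow, decide_eq_true_eq] at h1
        rwa [h1]
      constructor
      · rintro (h1 | ⟨x, h1, h2⟩)
        · exact ⟨u, List.mem_cons_self, hN, h1⟩
        · exact ⟨x, List.mem_cons_of_mem _ h1, h2⟩
      · rintro ⟨x, h1, h2, h3⟩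
        rw [List.mem_cons] at h1
        rcases h1 with h1 | h1
        · rw [Prod.mk.injEq] at h1
          have := Nat.pow_right_injective (le_refl 2) h1.1
          left; rw [← h3, this]
        · exact Or.inr ⟨x, h1, h2, h3⟩

theorem embT_true {S0 S1 S2 : List (ℕ × ℕ)} {m0 m1 m2 : ℕ} {ψ : ℕ → ℕ} {sn : ℕ} {sq : List ℕ}
    {n : ℕ} {p : List ℕ}
    (h0 : ∀ u, m0.testBit u = true → (2 ^ ψ u, nbM sn sq (ψ u)) ∈ S0)
    (h1 : ∀ u, m1.testBit u = true → (2 ^ ψ u, nbM sn sq (ψ u)) ∈ S1)
    (h2 : ∀ u, m2.testBit u = true → (2 ^ ψ u, nbM sn sq (ψ u)) ∈ S2)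
    (hlt : ∀ u, (m0.testBit u = true ∨ m1.testBit u = true ∨ m2.testBit u = true) → u < n ∧ ψ u < sn)
    (hinj : ∀ u w, (m0.testBit u = true ∨ m1.testBit u = true ∨ m2.testBit u = true) →
      (m0.testBit w = true ∨ m1.testBit w = true ∨ m2.testBit w = true) → ψ u = ψ w → u = w)
    (hadj : ∀ u w, (m0.testBit u = true ∨ m1.testBit u = true ∨ m2.testBit u = true) →
      (m0.testBit w = true ∨ m1.testBit w = true ∨ m2.testBit w = true) →
      (padj sq (ψ u) (ψ w) = true ↔ padj p u w = true)) :
    ∀ (l : List ℕ) (D : ℕ → Prop) (used : ℕ) (asg : List (ℕ × ℕ)), l.Nodup → (∀ u ∈ l, ¬ D u) →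
      (∀ u, D u → (m0.testBit u = true ∨ m1.testBit u = true ∨ m2.testBit u = true)) →
      AsgOK ψ D used asg →
      embT S0 S1 S2 m0 m1 m2 (l.map (fun u => (2 ^ u, nbM n p u))) used asg = true := by
  intro l
  induction l with
  | nil => intro D used asg _ _ _ _; rfl
  | cons u l ih =>
    intro D used asg hnd hlD hDm hok
    rw [List.nodup_cons] at hnd
    -- the skipping case
    have skip : embT S0 S1 S2 m0 m1 m2 (l.map (fun u => (2 ^ u, nbM n p u))) used asg = true :=
      ih D used asg hnd.2 (fun w hw => hlD w (List.mem_cons_of_mem _ hw)) hDm hok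
    have hbit : ∀ m : ℕ, Nat.land (2 ^ u) m = 0 ↔ m.testBit u = false := by
      intro m
      have e : Nat.land (2 ^ u) m = Nat.land m (2 ^ u) := Nat.land_comm _ _
      rw [e]
      exact land_pow_eq_zero m u
    -- the placing case
    have place : ∀ SS : List (ℕ × ℕ), (2 ^ ψ u, nbM sn sq (ψ u)) ∈ SS →
        (m0.testBit u = true ∨ m1.testBit u = true ∨ m2.testBit u = true) →
        (force (img (nbM n p u) asg) (fun A => anyF (fun q =>
              cond (Nat.beq (Nat.land q.1 used) 0)
                (cond (Nat.beq (Nat.land q.2 used) A)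
                  (force (Nat.lor used q.1) (fun us =>
                    embT S0 S1 S2 m0 m1 m2 (l.map (fun u => (2 ^ u, nbM n p u))) us
                      ((2 ^ u, q.1) :: asg))) false) false) SS)) = true := by
      intro SS hSS hum
      rw [force_eq]
      apply anyF_true
      refine ⟨_, hSS, ?_⟩
      have hDu : ¬ D u := hlD u List.mem_cons_self
      have e1 : Nat.land (2 ^ ψ u) used = 0 := by
        rw [land_eq_zero]
        rintro w ⟨g1, g2⟩
        rw [testBit_pow, decide_eq_true_eq] at g1
        subst g1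
        obtain ⟨x, hx, hxu⟩ := (hok.used _).1 g2
        have := hinj x u (hDm x hx) hum hxu
        subst this
        exact hDu hx
      have himg := img_spec (ψ := ψ) (N := nbM n p u) asg (fun a ha => by
        obtain ⟨x, _, hx⟩ := (hok.asg a).1 ha
        exact ⟨x, hx⟩)
      have e2 : Nat.land (nbM sn sq (ψ u)) used = img (nbM n p u) asg := by
        apply Nat.eq_of_testBit_eq
        intro w
        rw [Bool.eq_iff_iff, himg, testBit_land', Bool.and_eq_true, nbM_spec, hok.used]
        constructor
        · rintro ⟨⟨g1, g2⟩, x, hx, rfl⟩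
          refine ⟨x, (hok.asg _).2 ⟨x, hx, rfl⟩, ?_, rfl⟩
          rw [nbM_spec]
          exact ⟨(hlt x (hDm x hx)).1, (hadj u x hum (hDm x hx)).1 g2⟩
        · rintro ⟨x, hx, hN, rfl⟩
          obtain ⟨y, hy, hy'⟩ := (hok.asg _).1 hx
          rw [Prod.mk.injEq] at hy'
          have hxy : x = y := Nat.pow_right_injective (le_refl 2) hy'.1
          subst hxy
          rw [nbM_spec] at hN
          exact ⟨⟨(hlt x (hDm x hy)).2, (hadj u x hum (hDm x hy)).2 hN.2⟩, x, hy, rfl⟩
      simp only
      rw [beq_dec, decide_eq_true e1, cond_true, beq_dec, decide_eq_true e2, cond_true, force_eq]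
      refine ih (fun x => D x ∨ x = u) _ _ hnd.2 ?_ ?_ ⟨?_, ?_⟩
      · rintro w hw (g | g)
        · exact hlD w (List.mem_cons_of_mem _ hw) g
        · rw [g] at hw; exact hnd.1 hw
      · rintro w (g | g)
        · exact hDm w g
        · rw [g]; exact hum
      · intro w
        rw [testBit_lor, Bool.or_eq_true, hok.used, testBit_pow, decide_eq_true_eq]
        constructor
        · rintro (⟨x, hx, g⟩ | g)
          · exact ⟨x, Or.inl hx, g⟩
          · exact ⟨u, Or.inr rfl, g⟩
        · rintro ⟨x, hx | hx, g⟩
          · exact Or.inl ⟨x, hx, g⟩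
          · right; rw [← g, hx]
      · intro a
        rw [List.mem_cons, hok.asg]
        constructor
        · rintro (g | ⟨x, hx, g⟩)
          · exact ⟨u, Or.inr rfl, g⟩
          · exact ⟨x, Or.inl hx, g⟩
        · rintro ⟨x, hx | hx, g⟩
          · exact Or.inr ⟨x, hx, g⟩
          · left; rw [g, hx]
    rw [List.map_cons]
    change (cond (Nat.beq (Nat.land (2 ^ u) m1) 0)
        (cond (Nat.beq (Nat.land (2 ^ u) m2) 0)
          (cond (Nat.beq (Nat.land (2 ^ u) m0) 0)
            (embT S0 S1 S2 m0 m1 m2 (l.map (fun u => (2 ^ u, nbM n p u))) used asg)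
            (force (img (nbM n p u) asg) (fun A => anyF (fun q =>
              cond (Nat.beq (Nat.land q.1 used) 0)
                (cond (Nat.beq (Nat.land q.2 used) A)
                  (force (Nat.lor used q.1) (fun us =>
                    embT S0 S1 S2 m0 m1 m2 (l.map (fun u => (2 ^ u, nbM n p u))) us
                      ((2 ^ u, q.1) :: asg))) false) false) S0)))
          (force (img (nbM n p u) asg) (fun A => anyF (fun q =>
              cond (Nat.beq (Nat.land q.1 used) 0)
                (cond (Nat.beq (Nat.land q.2 used) A)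
                  (force (Nat.lor used q.1) (fun us =>
                    embT S0 S1 S2 m0 m1 m2 (l.map (fun u => (2 ^ u, nbM n p u))) us
                      ((2 ^ u, q.1) :: asg))) false) false) S2)))
        (force (img (nbM n p u) asg) (fun A => anyF (fun q =>
              cond (Nat.beq (Nat.land q.1 used) 0)
                (cond (Nat.beq (Nat.land q.2 used) A)
                  (force (Nat.lor used q.1) (fun us =>
                    embT S0 S1 S2 m0 m1 m2 (l.map (fun u => (2 ^ u, nbM n p u))) us
                      ((2 ^ u, q.1) :: asg))) false) false) S1))) = true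
    have bt : ∀ m : ℕ, Nat.land (2 ^ u) m ≠ 0 → m.testBit u = true := by
      intro m hm
      rw [Ne, hbit, Bool.not_eq_false] at hm
      exact hm
    refine cond_beq (Q := fun b => b = true) (fun _ => ?_) (fun g => ?_)
    · refine cond_beq (Q := fun b => b = true) (fun _ => ?_) (fun g => ?_)
      · refine cond_beq (Q := fun b => b = true) (fun _ => skip) (fun g => ?_)
        exact place S0 (h0 u (bt _ g)) (Or.inl (bt _ g))
      · exact place S2 (h2 u (bt _ g)) (Or.inr (Or.inr (bt _ g)))
    · exact place S1 (h1 u (bt _ g)) (Or.inr (Or.inl (bt _ g)))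

/-! ### The check is sound -/

/-- roles -/
def isR0 (t : ℕ) : Bool := decide (t = 0)
def isR1 (t : ℕ) : Bool := decide (t % 2 = 1)
def isR2 (t : ℕ) : Bool := decide (t ≠ 0 ∧ t % 2 = 0)

theorem mem_st {sn : ℕ} {sq dl : List ℕ} {f : ℕ → Bool} {u : ℕ} (hu : u < sn)
    (hf : f (dl.getD u 0) = true) : (2 ^ u, nbM sn sq u) ∈ st sn sq dl f := by
  unfold st
  rw [List.mem_map]
  exact ⟨u, List.mem_filter.2 ⟨List.mem_range.2 hu, hf⟩, rfl⟩

section
variable {k L : ℕ} {V : Type} {G : SimpleGraph V} {n sn : ℕ} {p sq dl : List ℕ}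

theorem chkS_ok (hk : 3 ≤ k)
    (H : Host k L (tree sn sq) (fun x : Fin sn => dl.getD x.1 0) G) (hL : n ≤ L) (hn : 0 < n)
    (φ : tree n p ↪g G) {S0 S1 S2 TT : List (ℕ × ℕ)} (e0 : st sn sq dl isR0 = S0)
    (e1 : st sn sq dl isR1 = S1) (e2 : st sn sq dl isR2 = S2) (eT : tt n p = TT) :
    (hgOf H hL hn φ).ChkOK (chkS (fun m0 m1 m2 => embT S0 S1 S2 m0 m1 m2 TT 0 [])) := by
  subst e0 e1 e2 eT
  intro e' B cs P hB' hcs hP hall
  obtain ⟨e, he⟩ : ∃ e : H.E, e = e' := ⟨e', rfl⟩
  have hB : ∀ u, B.testBit u = true → u < n ∧ (hgOf H hL hn φ).mem e u := by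
    rw [he]; exact hB'
  clear hB'
  have hN : Near (cnear (2 * k - 1)) := near_cnear (by omega)
  have hex : ∀ u, ∃ q : ℕ, B.testBit u = true → ∃ hq : q < sn, H.vtx e ⟨q, hq⟩ = ext0 hn φ u := by
    intro u
    by_cases h : B.testBit u = true
    · obtain ⟨_, q, hq⟩ := (hB u h).2
      exact ⟨q.1, fun _ => ⟨q.2, hq⟩⟩
    · exact ⟨0, fun h' => absurd h' h⟩
  choose ψ hψ using hex
  have hcls : ∀ u, B.testBit u = true → H.cls (ext0 hn φ u) =
      tcl (H.ti e) (H.tj e) (dl.getD (ψ u) 0) := by
    intro u hu
    obtain ⟨hq, h⟩ := hψ u hu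
    rw [← h, H.cls_vtx]
  have hEtrue : ∀ m0 m1 m2 : ℕ,
      (∀ u, m0.testBit u = true → B.testBit u = true ∧ H.cls (ext0 hn φ u) = H.ti e) →
      (∀ u, m1.testBit u = true → B.testBit u = true ∧ H.cls (ext0 hn φ u) = H.tj e) →
      (∀ u, m2.testBit u = true → B.testBit u = true ∧ H.cls (ext0 hn φ u) = H.ti e + 1) →
      embT (st sn sq dl isR0) (st sn sq dl isR1) (st sn sq dl isR2) m0 m1 m2 (tt n p) 0 [] = true := by
    intro m0 m1 m2 g0 g1 g2
    have hm : ∀ u, (m0.testBit u = true ∨ m1.testBit u = true ∨ m2.testBit u = true) →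
        B.testBit u = true := by
      rintro u (h | h | h)
      · exact (g0 u h).1
      · exact (g1 u h).1
      · exact (g2 u h).1
    refine embT_true (ψ := ψ) (sn := sn) (sq := sq) ?_ ?_ ?_ ?_ ?_ ?_ (List.range n)
      (fun _ => False) 0 [] (List.nodup_range) (fun _ _ h => h) (fun _ h => h.elim) ⟨?_, ?_⟩
    · intro u hu
      obtain ⟨h1, h2⟩ := g0 u hu
      obtain ⟨hq, _⟩ := hψ u h1
      apply mem_st hq
      rw [hcls u h1] at h2
      rcases tcl_cases (H.ti e) (H.tj e) (dl.getD (ψ u) 0) with ⟨h3, _⟩ | ⟨_, h4⟩ | ⟨_, _, h4⟩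
      · unfold isR0; rw [h3]; rfl
      · rw [h4] at h2; exact absurd h2.symm (H.far_ij e).1
      · rw [h4] at h2; exact absurd h2.symm (ne_succ hk _)
    · intro u hu
      obtain ⟨h1, h2⟩ := g1 u hu
      obtain ⟨hq, _⟩ := hψ u h1
      apply mem_st hq
      rw [hcls u h1] at h2
      rcases tcl_cases (H.ti e) (H.tj e) (dl.getD (ψ u) 0) with ⟨_, h4⟩ | ⟨h3, _⟩ | ⟨_, _, h4⟩
      · rw [h4] at h2; exact absurd h2 (H.far_ij e).1
      · unfold isR1; rw [decide_eq_true h3]
      · rw [h4] at h2; exact absurd h2 (H.far_lj e).1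
    · intro u hu
      obtain ⟨h1, h2⟩ := g2 u hu
      obtain ⟨hq, _⟩ := hψ u h1
      apply mem_st hq
      rw [hcls u h1] at h2
      rcases tcl_cases (H.ti e) (H.tj e) (dl.getD (ψ u) 0) with ⟨_, h4⟩ | ⟨_, h4⟩ | ⟨h3, h5, _⟩
      · rw [h4] at h2; exact absurd h2 (ne_succ hk _)
      · rw [h4] at h2; exact absurd h2.symm (H.far_lj e).1
      · unfold isR2; rw [decide_eq_true ⟨h3, h5⟩]
    · intro u hu
      exact ⟨(hB u (hm u hu)).1, (hψ u (hm u hu)).1⟩
    · intro u w hu hw h
      obtain ⟨q1, h1⟩ := hψ u (hm u hu)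
      obtain ⟨q2, h2⟩ := hψ w (hm w hw)
      have h3 : (⟨ψ u, q1⟩ : Fin sn) = ⟨ψ w, q2⟩ := by
        rw [Fin.mk.injEq]; exact h
      rw [h3, h2] at h1
      rw [ext0_lt hn φ (hB u (hm u hu)).1, ext0_lt hn φ (hB w (hm w hw)).1] at h1
      have h4 := φ.injective h1
      rw [Fin.mk.injEq] at h4
      exact h4.symm
    · intro u w hu hw
      obtain ⟨q1, h1⟩ := hψ u (hm u hu)
      obtain ⟨q2, h2⟩ := hψ w (hm w hw)
      have h3 := H.adj_vtx e ⟨ψ u, q1⟩ ⟨ψ w, q2⟩
      rw [h1, h2, ext0_lt hn φ (hB u (hm u hu)).1, ext0_lt hn φ (hB w (hm w hw)).1,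
        φ.map_adj_iff] at h3
      exact h3.symm
    · intro w
      rw [Nat.zero_testBit]
      constructor
      · intro h; exact absurd h (by decide)
      · rintro ⟨_, h, _⟩; exact h.elim
    · intro a
      constructor
      · intro h; exact absurd h List.not_mem_nil
      · rintro ⟨_, h, _⟩; exact h.elim
  -- entries
  have fact : ∀ (c : ZMod (2 * k - 1)) (q : ℕ × ℕ),
      ((∀ u, q.1.testBit u = true ↔ (B.testBit u = true ∧ H.cls (ext0 hn φ u) = c)) ∧
      (∀ u, B.testBit u = true → (q.2.testBit u = true ↔
        cnear (2 * k - 1) (H.cls (ext0 hn φ u)) c)) ∧ q.1 ≠ 0) →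
      (c = H.ti e ∨ c = H.tj e ∨ c = H.ti e + 1) := by
    rintro c q ⟨h1, _, h3⟩
    obtain ⟨u, hu, _⟩ := clr_spec h3
    obtain ⟨h4, h5⟩ := (h1 u).1 hu
    have := hg_cls H hL hn φ e (hB u h4).2
    rwa [h5] at this
  have nrs : ∀ (c c' : ZMod (2 * k - 1)) (q q' : ℕ × ℕ),
      ((∀ u, q.1.testBit u = true ↔ (B.testBit u = true ∧ H.cls (ext0 hn φ u) = c)) ∧
      (∀ u, B.testBit u = true → (q.2.testBit u = true ↔
        cnear (2 * k - 1) (H.cls (ext0 hn φ u)) c)) ∧ q.1 ≠ 0) →
      ((∀ u, q'.1.testBit u = true ↔ (B.testBit u = true ∧ H.cls (ext0 hn φ u) = c')) ∧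
      (∀ u, B.testBit u = true → (q'.2.testBit u = true ↔
        cnear (2 * k - 1) (H.cls (ext0 hn φ u)) c')) ∧ q'.1 ≠ 0) → c ≠ c' →
      nr q q' = decide (c ≠ H.tj e ∧ c' ≠ H.tj e) := by
    intro c c' q q' h1 h2 hne
    have f1 := fact c q h1
    have f2 := fact c' q' h2
    have ht := near_trip (H.far_ij e) (H.far_lj e) f1 f2 hne
    unfold nr
    rw [beq_dec]
    by_cases h0 : Nat.land q.2 q'.1 = 0
    · rw [decide_eq_true h0, cond_true, eq_comm, decide_eq_false_iff_not]
      intro hn'
      have hn := ht.2 hn'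
      obtain ⟨u, hu, _⟩ := clr_spec h2.2.2
      obtain ⟨h5, h6⟩ := (h2.1 u).1 hu
      rw [land_eq_zero] at h0
      refine h0 u ⟨(h1.2.1 u h5).2 ?_, hu⟩
      rw [h6]; exact hN.symm _ _ hn
    · rw [decide_eq_false h0, cond_false, eq_comm, decide_eq_true_eq]
      apply ht.1
      obtain ⟨u, hu1, hu2⟩ := exists_of_land_ne h0
      obtain ⟨h5, h6⟩ := (h2.1 u).1 hu2
      have := (h1.2.1 u h5).1 hu1
      rw [h6] at this
      exact hN.symm _ _ this
  have zero : ∀ c : ZMod (2 * k - 1), ∀ u, (0 : ℕ).testBit u = true →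
      B.testBit u = true ∧ H.cls (ext0 hn φ u) = c := by
    intro c u h
    rw [Nat.zero_testBit] at h
    exact absurd h (by decide)
  have sub : ∀ (c : ZMod (2 * k - 1)) (q : ℕ × ℕ),
      ((∀ u, q.1.testBit u = true ↔ (B.testBit u = true ∧ H.cls (ext0 hn φ u) = c)) ∧
      (∀ u, B.testBit u = true → (q.2.testBit u = true ↔
        cnear (2 * k - 1) (H.cls (ext0 hn φ u)) c)) ∧ q.1 ≠ 0) → ∀ c', c = c' →
      ∀ u, q.1.testBit u = true → B.testBit u = true ∧ H.cls (ext0 hn φ u) = c' := by
    rintro c q ⟨h1, _, _⟩ c' rfl u hu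
    exact (h1 u).1 hu
  set E : ℕ → ℕ → ℕ → Bool := fun m0 m1 m2 =>
    embT (st sn sq dl isR0) (st sn sq dl isR1) (st sn sq dl isR2) m0 m1 m2 (tt n p) 0 [] with hE
  have hE' : ∀ m0 m1 m2 : ℕ,
      (∀ u, m0.testBit u = true → B.testBit u = true ∧ H.cls (ext0 hn φ u) = H.ti e) →
      (∀ u, m1.testBit u = true → B.testBit u = true ∧ H.cls (ext0 hn φ u) = H.tj e) →
      (∀ u, m2.testBit u = true → B.testBit u = true ∧ H.cls (ext0 hn φ u) = H.ti e + 1) →
      E m0 m1 m2 = true := hEtrue
  have two : ∀ x y : Bool, (x = true ∨ y = true) → cond x false (cond y false true) = false := by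
    decide
  have four : ∀ x y z w : Bool, (x = true ∨ y = true ∨ z = true ∨ w = true) →
      cond x false (cond y false (cond z false (cond w false true))) = false := by
    decide
  cases hP with
  | nil => rfl
  | cons ha hP =>
    rename_i c1 a cs P
    cases hP with
    | nil => rfl
    | cons hb hP =>
      rename_i c2 b cs P
      have h12 : c1 ≠ c2 := by
        rintro rfl; simp at hcs
      have f1 := fact _ _ ha
      have f2 := fact _ _ hb
      cases hP with
      | nil =>
        change (cond (nr a b)
          (cond (E a.1 0 b.1) false (cond (E b.1 0 a.1) false true))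
          (cond (E 0 a.1 b.1) false (cond (E 0 b.1 a.1) false
            (cond (E a.1 b.1 0) false (cond (E b.1 a.1 0) false true))))) = false
        rw [nrs c1 c2 a b ha hb h12]
        by_cases hj : c1 ≠ H.tj e ∧ c2 ≠ H.tj e
        · rw [decide_eq_true hj, cond_true]
          apply two
          rcases f1 with h | h | h
          · left
            rcases f2 with h' | h' | h'
            · exact absurd (h.trans h'.symm) h12
            · exact absurd h' hj.2
            · exact hE' _ _ _ (sub _ _ ha _ h) (zero _) (sub _ _ hb _ h')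
          · exact absurd h hj.1
          · right
            rcases f2 with h' | h' | h'
            · exact hE' _ _ _ (sub _ _ hb _ h') (zero _) (sub _ _ ha _ h)
            · exact absurd h' hj.2
            · exact absurd (h.trans h'.symm) h12
        · rw [decide_eq_false hj, cond_false]
          apply four
          by_cases h1 : c1 = H.tj e
          · rcases f2 with h' | h' | h'
            · right; right; right
              exact hE' _ _ _ (sub _ _ hb _ h') (sub _ _ ha _ h1) (zero _)
            · exact absurd (h1.trans h'.symm) h12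
            · left
              exact hE' _ _ _ (zero _) (sub _ _ ha _ h1) (sub _ _ hb _ h')
          · have h2 : c2 = H.tj e := by
              by_contra h; exact hj ⟨h1, h⟩
            rcases f1 with h | h | h
            · right; right; left
              exact hE' _ _ _ (sub _ _ ha _ h) (sub _ _ hb _ h2) (zero _)
            · exact absurd h h1
            · right; left
              exact hE' _ _ _ (zero _) (sub _ _ hb _ h2) (sub _ _ ha _ h)
      | cons hc hP =>
        rename_i c3 c cs P
        have h13 : c1 ≠ c3 := by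
          rintro rfl; simp at hcs
        have h23 : c2 ≠ c3 := by
          rintro rfl; simp at hcs
        have f3 := fact _ _ hc
        cases hP with
        | nil =>
          change (cond (nr a b) (cond (E a.1 c.1 b.1) false (cond (E b.1 c.1 a.1) false true))
            (cond (nr a c) (cond (E a.1 b.1 c.1) false (cond (E c.1 b.1 a.1) false true))
              (cond (E b.1 a.1 c.1) false (cond (E c.1 a.1 b.1) false true)))) = false
          rw [nrs c1 c2 a b ha hb h12, nrs c1 c3 a c ha hc h13]
          by_cases j1 : c1 = H.tj e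
          · rw [decide_eq_false (fun h => h.1 j1), decide_eq_false (fun h => h.1 j1)]
            simp only [cond_false]
            apply two
            rcases f2 with h' | h' | h'
            · rcases f3 with h'' | h'' | h''
              · exact absurd (h'.trans h''.symm) h23
              · exact absurd (j1.trans h''.symm) h13
              · left; exact hE' _ _ _ (sub _ _ hb _ h') (sub _ _ ha _ j1) (sub _ _ hc _ h'')
            · exact absurd (j1.trans h'.symm) h12
            · rcases f3 with h'' | h'' | h''
              · right; exact hE' _ _ _ (sub _ _ hc _ h'') (sub _ _ ha _ j1) (sub _ _ hb _ h')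
              · exact absurd (j1.trans h''.symm) h13
              · exact absurd (h'.trans h''.symm) h23
          · by_cases j2 : c2 = H.tj e
            · have j3 : c3 ≠ H.tj e := fun h => h23 (j2.trans h.symm)
              rw [decide_eq_false (fun h => h.2 j2), decide_eq_true ⟨j1, j3⟩]
              simp only [cond_false, cond_true]
              apply two
              rcases f1 with h' | h' | h'
              · rcases f3 with h'' | h'' | h''
                · exact absurd (h'.trans h''.symm) h13
                · exact absurd h'' j3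
                · left; exact hE' _ _ _ (sub _ _ ha _ h') (sub _ _ hb _ j2) (sub _ _ hc _ h'')
              · exact absurd h' j1
              · rcases f3 with h'' | h'' | h''
                · right; exact hE' _ _ _ (sub _ _ hc _ h'') (sub _ _ hb _ j2) (sub _ _ ha _ h')
                · exact absurd h'' j3
                · exact absurd (h'.trans h''.symm) h13
            · have j3 : c3 = H.tj e := by
                rcases f1 with h | h | h
                · rcases f2 with h' | h' | h'
                  · exact absurd (h.trans h'.symm) h12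
                  · exact absurd h' j2
                  · rcases f3 with h'' | h'' | h''
                    · exact absurd (h.trans h''.symm) h13
                    · exact h''
                    · exact absurd (h'.trans h''.symm) h23
                · exact absurd h j1
                · rcases f2 with h' | h' | h'
                  · rcases f3 with h'' | h'' | h''
                    · exact absurd (h'.trans h''.symm) h23
                    · exact h''
                    · exact absurd (h.trans h''.symm) h13
                  · exact absurd h' j2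
                  · exact absurd (h.trans h'.symm) h12
              rw [decide_eq_true ⟨j1, j2⟩]
              simp only [cond_true]
              apply two
              rcases f1 with h' | h' | h'
              · rcases f2 with h'' | h'' | h''
                · exact absurd (h'.trans h''.symm) h12
                · exact absurd h'' j2
                · left; exact hE' _ _ _ (sub _ _ ha _ h') (sub _ _ hc _ j3) (sub _ _ hb _ h'')
              · exact absurd h' j1
              · rcases f2 with h'' | h'' | h''
                · right; exact hE' _ _ _ (sub _ _ hb _ h'') (sub _ _ hc _ j3) (sub _ _ ha _ h')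
                · exact absurd h'' j2
                · exact absurd (h'.trans h''.symm) h12
        | cons hd' hP =>
          rename_i c4 q cs P
          exfalso
          have g4 := fact _ _ hd'
          have h14 : c1 ≠ c4 := by
            rintro rfl; simp at hcs
          have h24 : c2 ≠ c4 := by
            rintro rfl; simp at hcs
          have h34 : c3 ≠ c4 := by
            rintro rfl; simp at hcs
          clear hd' hcs hc hb ha hP hall nrs fact hE' hEtrue sub zero hcls hψ
          generalize H.ti e + 1 = a3 at *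
          generalize H.ti e = a1 at *
          generalize H.tj e = a2 at *
          grind

/-- A successful run with the pair check: `tree n p` is in no host of `(tree sn sq, 0)`. -/
theorem free_of_run (hk : 3 ≤ k) (hL : 20 ≤ L) (hn : 0 < n) (hn20 : n ≤ 20) (hlen : p.length = n)
    (hp : ∀ v, 1 ≤ v → v < n → p.getD v 0 < v)
    {S0 S1 S2 TT : List (ℕ × ℕ)} (e0 : st sn sq dl isR0 = S0)
    (e1 : st sn sq dl isR1 = S1) (e2 : st sn sq dl isR2 = S2) (eT : tt n p = TT)
    (h : run (bstep (chkS (fun m0 m1 m2 => embT S0 S1 S2 m0 m1 m2 TT 0 []))) p.tail [] = true)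
    (H : Host k L (tree sn sq) (fun x : Fin sn => dl.getD x.1 0) G) : IsEmpty (tree n p ↪g G) := by
  refine ⟨fun φ => ?_⟩
  have hL' : n ≤ L := by omega
  let HH := hgOf H hL' hn φ
  have hN : Near (cnear (2 * k - 1)) := near_cnear (by omega)
  have hadj : ∀ v, 1 ≤ v → v < n → G.Adj (ext0 hn φ (p.getD v 0)) (ext0 hn φ v) := by
    intro v h1 h2
    have h3 := hp v h1 h2
    rw [ext0_lt hn φ (by omega : p.getD v 0 < n), ext0_lt hn φ h2, φ.map_adj_iff]
    change padj p (p.getD v 0) v = true
    unfold padj
    rw [Bool.or_eq_true, Bool.and_eq_true]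
    left
    exact ⟨Nat.ble_eq_true_of_le h3, Nat.beq_refl _⟩
  have hpar : ∀ v, 1 ≤ v → v < n → p.getD v 0 < v ∧
      ¬cnear (2 * k - 1) (H.cls (ext0 hn φ (p.getD v 0))) (H.cls (ext0 hn φ v)) := by
    intro v h1 h2
    refine ⟨hp v h1 h2, ?_⟩
    rw [← not_far_iff, not_not]
    exact H.adj_far _ _ (hadj v h1 h2)
  have hstep := HH.bstep_ok hN hpar (hg_tri hk H hL' hn φ) (chkS_ok hk H hL' hn φ e0 e1 e2 eT)
  have hrun := run_sound hN hstep hpar p.tail (by rw [List.length_tail]; omega) (by
    intro i hi
    rw [List.length_tail] at hi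
    rw [List.getElem_tail, List.getD_eq_getElem _ _ (by omega)]
    congr 1
    omega) (a := []) (by intro c hc; exact absurd hc List.not_mem_nil)
  rw [h] at hrun
  exact absurd hrun (by decide)

end

end Pool.Agent.SA36
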