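import Pool.Agent.SA36.P4Chk
import Pool.Agent.SA36.Trie

set_option autoImplicit false
set_option maxRecDepth 100000

/-! Kernel run for `P(4)` on a trie of plans, part A. -/

namespace Pool.Agent.SA36

open Pool.Agent.SA97.Eng Pool.Agent.SA97

/-- The plans, part A. -/
def trA : Tr :=
  .ext 0 (.ext 0 (.ext 0 (.ext 1 (.ext 2 (.ext 3 (.both (.ext 0 (.ext 7 (.both (.ext 0 (.ext 9
  .leaf)) (.ext 4 (.both (.ext 1 .leaf) (.both (.ext 5 (.ext 8 .leaf)) (.ext 9 .leaf)))))))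
  (.ext 5 (.both (.ext 2 (.ext 8 (.ext 0 (.ext 2 .leaf)))) (.both (.ext 6 (.both (.ext 2 (.both
  (.ext 3 .leaf) (.ext 9 (.both (.ext 0 .leaf) (.both (.ext 2 .leaf) (.both (.ext 4 .leaf) (.ext
  10 .leaf))))))) (.ext 7 (.both (.ext 3 .leaf) (.both (.ext 4 .leaf) (.both (.ext 5 (.both
  (.ext 0 .leaf) (.ext 2 .leaf))) (.ext 8 .leaf))))))) (.ext 7 (.both (.ext 5 (.both (.ext 2
  (.ext 0 .leaf)) (.ext 9 .leaf))) (.ext 8 (.both (.ext 2 (.both (.ext 0 .leaf) (.both (.ext 4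
  .leaf) (.both (.ext 5 .leaf) (.ext 7 .leaf))))) (.both (.ext 6 (.both (.ext 0 .leaf) (.both
  (.ext 5 .leaf) (.both (.ext 7 .leaf) (.ext 9 .leaf))))) (.ext 7 (.both (.ext 0 .leaf) (.both
  (.ext 5 .leaf) (.ext 10 .leaf))))))))))))))))))

theorem trA_run : runT (bstep chk4) trA [] = true := by decide +kernel

end Pool.Agent.SA36
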